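import Pool.Agent.W5h98.Frog.Trace

/-!
The frog configuration and its avoidance probabilities.
-/

set_option autoImplicit false
set_option linter.unusedSectionVars false

namespace Pool.Agent.W5h98.Frog
open MeasureTheory ProbabilityTheory Set Filter
open scoped ENNReal NNReal

/-- Two laws of families of bits which give the same probabilities to all avoidance events agree. -/
theorem ext_avoid {ι : Type*} (μ ν : Measure (ι → Bool)) [IsProbabilityMeasure μ] [IsProbabilityMeasure ν]
    (h : ∀ A : Finset ι, μ {b | ∀ i ∈ A, b i = false} = ν {b | ∀ i ∈ A, b i = false}) : μ = ν := by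
  classical
  refine MeasureTheory.ext_of_generate_finite (Set.range fun A : Finset ι => {b : ι → Bool | ∀ i ∈ A, b i = false})
    ?_ ?_ ?_ (by simp)
  · apply le_antisymm
    · refine iSup_le fun i => ?_
      rw [← measurable_iff_comap_le]
      have h1 : MeasurableSet[MeasurableSpace.generateFrom
          (Set.range fun A : Finset ι => {b : ι → Bool | ∀ i ∈ A, b i = false})] {b : ι → Bool | b i = false} := by
        apply MeasurableSpace.measurableSet_generateFrom
        exact ⟨{i}, by simp⟩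
      have h2 : MeasurableSet[MeasurableSpace.generateFrom
          (Set.range fun A : Finset ι => {b : ι → Bool | ∀ i ∈ A, b i = false})] {b : ι → Bool | b i = true} := by
        have : {b : ι → Bool | b i = true} = {b : ι → Bool | b i = false}ᶜ := by
          ext b; simp
        rw [this]; exact h1.compl
      apply measurable_to_bool
      exact h2
    · apply MeasurableSpace.generateFrom_le
      rintro _ ⟨A, rfl⟩
      have : {b : ι → Bool | ∀ i ∈ A, b i = false} = ⋂ i ∈ A, (fun b : ι → Bool => b i) ⁻¹' {false} := by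
        ext b; simp
      show MeasurableSet {b : ι → Bool | ∀ i ∈ A, b i = false}
      rw [this]
      exact Finset.measurableSet_biInter A fun i _ => (measurable_pi_apply i) (measurableSet_singleton false)
  · rintro _ ⟨A, rfl⟩ _ ⟨B, rfl⟩ _
    refine ⟨A ∪ B, ?_⟩
    ext b
    simp only [Finset.mem_union, mem_ofPred_eq, mem_inter_iff]
    constructor
    · intro h; exact ⟨fun i hi => h i (Or.inl hi), fun i hi => h i (Or.inr hi)⟩
    · rintro ⟨h1, h2⟩ i (hi | hi)
      · exact h1 i hi
      · exact h2 i hi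
  · rintro _ ⟨A, rfl⟩
    exact h A

variable {V : Type*} [MeasurableSpace V] [DiscreteMeasurableSpace V] [Countable V]
variable (K : V → Measure V) [∀ y, IsProbabilityMeasure (K y)]

/-- The law of the particles at one vertex. -/
noncomputable def oneLaw (lam : ℝ≥0) : Measure (ℕ × (ℕ → ℕ → V → V)) :=
  (poissonMeasure lam).prod (Measure.infinitePi fun _ : ℕ => insLaw K)

instance (lam : ℝ≥0) : IsProbabilityMeasure (oneLaw K lam) := by unfold oneLaw; infer_instance

/-- The law of the configuration. -/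
noncomputable def cfgLaw (lam : ℝ≥0) : Measure (V → ℕ × (ℕ → ℕ → V → V)) :=
  Measure.infinitePi fun _ : V => oneLaw K lam

instance (lam : ℝ≥0) : IsProbabilityMeasure (cfgLaw K lam) := by unfold cfgLaw; infer_instance

/-- The probability that a Poisson variable with parameter `a` vanishes. -/
noncomputable def ex (a : ℝ≥0∞) : ℝ≥0∞ := ENNReal.ofReal (Real.exp (-a.toReal))

theorem ex_add {a b : ℝ≥0∞} (ha : a ≠ ∞) (hb : b ≠ ∞) : ex (a + b) = ex a * ex b := by
  unfold ex
  rw [ENNReal.toReal_add ha hb, neg_add, Real.exp_add, ENNReal.ofReal_mul (Real.exp_nonneg _)]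

theorem ex_le_one (a : ℝ≥0∞) : ex a ≤ 1 := by
  unfold ex
  rw [ENNReal.ofReal_le_one, Real.exp_le_one_iff]
  simp

theorem ex_zero : ex 0 = 1 := by simp [ex]

theorem ex_sum {ι : Type*} (s : Finset ι) (f : ι → ℝ≥0∞) (hf : ∀ i ∈ s, f i ≠ ∞) :
    ex (∑ i ∈ s, f i) = ∏ i ∈ s, ex (f i) := by
  classical
  induction s using Finset.induction_on with
  | empty => simp [ex_zero]
  | insert i s hi ih =>
    rw [Finset.sum_insert hi, Finset.prod_insert hi, ex_add (hf i (Finset.mem_insert_self i s)),
      ih fun j hj => hf j (Finset.mem_insert_of_mem hj)]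
    exact ENNReal.sum_ne_top.2 fun j hj => hf j (Finset.mem_insert_of_mem hj)

/-- No particle of `x` has its path in `B`. -/
def noPath (x : V) (B : Set (ℕ → V)) : Set (ℕ × (ℕ → ℕ → V → V)) :=
  {p | ∀ k < p.1, pos (p.2 k) x ∉ B}

theorem measurableSet_noPath (x : V) {B : Set (ℕ → V)} (hB : MeasurableSet B) :
    MeasurableSet (noPath x B) := by
  have : noPath x B = ⋂ k : ℕ, ({p | k < p.1}ᶜ ∪
      (fun p : ℕ × (ℕ → ℕ → V → V) => pos (p.2 k) x) ⁻¹' Bᶜ) := by
    ext p
    simp only [noPath, mem_ofPred_eq, mem_iInter, mem_union, mem_compl_iff, mem_preimage]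
    exact forall_congr' fun k => imp_iff_not_or
  rw [this]
  apply MeasurableSet.iInter
  intro k
  apply MeasurableSet.union
  · have h1 : MeasurableSet {n : ℕ | k < n} := MeasurableSet.of_discrete
    exact (measurable_fst h1).compl
  · exact ((measurable_pos x).comp ((measurable_pi_apply k).comp measurable_snd)) hB.compl

theorem oneLaw_noPath (lam : ℝ≥0) (x : V) {B : Set (ℕ → V)} (hB : MeasurableSet B) :
    oneLaw K lam (noPath x B) = ex (lam * PL K x B) := by
  unfold oneLaw
  rw [Measure.prod_apply (measurableSet_noPath x hB)]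
  have h1 : ∀ n : ℕ, Measure.infinitePi (fun _ : ℕ => insLaw K) (Prod.mk n ⁻¹' (noPath x B)) =
      (PL K x Bᶜ) ^ n := by
    intro n
    have h2 : (Prod.mk n ⁻¹' (noPath x B)) =
        Set.pi (Finset.range n : Set ℕ) (fun _ => (fun s => pos s x) ⁻¹' Bᶜ) := by
      ext s
      simp only [noPath, mem_preimage, mem_ofPred_eq, Set.mem_pi, Finset.coe_range, mem_Iio, mem_compl_iff]
    rw [h2, Measure.infinitePi_pi]
    · rw [Finset.prod_const, Finset.card_range]
      congr 1
      exact (Measure.map_apply (measurable_pos x) hB.compl).symm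
    · intro i _; exact measurable_pos x hB.compl
  simp_rw [h1]
  rw [lintegral_countable']
  simp_rw [poissonMeasure_singleton]
  set b : ℝ := (PL K x B).toReal with hb
  have hb1 : b ≤ 1 := by
    rw [hb]
    exact ENNReal.toReal_le_of_le_ofReal zero_le_one (by simpa using prob_le_one)
  have hb0 : 0 ≤ b := ENNReal.toReal_nonneg
  have hc : PL K x Bᶜ = ENNReal.ofReal (1 - b) := by
    rw [prob_compl_eq_one_sub hB, hb, ENNReal.ofReal_sub _ ENNReal.toReal_nonneg, ENNReal.ofReal_one,
      ENNReal.ofReal_toReal (measure_ne_top _ _)]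
  rw [hc]
  have hsum : HasSum (fun n : ℕ => (1 - b) ^ n * (Real.exp (-lam) * lam ^ n / (n.factorial : ℝ)))
      (Real.exp (-(lam * b))) := by
    have h1 := NormedSpace.expSeries_div_hasSum_exp (𝔸 := ℝ) ((lam : ℝ) * (1 - b))
    rw [← Real.exp_eq_exp_ℝ] at h1
    have h2 := h1.mul_left (Real.exp (-lam))
    have h3 : Real.exp (-lam) * Real.exp ((lam : ℝ) * (1 - b)) = Real.exp (-(lam * b)) := by
      rw [← Real.exp_add]; congr 1; ring
    rw [h3] at h2
    have h5 : (fun n : ℕ => (1 - b) ^ n * (Real.exp (-lam) * lam ^ n / (n.factorial : ℝ))) =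
        fun i : ℕ => Real.exp (-lam) * ((lam * (1 - b)) ^ i / (i.factorial : ℝ)) := by
      funext n
      rw [mul_pow]; ring
    rw [h5]
    exact h2
  have hnn : ∀ n : ℕ, 0 ≤ (1 - b) ^ n * (Real.exp (-lam) * lam ^ n / (n.factorial : ℝ)) := by
    intro n
    have : 0 ≤ 1 - b := by linarith
    positivity
  have h4 : ∀ n : ℕ, ENNReal.ofReal (1 - b) ^ n * ENNReal.ofReal (Real.exp (-lam) * lam ^ n / (n.factorial : ℝ)) =
      ENNReal.ofReal ((1 - b) ^ n * (Real.exp (-lam) * lam ^ n / (n.factorial : ℝ))) := by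
    intro n
    have : 0 ≤ 1 - b := by linarith
    rw [← ENNReal.ofReal_pow this, ← ENNReal.ofReal_mul (pow_nonneg this n)]
  simp_rw [h4]
  rw [← ENNReal.ofReal_tsum_of_nonneg hnn hsum.summable, hsum.tsum_eq]
  unfold ex
  rw [ENNReal.toReal_mul, ENNReal.coe_toReal]

variable {J : Type*}

/-- Some particle of `p.1` has its path in `B p.1 p.2`. -/
def Mk (B : V → J → Set (ℕ → V)) (ω : V → ℕ × (ℕ → ℕ → V → V)) (p : V × J) : Prop :=
  ∃ k < (ω p.1).1, pos ((ω p.1).2 k) p.1 ∈ B p.1 p.2

/-- The union of the target sets of `A` at `x`. -/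
def secA (B : V → J → Set (ℕ → V)) (A : Finset (V × J)) (x : V) : Set (ℕ → V) :=
  ⋃ p ∈ A, ⋃ _ : p.1 = x, B p.1 p.2

theorem measurableSet_secA {B : V → J → Set (ℕ → V)} (hB : ∀ x j, MeasurableSet (B x j))
    (A : Finset (V × J)) (x : V) : MeasurableSet (secA B A x) := by
  unfold secA
  exact Finset.measurableSet_biUnion A fun p _ => MeasurableSet.iUnion fun _ => hB _ _

open Classical in
theorem secA_empty {B : V → J → Set (ℕ → V)} {A : Finset (V × J)} {x : V} (h : x ∉ A.image Prod.fst) :
    secA B A x = ∅ := by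
  unfold secA
  simp only [iUnion_eq_empty]
  intro p hp h2
  exact absurd (Finset.mem_image.2 ⟨p, hp, h2⟩) h

theorem avoid_iff (B : V → J → Set (ℕ → V)) (A : Finset (V × J)) (ω : V → ℕ × (ℕ → ℕ → V → V)) :
    (∀ p ∈ A, ¬ Mk B ω p) ↔ ∀ x, ω x ∈ noPath x (secA B A x) := by
  simp only [Mk, noPath, secA, mem_ofPred_eq, mem_iUnion, not_exists, not_and]
  constructor
  · rintro h x k hk p hp rfl hB
    exact h p hp k hk hB
  · intro h p hp k hk hB
    exact h p.1 k hk p hp rfl hB

theorem tsum_secA_ne_top (B : V → J → Set (ℕ → V)) (A : Finset (V × J)) :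
    ∑' x, PL K x (secA B A x) ≠ ∞ := by
  classical
  rw [tsum_eq_sum (s := A.image Prod.fst)]
  · exact ENNReal.sum_ne_top.2 fun x _ => measure_ne_top _ _
  · intro x hx
    rw [secA_empty hx]; simp

/-- The avoidance formula. -/
theorem avoid_formula (lam : ℝ≥0) {B : V → J → Set (ℕ → V)} (hB : ∀ x j, MeasurableSet (B x j))
    (A : Finset (V × J)) :
    cfgLaw K lam {ω | ∀ p ∈ A, ¬ Mk B ω p} = ex (lam * ∑' x, PL K x (secA B A x)) := by
  classical
  have h1 : {ω : V → ℕ × (ℕ → ℕ → V → V) | ∀ p ∈ A, ¬ Mk B ω p} =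
      Set.pi (A.image Prod.fst : Finset V) (fun x => noPath x (secA B A x)) := by
    ext ω
    rw [mem_ofPred_eq, avoid_iff, Set.mem_pi]
    constructor
    · intro h x _; exact h x
    · intro h x
      by_cases hx : x ∈ A.image Prod.fst
      · exact h x (by exact_mod_cast hx)
      · rw [secA_empty hx]
        intro k _ hk
        exact hk
  have h2 : ∑' x, PL K x (secA B A x) = ∑ x ∈ A.image Prod.fst, PL K x (secA B A x) := by
    rw [tsum_eq_sum (s := A.image Prod.fst)]
    intro x hx
    rw [secA_empty hx]; simp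
  rw [h1, cfgLaw, Measure.infinitePi_pi]
  · rw [h2, Finset.mul_sum, ex_sum]
    · apply Finset.prod_congr rfl
      intro x _
      exact oneLaw_noPath K lam x (measurableSet_secA hB A x)
    · intro x _
      exact ENNReal.mul_ne_top (by simp) (measure_ne_top _ _)
  · intro x _
    exact measurableSet_noPath x (measurableSet_secA hB A x)

open Classical in
/-- The field of bits of the marks. -/
noncomputable def Mb (B : V → J → Set (ℕ → V)) (ω : V → ℕ × (ℕ → ℕ → V → V)) : V × J → Bool :=
  fun p => decide (Mk B ω p)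

theorem Mb_false {B : V → J → Set (ℕ → V)} {ω : V → ℕ × (ℕ → ℕ → V → V)} {p : V × J} :
    Mb B ω p = false ↔ ¬ Mk B ω p := by simp [Mb]

theorem Mb_true {B : V → J → Set (ℕ → V)} {ω : V → ℕ × (ℕ → ℕ → V → V)} {p : V × J} :
    Mb B ω p = true ↔ Mk B ω p := by simp [Mb]

theorem measurableSet_Mk {B : V → J → Set (ℕ → V)} (hB : ∀ x j, MeasurableSet (B x j)) (p : V × J) :
    MeasurableSet {ω : V → ℕ × (ℕ → ℕ → V → V) | Mk B ω p} := by
  have : {ω : V → ℕ × (ℕ → ℕ → V → V) | Mk B ω p} =
      ((fun ω : V → ℕ × (ℕ → ℕ → V → V) => ω p.1) ⁻¹' (noPath p.1 (B p.1 p.2)))ᶜ := by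
    ext ω
    simp [Mk, noPath]
  rw [this]
  exact ((measurable_pi_apply p.1) (measurableSet_noPath p.1 (hB _ _))).compl

theorem measurable_Mb {B : V → J → Set (ℕ → V)} (hB : ∀ x j, MeasurableSet (B x j)) :
    Measurable (Mb B) := by
  rw [measurable_pi_iff]
  intro p
  apply measurable_to_bool
  have : (fun ω => Mb B ω p) ⁻¹' {true} = {ω : V → ℕ × (ℕ → ℕ → V → V) | Mk B ω p} := by
    ext ω
    simp [Mb]
  rw [this]
  exact measurableSet_Mk hB p

/-- The law of the field of marks. -/
noncomputable def markLaw (lam : ℝ≥0) (B : V → J → Set (ℕ → V)) : Measure (V × J → Bool) :=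
  (cfgLaw K lam).map (Mb B)

theorem markLaw_prob (lam : ℝ≥0) {B : V → J → Set (ℕ → V)} (hB : ∀ x j, MeasurableSet (B x j)) :
    IsProbabilityMeasure (markLaw K lam B) :=
  Measure.isProbabilityMeasure_map (measurable_Mb hB).aemeasurable

theorem measurableSet_avoid {ι : Type*} (A : Finset ι) :
    MeasurableSet {b : ι → Bool | ∀ i ∈ A, b i = false} := by
  have : {b : ι → Bool | ∀ i ∈ A, b i = false} = ⋂ i ∈ A, (fun b : ι → Bool => b i) ⁻¹' {false} := by
    ext b; simp
  rw [this]
  exact Finset.measurableSet_biInter A fun i _ => (measurable_pi_apply i) (measurableSet_singleton false)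

theorem markLaw_avoid (lam : ℝ≥0) {B : V → J → Set (ℕ → V)} (hB : ∀ x j, MeasurableSet (B x j))
    (A : Finset (V × J)) :
    markLaw K lam B {b | ∀ p ∈ A, b p = false} = ex (lam * ∑' x, PL K x (secA B A x)) := by
  rw [← avoid_formula K lam hB A, markLaw, Measure.map_apply (measurable_Mb hB) (measurableSet_avoid A)]
  congr 1
  ext ω
  simp only [mem_preimage, mem_ofPred_eq, Mb_false]

/-- A random bit. -/
noncomputable def ber (a : ℝ≥0∞) : Measure Bool :=
  ex a • Measure.dirac false + (1 - ex a) • Measure.dirac true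

instance (a : ℝ≥0∞) : IsProbabilityMeasure (ber a) := by
  constructor
  simp only [ber, Measure.coe_add, Measure.coe_smul, Pi.add_apply, Pi.smul_apply, measure_univ,
    smul_eq_mul, mul_one]
  exact add_tsub_cancel_of_le (ex_le_one a)

theorem ber_false (a : ℝ≥0∞) : ber a {false} = ex a := by
  simp [ber]

theorem ber_true (a : ℝ≥0∞) : ber a {true} = 1 - ex a := by
  simp [ber]

/-- Marks with disjoint targets are independent. -/
theorem markLaw_prod (lam : ℝ≥0) {B : V → J → Set (ℕ → V)} (hB : ∀ x j, MeasurableSet (B x j))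
    (hd : ∀ x, ∀ j j', j ≠ j' → Disjoint (B x j) (B x j')) :
    markLaw K lam B = Measure.infinitePi (fun p : V × J => ber (lam * PL K p.1 (B p.1 p.2))) := by
  classical
  have := markLaw_prob K lam hB
  apply ext_avoid
  intro A
  rw [markLaw_avoid K lam hB A]
  have h1 : {b : V × J → Bool | ∀ i ∈ A, b i = false} = Set.pi (A : Set (V × J)) (fun _ => {false}) := by
    ext b; simp [Set.mem_pi]
  rw [h1, Measure.infinitePi_pi _ (fun _ _ => measurableSet_singleton _)]
  simp_rw [ber_false]
  rw [← ex_sum _ _ (fun p _ => ENNReal.mul_ne_top (by simp) (measure_ne_top _ _)), ← Finset.mul_sum]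
  congr 2
  have h2 : ∑' x, PL K x (secA B A x) = ∑ x ∈ A.image Prod.fst, PL K x (secA B A x) := by
    rw [tsum_eq_sum (s := A.image Prod.fst)]
    intro x hx
    rw [secA_empty hx]; simp
  rw [h2, ← Finset.sum_fiberwise_of_maps_to (s := A) (t := A.image Prod.fst) (g := Prod.fst)
    (fun p hp => Finset.mem_image_of_mem _ hp)]
  apply Finset.sum_congr rfl
  intro x _
  have h3 : secA B A x = ⋃ p ∈ A.filter (fun p => p.1 = x), B p.1 p.2 := by
    ext γ
    simp only [secA, mem_iUnion, Finset.mem_filter]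
    constructor
    · rintro ⟨p, hp, hx, h⟩; exact ⟨p, ⟨hp, hx⟩, h⟩
    · rintro ⟨p, ⟨hp, hx⟩, h⟩; exact ⟨p, hp, hx, h⟩
  rw [h3, measure_biUnion_finset]
  · apply Finset.sum_congr rfl
    intro p hp
    rw [(Finset.mem_filter.1 hp).2]
  · intro p hp p' hp' hne
    have e1 := (Finset.mem_filter.1 hp).2
    have e2 := (Finset.mem_filter.1 hp').2
    show Disjoint (B p.1 p.2) (B p'.1 p'.2)
    rw [e1, e2]
    apply hd
    intro h
    exact hne (Prod.ext (e1.trans e2.symm) h)
  · intro p _; exact hB _ _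

/-- Superposition. -/
theorem markLaw_add (l1 l2 : ℝ≥0) {B : V → J → Set (ℕ → V)} (hB : ∀ x j, MeasurableSet (B x j)) :
    ((markLaw K l1 B).prod (markLaw K l2 B)).map (fun q p => q.1 p || q.2 p) = markLaw K (l1 + l2) B := by
  classical
  have i1 := markLaw_prob K l1 hB
  have i2 := markLaw_prob K l2 hB
  have i3 := markLaw_prob K (l1 + l2) hB
  have hm : Measurable (fun (q : (V × J → Bool) × (V × J → Bool)) (p : V × J) => q.1 p || q.2 p) := by
    rw [measurable_pi_iff]
    intro p
    have h1 : Measurable (fun q : Bool × Bool => q.1 || q.2) := measurable_of_countable _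
    have h2 : Measurable (fun q : (V × J → Bool) × (V × J → Bool) => (q.1 p, q.2 p)) :=
      ((measurable_pi_apply p).comp measurable_fst).prodMk ((measurable_pi_apply p).comp measurable_snd)
    exact h1.comp h2
  have i4 : IsProbabilityMeasure (((markLaw K l1 B).prod (markLaw K l2 B)).map
      (fun (q : (V × J → Bool) × (V × J → Bool)) (p : V × J) => q.1 p || q.2 p)) :=
    Measure.isProbabilityMeasure_map hm.aemeasurable
  apply ext_avoid
  intro A
  rw [Measure.map_apply hm (measurableSet_avoid A), markLaw_avoid K (l1 + l2) hB A]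
  have h1 : (fun (q : (V × J → Bool) × (V × J → Bool)) (p : V × J) => q.1 p || q.2 p) ⁻¹'
      {b | ∀ i ∈ A, b i = false} = {b | ∀ i ∈ A, b i = false} ×ˢ {b | ∀ i ∈ A, b i = false} := by
    ext q
    simp only [mem_preimage, mem_ofPred_eq, Bool.or_eq_false_iff, mem_prod]
    exact forall₂_and
  rw [h1, Measure.prod_prod, markLaw_avoid K l1 hB, markLaw_avoid K l2 hB, ← ex_add, ENNReal.coe_add, add_mul]
  · exact ENNReal.mul_ne_top (by simp) (tsum_secA_ne_top K B A)
  · exact ENNReal.mul_ne_top (by simp) (tsum_secA_ne_top K B A)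

/-- Invariance. -/
theorem markLaw_equiv (lam : ℝ≥0) {B : V → J → Set (ℕ → V)} (hB : ∀ x j, MeasurableSet (B x j))
    (φ : V ≃ V) (hφ : ∀ x z, K (φ x) {φ z} = K x {z}) (ψ : J ≃ J)
    (hBφ : ∀ x j γ, (fun t => φ (γ t)) ∈ B (φ x) (ψ j) ↔ γ ∈ B x j) :
    (markLaw K lam B).map (fun (b : V × J → Bool) (p : V × J) => b (φ p.1, ψ p.2)) = markLaw K lam B := by
  classical
  have i1 := markLaw_prob K lam hB
  have hm : Measurable (fun (b : V × J → Bool) (p : V × J) => b (φ p.1, ψ p.2)) :=
    measurable_pi_lambda _ fun p => measurable_pi_apply _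
  have i2 : IsProbabilityMeasure ((markLaw K lam B).map
      (fun (b : V × J → Bool) (p : V × J) => b (φ p.1, ψ p.2))) :=
    Measure.isProbabilityMeasure_map hm.aemeasurable
  apply ext_avoid
  intro A
  rw [Measure.map_apply hm (measurableSet_avoid A), markLaw_avoid K lam hB A]
  set A' : Finset (V × J) := A.image (fun p => (φ p.1, ψ p.2)) with hA'
  have h1 : (fun (b : V × J → Bool) (p : V × J) => b (φ p.1, ψ p.2)) ⁻¹' {b | ∀ i ∈ A, b i = false} =
      {b | ∀ i ∈ A', b i = false} := by
    ext b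
    simp only [mem_preimage, mem_ofPred_eq, hA', Finset.mem_image]
    constructor
    · rintro h _ ⟨p, hp, rfl⟩; exact h p hp
    · intro h p hp; exact h _ ⟨p, hp, rfl⟩
  rw [h1, markLaw_avoid K lam hB A', ← Equiv.tsum_eq φ]
  congr 2
  apply tsum_congr
  intro x
  rw [PL_equiv K φ hφ x (measurableSet_secA hB A' (φ x))]
  congr 1
  ext γ
  simp only [secA, mem_iUnion, mem_ofPred_eq, hA', Finset.mem_image]
  constructor
  · rintro ⟨_, ⟨p, hp, rfl⟩, h1, h2⟩
    exact ⟨p, hp, φ.injective h1, (hBφ _ _ _).1 h2⟩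
  · rintro ⟨p, hp, h1, h2⟩
    exact ⟨_, ⟨p, hp, rfl⟩, by rw [h1], (hBφ _ _ _).2 h2⟩

end Pool.Agent.W5h98.Frog
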