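import Pool.Agent.W5h98.Frog.Perc

/-!
Counting bridges of undirected percolation on a finite set.
-/

set_option autoImplicit false
set_option linter.unusedSectionVars false

namespace Pool.Agent.W5h98.Frog
open MeasureTheory ProbabilityTheory Set Filter Relation
open Pool.Agent.W5h98.Pol (Dep)
open scoped ENNReal NNReal

variable {V : Type*}

/-- The graph on `A` given by a relation. -/
def gr (A : Finset V) (R : V → V → Prop) : SimpleGraph A where
  Adj u v := u ≠ v ∧ (R u v ∨ R v u)
  symm := ⟨fun _ _ h => ⟨h.1.symm, h.2.symm⟩⟩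
  loopless := ⟨fun _ h => h.1 rfl⟩

theorem gr_mono {A : Finset V} {R R' : V → V → Prop} (h : ∀ u v, R u v → R' u v) : gr A R ≤ gr A R' := by
  intro u v huv
  exact ⟨huv.1, huv.2.imp (h _ _) (h _ _)⟩

theorem conn_iff_reach {A : Finset V} {R : V → V → Prop} (hR : ∀ u v, R u v → R v u) {x y : V}
    (hx : x ∈ A) (hy : y ∈ A) : conn A R x y ↔ (gr A R).Reachable ⟨x, hx⟩ ⟨y, hy⟩ := by
  constructor
  · intro h
    have key : ∀ y, conn A R x y → ∀ hy : y ∈ A, (gr A R).Reachable ⟨x, hx⟩ ⟨y, hy⟩ := by
      intro y h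
      induction h with
      | refl => intro _; exact SimpleGraph.Reachable.refl _
      | @tail b c hb hc ih =>
        intro hy
        have hbA : b ∈ A := by
          rcases ReflTransGen.cases_tail hb with h1 | ⟨d, _, h1⟩
          · rw [h1]; exact hx
          · exact h1.1
        by_cases hbc : b = c
        · subst hbc; exact ih hbA
        · refine (ih hbA).trans (SimpleGraph.Adj.reachable ?_)
          exact ⟨fun h => hbc (congrArg Subtype.val h), Or.inl hc.2⟩
    exact key y h hy
  · intro h
    rw [SimpleGraph.reachable_iff_reflTransGen] at h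
    have key : ∀ z : A, ReflTransGen (gr A R).Adj ⟨x, hx⟩ z → conn A R x z := by
      intro z hz
      induction hz with
      | refl => exact ReflTransGen.refl
      | @tail b c hb hc ih =>
        refine ih.tail ⟨c.2, ?_⟩
        rcases hc.2 with h | h
        · exact h
        · exact hR _ _ h
    exact key _ h

theorem card_cc_lt {W : Type*} [Finite W] {G H : SimpleGraph W} (h : G ≤ H) {x y : W} (hxy : H.Adj x y)
    (hn : ¬ G.Reachable x y) : Nat.card H.ConnectedComponent + 1 ≤ Nat.card G.ConnectedComponent := by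
  classical
  have := Fintype.ofFinite G.ConnectedComponent
  have := Fintype.ofFinite H.ConnectedComponent
  rw [Nat.card_eq_fintype_card, Nat.card_eq_fintype_card]
  apply Nat.succ_le_of_lt
  set f : G.ConnectedComponent → H.ConnectedComponent :=
    SimpleGraph.ConnectedComponent.map (SimpleGraph.Hom.ofLE h) with hf
  apply Fintype.card_lt_of_surjective_not_injective f
  · intro c
    induction c using SimpleGraph.ConnectedComponent.ind with
    | _ v => exact ⟨G.connectedComponentMk v, rfl⟩
  · intro hinj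
    apply hn
    rw [← SimpleGraph.ConnectedComponent.eq]
    apply hinj
    show H.connectedComponentMk x = H.connectedComponentMk y
    rw [SimpleGraph.ConnectedComponent.eq]
    exact hxy.reachable

/-- The orientation given by an enumeration. -/
def mm (e : V → ℕ) (p : V × V) : V × V := if e p.1 ≤ e p.2 then p else p.swap

theorem sec_mm (e : V → ℕ) : Sec (mm e) := by
  intro p
  unfold mm
  split_ifs
  · exact Or.inl rfl
  · exact Or.inr rfl

theorem sec_id : Sec (id : V × V → V × V) := fun _ => Or.inl rfl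

theorem mm_swap {e : V → ℕ} (he : Function.Injective e) (u v : V) : mm e (u, v) = mm e (v, u) := by
  unfold mm
  by_cases h : e u = e v
  · rw [he h]
  · rcases lt_or_gt_of_ne h with h1 | h1
    · rw [if_pos h1.le, if_neg (not_le.2 h1)]; rfl
    · rw [if_neg (not_le.2 h1), if_pos h1.le]; rfl

theorem mm_of_lt {e : V → ℕ} {u v : V} (h : e u < e v) : mm e (u, v) = (u, v) := by
  unfold mm; rw [if_pos h.le]

theorem prel_mm_symm {L : V → V → Prop} (hL : ∀ u v, L u v → L v u) {e : V → ℕ}
    (he : Function.Injective e) (b : V × V → Bool) (u v : V) (h : prel L (mm e) b u v) :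
    prel L (mm e) b v u := by
  rcases h with h | h
  · exact Or.inl (hL _ _ h)
  · right; rw [mm_swap he]; exact h

open Classical in
/-- The bridges of `b`. -/
noncomputable def brs (L : V → V → Prop) (e : V → ℕ) (A : Finset V) (b : V × V → Bool) : Finset (V × V) :=
  (A ×ˢ A).filter (fun p => e p.1 < e p.2 ∧ b p = true ∧
    p.2 ∉ clu A (prel L (mm e) (Function.update b p false)) p.1)

/-- The local graph with added edges. -/
def addE (L : V → V → Prop) (T : Finset (V × V)) (u v : V) : Prop := L u v ∨ (u, v) ∈ T ∨ (v, u) ∈ T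

theorem brs_card {L : V → V → Prop} (hL : ∀ u v, L u v → L v u) {e : V → ℕ} (he : Function.Injective e)
    (A : Finset V) (b : V × V → Bool) (T : Finset (V × V)) (hT : T ⊆ brs L e A b) :
    T.card + Nat.card (gr A (addE L T)).ConnectedComponent ≤ Nat.card (gr A L).ConnectedComponent := by
  classical
  induction T using Finset.induction_on with
  | empty =>
    have : addE L (∅ : Finset (V × V)) = L := by
      funext u v; simp [addE]
    rw [this, Finset.card_empty, zero_add]
  | insert p T hp ih =>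
    have hT' : T ⊆ brs L e A b := fun q hq => hT (Finset.mem_insert_of_mem hq)
    have hpb := hT (Finset.mem_insert_self p T)
    rw [brs, Finset.mem_filter, Finset.mem_product] at hpb
    obtain ⟨⟨hp1, hp2⟩, hlt, hbp, hnc⟩ := hpb
    rw [Finset.card_insert_of_notMem hp]
    have h1 : Nat.card (gr A (addE L (insert p T))).ConnectedComponent + 1 ≤
        Nat.card (gr A (addE L T)).ConnectedComponent := by
      refine card_cc_lt (x := ⟨p.1, hp1⟩) (y := ⟨p.2, hp2⟩) ?_ ?_ ?_
      · apply gr_mono
        rintro u v (h | h | h)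
        · exact Or.inl h
        · exact Or.inr (Or.inl (Finset.mem_insert_of_mem h))
        · exact Or.inr (Or.inr (Finset.mem_insert_of_mem h))
      · refine ⟨?_, Or.inl (Or.inr (Or.inl (Finset.mem_insert_self p T)))⟩
        intro h
        rw [Subtype.mk.injEq] at h
        rw [h] at hlt
        exact lt_irrefl _ hlt
      · intro hr
        apply hnc
        rw [mem_clu]
        refine ⟨hp2, ?_⟩
        rw [conn_iff_reach (prel_mm_symm hL he _) hp1 hp2]
        refine SimpleGraph.Reachable.mono ?_ hr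
        intro u v huv
        refine ⟨huv.1, ?_⟩
        have key : ∀ u v : V, addE L T u v → prel L (mm e) (Function.update b p false) u v := by
          have hk : ∀ u v : V, (u, v) ∈ T → prel L (mm e) (Function.update b p false) u v := by
            intro u v huv
            right
            have h2 := hT' huv
            rw [brs, Finset.mem_filter] at h2
            rw [mm_of_lt h2.2.1, Function.update_of_ne]
            · exact h2.2.2.1
            · intro h3; exact hp (h3 ▸ huv)
          rintro u v (h | h | h)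
          · exact Or.inl h
          · exact hk u v h
          · exact prel_mm_symm hL he _ _ _ (hk v u h)
        exact huv.2.imp (key _ _) (key _ _)
    have h2 := ih hT'
    omega

variable {L : V → V → Prop} {κ : V × V → ℝ≥0∞}

theorem clu_mono {A : Finset V} {R R' : V → V → Prop} (h : ∀ u v, R u v → R' u v) (x : V) :
    clu A R x ⊆ clu A R' x := by
  intro y hy
  rw [mem_clu] at hy ⊢
  exact ⟨hy.1, conn_mono (Finset.Subset.refl _) h hy.2⟩

theorem clu_of_rel {A : Finset V} {R : V → V → Prop} {x y : V} (hy : y ∈ A) (h : R x y) : y ∈ clu A R x :=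
  mem_clu.2 ⟨hy, ReflTransGen.single ⟨hy, h⟩⟩

open Classical in
theorem dep_mem_clu (L : V → V → Prop) {s : V × V → V × V} (hs : Sec s) (A : Finset V) {x : V} (hx : x ∈ A)
    (y : V) : Dep ((A ×ˢ A : Finset (V × V)) : Set (V × V)) {b | y ∈ clu A (prel L s b) x} := by
  intro b b' h hb
  rw [mem_ofPred_eq] at hb ⊢
  have := dep_clu L hs A (clu A (prel L s b) x) hx b b' h rfl
  rw [mem_ofPred_eq] at this
  rw [this]; exact hb

theorem bit_true (κ : V × V → ℝ≥0∞) (p : V × V) : (bitLaw κ) {b | b p = true} = 1 - ex (κ p) := by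
  have h1 : {b : V × V → Bool | b p = true} = Set.pi (({p} : Finset (V × V)) : Set (V × V)) (fun _ => {true}) := by
    ext b; simp [Set.mem_pi]
  rw [h1, bitLaw, Measure.infinitePi_pi _ (fun _ _ => measurableSet_singleton _), Finset.prod_singleton,
    ber_true]

open Classical in
/-- The probability of a bridge. -/
theorem bridge_prob (L : V → V → Prop) (e : V → ℕ) (A : Finset V) (p : V × V) (hp1 : p.1 ∈ A) (hp2 : p.2 ∈ A)
    (hlt : e p.1 < e p.2) :
    (1 - ex (κ p)) * (1 - (bitLaw κ) {b | p.2 ∈ clu A (prel L (mm e) b) p.1}) ≤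
      (bitLaw κ) {b | p ∈ brs L e A b} := by
  have h1 : {b : V × V → Bool | p ∈ brs L e A b} = {b | b p = true} ∩
      {b | p.2 ∉ clu A (prel L (mm e) (Function.update b p false)) p.1} := by
    ext b
    simp only [brs, mem_ofPred_eq, Finset.mem_filter, Finset.mem_product, mem_inter_iff]
    constructor
    · rintro ⟨_, _, h1, h2⟩; exact ⟨h1, h2⟩
    · rintro ⟨h1, h2⟩; exact ⟨⟨hp1, hp2⟩, hlt, h1, h2⟩
  rw [h1]
  have d1 : Dep (({p} : Finset (V × V)) : Set (V × V)) {b : V × V → Bool | b p = true} := by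
    intro b b' h hb
    rw [mem_ofPred_eq] at hb ⊢
    rw [← h p (by simp)]; exact hb
  have d2 : Dep (((A ×ˢ A) \ {p} : Finset (V × V)) : Set (V × V))
      {b : V × V → Bool | p.2 ∉ clu A (prel L (mm e) (Function.update b p false)) p.1} := by
    intro b b' h hb
    rw [mem_ofPred_eq] at hb ⊢
    intro hb'
    apply hb
    refine dep_mem_clu L (sec_mm e) A hp1 p.2 _ _ ?_ hb'
    intro q hq
    by_cases hqp : q = p
    · rw [hqp, Function.update_self, Function.update_self]
    · rw [Function.update_of_ne hqp, Function.update_of_ne hqp]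
      exact (h q (by rw [Finset.mem_coe, Finset.mem_sdiff, Finset.mem_singleton]; exact ⟨hq, hqp⟩)).symm
  have hind : (bitLaw κ) ({b : V × V → Bool | b p = true} ∩
      {b | p.2 ∉ clu A (prel L (mm e) (Function.update b p false)) p.1}) =
      (bitLaw κ) {b : V × V → Bool | b p = true} *
      (bitLaw κ) {b | p.2 ∉ clu A (prel L (mm e) (Function.update b p false)) p.1} := by
    apply Dep.indep _ d1 d2
    rw [Finset.disjoint_left]
    intro q hq hq2
    rw [Finset.mem_sdiff] at hq2
    exact hq2.2 hq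
  rw [hind, bit_true]
  gcongr
  rw [← prob_compl_eq_one_sub (dep_mem_clu L (sec_mm e) A hp1 p.2).meas]
  apply measure_mono
  intro b hb
  rw [mem_compl_iff, mem_ofPred_eq] at hb
  rw [mem_ofPred_eq]
  intro h
  apply hb
  refine clu_mono ?_ p.1 h
  rintro u v (h | h)
  · exact Or.inl h
  · right
    by_cases hq : mm e (u, v) = p
    · rw [hq, Function.update_self] at h; exact absurd h (by simp)
    · rwa [Function.update_of_ne hq] at h

open Classical in
/-- The expected number of bridges. -/
theorem sum_bridge (hL : ∀ u v, L u v → L v u) {e : V → ℕ} (he : Function.Injective e)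
    (A : Finset V) :
    ∑ p ∈ (A ×ˢ A).filter (fun p => e p.1 < e p.2),
      (1 - ex (κ p)) * (1 - (bitLaw κ) {b | p.2 ∈ clu A (prel L (mm e) b) p.1}) ≤
      (Nat.card (gr A L).ConnectedComponent : ℝ≥0∞) := by
  have hm : ∀ p ∈ (A ×ˢ A).filter (fun p => e p.1 < e p.2), MeasurableSet {b : V × V → Bool | p ∈ brs L e A b} := by
    intro p hp
    rw [Finset.mem_filter, Finset.mem_product] at hp
    have : Dep ((A ×ˢ A : Finset (V × V)) : Set (V × V)) {b : V × V → Bool | p ∈ brs L e A b} := by
      intro b b' h hb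
      simp only [brs, mem_ofPred_eq, Finset.mem_filter, Finset.mem_product] at hb ⊢
      refine ⟨hb.1, hb.2.1, ?_, ?_⟩
      · rw [← h p (by rw [Finset.mem_coe, Finset.mem_product]; exact hp.1)]; exact hb.2.2.1
      · intro hb'
        apply hb.2.2.2
        refine dep_mem_clu L (sec_mm e) A hp.1.1 p.2 _ _ ?_ hb'
        intro q hq
        by_cases hqp : q = p
        · rw [hqp, Function.update_self, Function.update_self]
        · rw [Function.update_of_ne hqp, Function.update_of_ne hqp]
          exact (h q hq).symm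
    exact this.meas
  calc _ ≤ ∑ p ∈ (A ×ˢ A).filter (fun p => e p.1 < e p.2), (bitLaw κ) {b | p ∈ brs L e A b} := by
        apply Finset.sum_le_sum
        intro p hp
        rw [Finset.mem_filter, Finset.mem_product] at hp
        exact bridge_prob L e A p hp.1.1 hp.1.2 hp.2
    _ = ∑ p ∈ (A ×ˢ A).filter (fun p => e p.1 < e p.2),
        ∫⁻ b, ({b : V × V → Bool | p ∈ brs L e A b}).indicator 1 b ∂(bitLaw κ) := by
        apply Finset.sum_congr rfl
        intro p hp
        rw [lintegral_indicator_one (hm p hp)]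
    _ = ∫⁻ b, ∑ p ∈ (A ×ˢ A).filter (fun p => e p.1 < e p.2),
        ({b : V × V → Bool | p ∈ brs L e A b}).indicator 1 b ∂(bitLaw κ) := by
        rw [lintegral_finsetSum']
        intro p hp
        exact (measurable_one.indicator (hm p hp)).aemeasurable
    _ ≤ ∫⁻ _, (Nat.card (gr A L).ConnectedComponent : ℝ≥0∞) ∂(bitLaw κ) := by
        apply lintegral_mono
        intro b
        have h1 : ∑ p ∈ (A ×ˢ A).filter (fun p => e p.1 < e p.2),
            ({b : V × V → Bool | p ∈ brs L e A b}).indicator (1 : (V × V → Bool) → ℝ≥0∞) b =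
            ((brs L e A b).card : ℝ≥0∞) := by
          have : ∀ p, ({b : V × V → Bool | p ∈ brs L e A b}).indicator (1 : (V × V → Bool) → ℝ≥0∞) b =
              if p ∈ brs L e A b then 1 else 0 := by
            intro p
            rw [Set.indicator_apply]
            rfl
          simp_rw [this]
          rw [Finset.sum_ite_mem, Finset.sum_const, nsmul_one]
          congr 2
          apply Finset.inter_eq_right.2
          intro p hp
          rw [brs, Finset.mem_filter] at hp
          rw [Finset.mem_filter]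
          exact ⟨hp.1, hp.2.1⟩
        simp only at h1 ⊢
        rw [h1]
        have := brs_card hL he A b (brs L e A b) (Finset.Subset.refl _)
        exact_mod_cast (Nat.le_add_right _ _).trans this
    _ = _ := by simp


theorem exp_neg_le {k : ℝ} (hk : 0 ≤ k) : Real.exp (-k) ≤ 1 - k + k ^ 2 / 2 := by
  have h1 := Real.quadratic_le_exp_of_nonneg hk
  have h2 : Real.exp (-k) * Real.exp k = 1 := by rw [← Real.exp_add]; simp
  have h3 : 0 < Real.exp (-k) := Real.exp_pos _
  have h4 : Real.exp (-k) * (1 + k + k ^ 2 / 2) ≤ 1 :=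
    (mul_le_mul_of_nonneg_left h1 h3.le).trans h2.le
  have h5 : 1 ≤ (1 - k + k ^ 2 / 2) * (1 + k + k ^ 2 / 2) := by nlinarith [sq_nonneg (k ^ 2)]
  have h6 : 0 < 1 + k + k ^ 2 / 2 := by positivity
  by_contra h
  push Not at h
  have h7 : (1 - k + k ^ 2 / 2) * (1 + k + k ^ 2 / 2) < Real.exp (-k) * (1 + k + k ^ 2 / 2) :=
    mul_lt_mul_of_pos_right h h6
  linarith

theorem pt_real {k t : ℝ} (hk0 : 0 ≤ k) (hk1 : k ≤ 1) (ht : 1 - Real.exp (-k) ≤ t) (ht1 : t ≤ 1) :
    k ≤ (1 - Real.exp (-k)) * (1 - t) + 2 * (k * t) := by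
  have h1 := exp_neg_le hk0
  have h2 : k - k ^ 2 / 2 ≤ 1 - Real.exp (-k) := by linarith
  have h3 : (k - k ^ 2 / 2) * (1 - t) ≤ (1 - Real.exp (-k)) * (1 - t) :=
    mul_le_mul_of_nonneg_right h2 (by linarith)
  have h4 : k / 2 ≤ t := by nlinarith
  have h5 : 0 ≤ k * (t * (1 + k / 2) - k / 2) := by
    apply mul_nonneg hk0
    nlinarith
  nlinarith

theorem pt_ennreal {k t : ℝ≥0∞} (hk1 : k ≤ 1) (ht : 1 - ex k ≤ t) (ht1 : t ≤ 1) :
    k ≤ (1 - ex k) * (1 - t) + 2 * (k * t) := by
  have hk : k ≠ ∞ := ne_top_of_le_ne_top ENNReal.one_ne_top hk1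
  have ht' : t ≠ ∞ := ne_top_of_le_ne_top ENNReal.one_ne_top ht1
  have e1 : ENNReal.ofReal k.toReal = k := ENNReal.ofReal_toReal hk
  have e2 : ENNReal.ofReal t.toReal = t := ENNReal.ofReal_toReal ht'
  have k0 : 0 ≤ k.toReal := ENNReal.toReal_nonneg
  have t0 : 0 ≤ t.toReal := ENNReal.toReal_nonneg
  have k1 : k.toReal ≤ 1 := by
    have := (ENNReal.toReal_le_toReal hk ENNReal.one_ne_top).2 hk1
    simpa using this
  have t1 : t.toReal ≤ 1 := by
    have := (ENNReal.toReal_le_toReal ht' ENNReal.one_ne_top).2 ht1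
    simpa using this
  have e3 : 1 - ex k = ENNReal.ofReal (1 - Real.exp (-k.toReal)) := by
    unfold ex
    rw [ENNReal.ofReal_sub _ (Real.exp_nonneg _), ENNReal.ofReal_one]
  have e4 : 1 - t = ENNReal.ofReal (1 - t.toReal) := by
    rw [ENNReal.ofReal_sub _ t0, ENNReal.ofReal_one, e2]
  have hexp : 0 ≤ 1 - Real.exp (-k.toReal) := by
    have : Real.exp (-k.toReal) ≤ 1 := Real.exp_le_one_iff.2 (by linarith)
    linarith
  have ht2 : 1 - Real.exp (-k.toReal) ≤ t.toReal := by
    rw [e3, ← e2] at ht
    exact (ENNReal.ofReal_le_ofReal_iff t0).1 ht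
  have key := pt_real k0 k1 ht2 t1
  rw [e3, e4, ← ENNReal.ofReal_mul hexp]
  conv_lhs => rw [← e1]
  have e5 : 2 * (k * t) = ENNReal.ofReal (2 * (k.toReal * t.toReal)) := by
    rw [ENNReal.ofReal_mul (by norm_num), ENNReal.ofReal_mul k0, e1, e2]
    simp
  rw [e5, ← ENNReal.ofReal_add]
  · exact ENNReal.ofReal_le_ofReal key
  · apply mul_nonneg hexp; linarith
  · positivity

open Classical in
/-- The bridge inequality, for the directed model. -/
theorem bridge_ineq (hL : ∀ u v, L u v → L v u) {e : V → ℕ} (he : Function.Injective e)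
    (A : Finset V) (hκ : ∀ x ∈ A, ∀ y ∈ A, κ (x, y) = κ (y, x)) (hκ1 : ∀ x ∈ A, ∀ y ∈ A, κ (x, y) ≤ 1) :
    ∑ x ∈ A, ∑ y ∈ A, κ (x, y) ≤ 2 * (Nat.card (gr A L).ConnectedComponent : ℝ≥0∞) +
      2 * ∑ x ∈ A, ∑ y ∈ A, κ (x, y) * (bitLaw κ) {b | y ∈ clu A (prel L id b) x} := by
  set θ : V × V → ℝ≥0∞ := fun p => (bitLaw κ) {b | p.2 ∈ clu A (prel L (mm e) b) p.1} with hθ
  set f : V × V → ℝ≥0∞ := fun p => (1 - ex (κ p)) * (1 - θ p) with hf
  have hθsymm : ∀ x ∈ A, ∀ y ∈ A, θ (x, y) = θ (y, x) := by
    intro x hx y hy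
    simp only [hθ]
    congr 1
    ext b
    simp only [mem_ofPred_eq, mem_clu]
    rw [conn_iff_reach (prel_mm_symm hL he b) hx hy, conn_iff_reach (prel_mm_symm hL he b) hy hx]
    constructor
    · rintro ⟨_, h⟩; exact ⟨hx, h.symm⟩
    · rintro ⟨_, h⟩; exact ⟨hy, h.symm⟩
  have hfsymm : ∀ x ∈ A, ∀ y ∈ A, f (x, y) = f (y, x) := by
    intro x hx y hy
    simp only [hf]
    rw [hκ x hx y hy, hθsymm x hx y hy]
  have hfdiag : ∀ x ∈ A, f (x, x) = 0 := by
    intro x hx
    have : θ (x, x) = 1 := by
      simp only [hθ]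
      have : {b : V × V → Bool | x ∈ clu A (prel L (mm e) b) x} = univ := by
        apply Set.eq_univ_of_forall
        intro b
        exact self_mem_clu _ hx
      rw [this, measure_univ]
    simp only [hf, this, tsub_self, mul_zero]
  have hsumf : ∑ p ∈ A ×ˢ A, f p ≤ 2 * (Nat.card (gr A L).ConnectedComponent : ℝ≥0∞) := by
    have h1 := sum_bridge (L := L) (κ := κ) hL he A
    have h2 : ∑ p ∈ (A ×ˢ A).filter (fun p => ¬ e p.1 < e p.2), f p =
        ∑ p ∈ (A ×ˢ A).filter (fun p => e p.1 < e p.2), f p := by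
      have h3 : ∑ p ∈ (A ×ˢ A).filter (fun p => ¬ e p.1 < e p.2), f p =
          ∑ p ∈ (A ×ˢ A).filter (fun p => e p.2 < e p.1), f p := by
        symm
        apply Finset.sum_subset
        · intro p hp
          rw [Finset.mem_filter] at hp ⊢
          exact ⟨hp.1, by omega⟩
        · intro p hp hp2
          rw [Finset.mem_filter] at hp hp2
          have : e p.1 = e p.2 := by
            by_contra hne
            exact hp2 ⟨hp.1, by omega⟩
          have h4 := he this
          have : p = (p.1, p.1) := Prod.ext rfl h4.symm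
          rw [this]
          exact hfdiag _ (Finset.mem_product.1 hp.1).1
      rw [h3]
      refine Finset.sum_nbij' Prod.swap Prod.swap ?_ ?_ (fun _ _ => Prod.swap_swap _)
        (fun _ _ => Prod.swap_swap _) ?_
      · intro p hp
        rw [Finset.mem_filter, Finset.mem_product] at hp ⊢
        exact ⟨⟨hp.1.2, hp.1.1⟩, hp.2⟩
      · intro p hp
        rw [Finset.mem_filter, Finset.mem_product] at hp ⊢
        exact ⟨⟨hp.1.2, hp.1.1⟩, hp.2⟩
      · intro p hp
        rw [Finset.mem_filter, Finset.mem_product] at hp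
        exact hfsymm p.1 hp.1.1 p.2 hp.1.2
    rw [← Finset.sum_filter_add_sum_filter_not (A ×ˢ A) (fun p => e p.1 < e p.2) f, h2, two_mul]
    exact add_le_add h1 h1
  have hpt : ∀ x ∈ A, ∀ y ∈ A, κ (x, y) ≤ f (x, y) +
      2 * (κ (x, y) * (bitLaw κ) {b | y ∈ clu A (prel L id b) x}) := by
    intro x hx y hy
    have hU : (bitLaw κ) {b | y ∈ clu A (prel L id b) x} = θ (x, y) :=
      clu_law' L sec_id (sec_mm e) hκ hx y
    rw [hU]
    have hge : 1 - ex (κ (x, y)) ≤ θ (x, y) := by
      rw [← hU, ← bit_true κ (x, y)]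
      apply measure_mono
      intro b hb
      exact clu_of_rel hy (Or.inr hb)
    exact pt_ennreal (hκ1 x hx y hy) hge prob_le_one
  calc ∑ x ∈ A, ∑ y ∈ A, κ (x, y) ≤ ∑ x ∈ A, ∑ y ∈ A, (f (x, y) +
      2 * (κ (x, y) * (bitLaw κ) {b | y ∈ clu A (prel L id b) x})) :=
        Finset.sum_le_sum fun x hx => Finset.sum_le_sum fun y hy => hpt x hx y hy
    _ = ∑ p ∈ A ×ˢ A, f p + 2 * ∑ x ∈ A, ∑ y ∈ A, κ (x, y) * (bitLaw κ) {b | y ∈ clu A (prel L id b) x} := by
        simp_rw [Finset.sum_add_distrib, ← Finset.mul_sum]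
        rw [Finset.sum_product]
    _ ≤ _ := by gcongr

end Pool.Agent.W5h98.Frog
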