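import Pool.Agent.W5h98.Frog.Graph

/-!
The random set `W`: vertices in large components of vertices whose first steps go everywhere.
-/

set_option autoImplicit false
set_option linter.unusedSectionVars false

namespace Pool.Agent.W5h98.Frog
open MeasureTheory ProbabilityTheory Set Filter Relation
open scoped ENNReal NNReal

variable {V : Type*}

/-- Reachable in exactly `n` steps. -/
def stepn (R : V → V → Prop) (x : V) : ℕ → V → Prop
  | 0, y => x = y
  | n + 1, y => ∃ z, stepn R x n z ∧ R z y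

theorem rtg_iff (R : V → V → Prop) (x y : V) : ReflTransGen R x y ↔ ∃ n, stepn R x n y := by
  constructor
  · intro h
    induction h with
    | refl => exact ⟨0, rfl⟩
    | @tail b c _ hc ih =>
      obtain ⟨n, hn⟩ := ih
      exact ⟨n + 1, b, hn, hc⟩
  · rintro ⟨n, hn⟩
    induction n generalizing y with
    | zero => rw [show x = y from hn]
    | succ n ih =>
      obtain ⟨z, hz, hzy⟩ := hn
      exact (ih z hz).tail hzy

theorem measurableSet_rtg [Countable V] {Ω : Type*} [MeasurableSpace Ω] (R : Ω → V → V → Prop)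
    (hR : ∀ u v, MeasurableSet {ω | R ω u v}) (x y : V) : MeasurableSet {ω | ReflTransGen (R ω) x y} := by
  have h1 : {ω | ReflTransGen (R ω) x y} = ⋃ n, {ω | stepn (R ω) x n y} := by
    ext ω
    rw [mem_ofPred_eq, rtg_iff, mem_iUnion]
    rfl
  rw [h1]
  apply MeasurableSet.iUnion
  intro n
  clear h1
  induction n generalizing y with
  | zero => exact MeasurableSet.const _
  | succ n ih =>
    have : {ω | stepn (R ω) x (n + 1) y} = ⋃ z, {ω | stepn (R ω) x n z} ∩ {ω | R ω z y} := by
      ext ω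
      simp only [mem_iUnion, mem_inter_iff, mem_ofPred_eq]
      rfl
    rw [this]
    exact MeasurableSet.iUnion fun z => (ih z).inter (hR z y)

theorem rtg_equiv (φ : V ≃ V) {R R' : V → V → Prop} (h : ∀ u v, R' u v ↔ R (φ u) (φ v)) (x y : V) :
    ReflTransGen R' x y ↔ ReflTransGen R (φ x) (φ y) := by
  constructor
  · intro hxy
    exact ReflTransGen.lift φ (fun a b hab => (h a b).1 hab) _ _ hxy
  · intro hxy
    have h2 : ReflTransGen R' (φ.symm (φ x)) (φ.symm (φ y)) :=
      ReflTransGen.lift (p := R') φ.symm (fun a b hab => (h _ _).2 (by simpa using hab)) _ _ hxy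
    rwa [Equiv.symm_apply_apply, Equiv.symm_apply_apply] at h2

variable (G : SimpleGraph V)

/-- The vertices all of whose arrows to neighbours are open. -/
def Oset (a : V × V → Bool) : Set V := {x | ∀ z, G.Adj x z → a (x, z) = true}

/-- The relation inside `Oset`. -/
def Orel (a : V × V → Bool) (u v : V) : Prop := (u ∈ Oset G a ∧ v ∈ Oset G a) ∧ G.Adj u v

/-- The vertices in large components. -/
def Wset (w : ℕ) (a : V × V → Bool) : Set V :=
  {x | x ∈ Oset G a ∧ ∃ S : Finset V, w ≤ S.card ∧ ∀ y ∈ S, ReflTransGen (Orel G a) x y}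

theorem Orel_symm {a : V × V → Bool} {u v : V} (h : Orel G a u v) : Orel G a v u :=
  ⟨⟨h.1.2, h.1.1⟩, h.2.symm⟩

theorem Wset_step {w : ℕ} {a : V × V → Bool} {u v : V} (hu : u ∈ Wset G w a) (h : Orel G a u v) :
    v ∈ Wset G w a := by
  obtain ⟨h1, S, hS, hS2⟩ := hu
  exact ⟨h.1.2, S, hS, fun y hy => (ReflTransGen.single (Orel_symm G h)).trans (hS2 y hy)⟩

theorem Wset_comp {w : ℕ} {a : V × V → Bool} (x : V) (hx : x ∈ Wset G w a) :
    ∃ S : Finset V, w ≤ S.card ∧ ∀ y ∈ S, ReflTransGen (fun u v => v ∈ Wset G w a ∧ G.Adj u v) x y := by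
  obtain ⟨h1, S, hS, hS2⟩ := hx
  refine ⟨S, hS, fun y hy => ?_⟩
  have key : ∀ y, ReflTransGen (Orel G a) x y → y ∈ Wset G w a ∧
      ReflTransGen (fun u v => v ∈ Wset G w a ∧ G.Adj u v) x y := by
    intro y hy
    induction hy with
    | refl => exact ⟨⟨h1, S, hS, hS2⟩, ReflTransGen.refl⟩
    | @tail b c _ hc ih =>
      have := Wset_step G ih.1 hc
      exact ⟨this, ih.2.tail ⟨this, hc.2⟩⟩
  exact (key y (hS2 y hy)).2

theorem Wset_sub (w : ℕ) (a : V × V → Bool) : Wset G w a ⊆ Oset G a := fun _ h => h.1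

theorem measurableSet_Oset [Countable V] (x : V) : MeasurableSet {a : V × V → Bool | x ∈ Oset G a} := by
  have : {a : V × V → Bool | x ∈ Oset G a} = ⋂ z, ⋂ _ : G.Adj x z, (fun a : V × V → Bool => a (x, z)) ⁻¹' {true} := by
    ext a; simp [Oset]
  rw [this]
  exact MeasurableSet.iInter fun z => MeasurableSet.iInter fun _ =>
    (measurable_pi_apply _) (measurableSet_singleton true)

theorem measurableSet_Wset [Countable V] (w : ℕ) (x : V) : MeasurableSet {a : V × V → Bool | x ∈ Wset G w a} := by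
  have : {a : V × V → Bool | x ∈ Wset G w a} = {a | x ∈ Oset G a} ∩
      ⋃ S : Finset V, ⋃ _ : w ≤ S.card, ⋂ y ∈ S, {a | ReflTransGen (Orel G a) x y} := by
    ext a; simp [Wset]
  rw [this]
  refine (measurableSet_Oset G x).inter (MeasurableSet.iUnion fun S => MeasurableSet.iUnion fun _ =>
    Finset.measurableSet_biInter S fun y _ => measurableSet_rtg _ (fun u v => ?_) x y)
  have : {a : V × V → Bool | Orel G a u v} = ({a | u ∈ Oset G a} ∩ {a | v ∈ Oset G a}) ∩ {_a | G.Adj u v} := by
    ext a; simp [Orel]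
  rw [this]
  exact ((measurableSet_Oset G u).inter (measurableSet_Oset G v)).inter (MeasurableSet.const _)

/-- Translation of bits. -/
def tr (φ : V → V) (a : V × V → Bool) : V × V → Bool := fun p => a (φ p.1, φ p.2)

theorem measurable_tr (φ : V → V) : Measurable (tr φ) :=
  measurable_pi_lambda _ fun _ => measurable_pi_apply _

theorem Oset_tr (φ : G ≃g G) (a : V × V → Bool) (x : V) : x ∈ Oset G (tr φ a) ↔ φ x ∈ Oset G a := by
  constructor
  · intro h z hz
    have h1 : G.Adj x (φ.symm z) := by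
      rw [← φ.map_adj_iff]; simpa using hz
    have := h (φ.symm z) h1
    simpa [tr] using this
  · intro h z hz
    exact h (φ z) (φ.map_adj_iff.2 hz)

theorem Orel_tr (φ : G ≃g G) (a : V × V → Bool) (u v : V) :
    Orel G (tr φ a) u v ↔ Orel G a (φ u) (φ v) := by
  unfold Orel
  rw [Oset_tr, Oset_tr]
  have : G.Adj (φ u) (φ v) ↔ G.Adj u v := φ.map_adj_iff
  rw [this]

theorem Wset_tr (φ : G ≃g G) (w : ℕ) (a : V × V → Bool) (x : V) :
    x ∈ Wset G w (tr φ a) ↔ φ x ∈ Wset G w a := by
  have hr : ∀ x y, ReflTransGen (Orel G (tr φ a)) x y ↔ ReflTransGen (Orel G a) (φ x) (φ y) :=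
    fun x y => rtg_equiv φ.toEquiv (fun u v => Orel_tr G φ a u v) x y
  constructor
  · rintro ⟨h1, S, hS, hS2⟩
    refine ⟨(Oset_tr G φ a x).1 h1, S.map φ.toEquiv.toEmbedding, by rwa [Finset.card_map], ?_⟩
    intro y hy
    obtain ⟨z, hz, rfl⟩ := Finset.mem_map.1 hy
    exact (hr x z).1 (hS2 z hz)
  · rintro ⟨h1, S, hS, hS2⟩
    refine ⟨(Oset_tr G φ a x).2 h1, S.map φ.symm.toEquiv.toEmbedding, by rwa [Finset.card_map], ?_⟩
    intro y hy
    obtain ⟨z, hz, rfl⟩ := Finset.mem_map.1 hy
    rw [hr]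
    have := hS2 z hz
    simpa using this

theorem cnt_tr (W W' : Set V) (φ : V → V) (h : ∀ x, x ∈ W' ↔ φ x ∈ W) (γ : ℕ → V) (m : ℕ) :
    cnt W' γ m = cnt W (fun t => φ (γ t)) m := by
  classical
  unfold cnt
  apply Finset.sum_congr rfl
  intro s _
  by_cases h1 : φ (γ s) ∈ W
  · rw [if_pos ((h _).2 h1), if_pos h1]
  · rw [if_neg (fun h2 => h1 ((h _).1 h2)), if_neg h1]

variable [MeasurableSpace V] [DiscreteMeasurableSpace V] [Countable V]

section bound
variable (K : V → Measure V) [∀ y, IsProbabilityMeasure (K y)]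
variable {Ω : Type*} [MeasurableSpace Ω] (P : Measure Ω) [IsProbabilityMeasure P] (W : Ω → Set V)

theorem measurableSet_joint (hW : ∀ x, MeasurableSet {ω | x ∈ W ω}) (s : ℕ) :
    MeasurableSet {p : Ω × (ℕ → V) | p.2 s ∈ W p.1} := by
  have : {p : Ω × (ℕ → V) | p.2 s ∈ W p.1} =
      ⋃ v : V, ((fun p : Ω × (ℕ → V) => p.2) ⁻¹' {γ | γ s = v}) ∩ ((fun p : Ω × (ℕ → V) => p.1) ⁻¹' {ω | v ∈ W ω}) := by
    ext p
    simp only [mem_ofPred_eq, mem_iUnion, mem_inter_iff, mem_preimage]
    constructor
    · intro h; exact ⟨_, rfl, h⟩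
    · rintro ⟨v, h1, h2⟩; rw [h1]; exact h2
  rw [this]
  exact MeasurableSet.iUnion fun v => (measurable_snd (measurableSet_coord_eq s v)).inter (measurable_fst (hW v))

theorem measurable_cnt_joint (hW : ∀ x, MeasurableSet {ω | x ∈ W ω}) (m : ℕ) :
    Measurable (fun p : Ω × (ℕ → V) => cnt (W p.1) p.2 m) := by
  classical
  unfold cnt
  apply Finset.measurable_sum
  intro s _
  exact Measurable.ite (measurableSet_joint W hW s) measurable_const measurable_const

/-- The event `x ∈ W` with few visits. -/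
def few (n m : ℕ) (U : Set V) : Set (ℕ → V) := {γ | γ 0 ∈ U ∧ cnt U γ m ≤ n}

theorem measurableSet_few (n m : ℕ) (U : Set V) : MeasurableSet (few n m U) :=
  (measurableSet_coord 0 U).inter (measurableSet_cnt U m (fun k => k ≤ n))

theorem measurableSet_few_joint (hW : ∀ x, MeasurableSet {ω | x ∈ W ω}) (n m : ℕ) :
    MeasurableSet {p : Ω × (ℕ → V) | p.2 ∈ few n m (W p.1)} := by
  have : {p : Ω × (ℕ → V) | p.2 ∈ few n m (W p.1)} = {p | p.2 0 ∈ W p.1} ∩ {p | cnt (W p.1) p.2 m ≤ n} := by
    ext p; rfl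
  rw [this]
  apply (measurableSet_joint W hW 0).inter
  have h1 : MeasurableSet {k : ℕ | k ≤ n} := MeasurableSet.of_discrete
  exact measurable_cnt_joint W hW m h1

theorem measurable_few (hW : ∀ x, MeasurableSet {ω | x ∈ W ω}) (n m : ℕ) (x : V) :
    Measurable (fun ω => PL K x (few n m (W ω))) := by
  have h := measurable_measure_prodMk_left (ν := PL K x) (measurableSet_few_joint W hW n m)
  exact h

open Classical in
theorem few_count (U : Set V) (n m : ℕ) (γ : ℕ → V) :
    ((Finset.range (m + 1)).filter (fun t => (fun s => γ (s + t)) ∈ few n m U)).card ≤ n := by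
  set T := (Finset.range (m + 1)).filter (fun t => (fun s => γ (s + t)) ∈ few n m U) with hT
  by_cases hne : T.Nonempty
  · set t0 := T.min' hne with ht0
    have ht0T : t0 ∈ T := T.min'_mem hne
    have h0 := (Finset.mem_filter.1 ht0T).2.2
    refine le_trans ?_ h0
    unfold cnt
    rw [Finset.sum_boole, Nat.cast_id]
    have hsub : T ⊆ ((Finset.range (m + 1)).filter (fun s => γ (s + t0) ∈ U)).image (fun s => s + t0) := by
      intro t ht
      have h1 := Finset.mem_filter.1 ht
      have h2 : t0 ≤ t := T.min'_le t ht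
      rw [Finset.mem_image]
      refine ⟨t - t0, ?_, by omega⟩
      rw [Finset.mem_filter, Finset.mem_range] at *
      refine ⟨by omega, ?_⟩
      have h3 : t - t0 + t0 = t := by omega
      rw [h3]
      have := h1.2.1
      simpa using this
    exact (Finset.card_le_card hsub).trans Finset.card_image_le
  · rw [Finset.not_nonempty_iff_eq_empty] at hne
    rw [hne]; simp

/-- The stationarity bound. -/
theorem env_bound (hW : ∀ x, MeasurableSet {ω | x ∈ W ω}) (n m : ℕ) (u : ℝ≥0∞)
    (hu : ∀ x, ∫⁻ ω, PL K x (few n m (W ω)) ∂P = u) (o : V) : (m + 1 : ℕ) * u ≤ n := by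
  classical
  have h1 : ∀ t : ℕ, ∫⁻ ω, PL K o {γ | (fun s => γ (s + t)) ∈ few n m (W ω)} ∂P = u := by
    intro t
    have : ∀ ω, PL K o {γ | (fun s => γ (s + t)) ∈ few n m (W ω)} =
        ∑' z, PL K o {γ | γ t = z} * PL K z (few n m (W ω)) :=
      fun ω => PL_shift K t (measurableSet_few n m (W ω)) o
    simp_rw [this]
    rw [lintegral_tsum (fun z => ((measurable_few K W hW n m z).const_mul _).aemeasurable)]
    have h2 : ∀ z, ∫⁻ ω, PL K o {γ | γ t = z} * PL K z (few n m (W ω)) ∂P = PL K o {γ | γ t = z} * u := by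
      intro z
      rw [lintegral_const_mul _ (measurable_few K W hW n m z), hu z]
    simp_rw [h2]
    rw [ENNReal.tsum_mul_right]
    have h3 : ∑' z, PL K o {γ | γ t = z} = 1 := by
      rw [← measure_iUnion]
      · have : (⋃ z : V, {γ : ℕ → V | γ t = z}) = univ := by
          apply Set.eq_univ_of_forall; intro γ; exact mem_iUnion.2 ⟨γ t, rfl⟩
        rw [this, measure_univ]
      · intro z z' hne
        apply Set.disjoint_left.2
        intro γ h h'
        exact hne (h.symm.trans h')
      · intro z; exact measurableSet_coord_eq t z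
    rw [h3, one_mul]
  have hms : ∀ t : ℕ, Measurable (fun (γ : ℕ → V) (s : ℕ) => γ (s + t)) :=
    fun t => measurable_pi_lambda _ fun s => measurable_pi_apply _
  have hmt : ∀ t : ℕ, ∀ ω, MeasurableSet {γ : ℕ → V | (fun s => γ (s + t)) ∈ few n m (W ω)} :=
    fun t ω => hms t (measurableSet_few n m (W ω))
  have hmeas : ∀ t : ℕ, Measurable (fun ω => PL K o {γ | (fun s => γ (s + t)) ∈ few n m (W ω)}) := by
    intro t
    have h2 : MeasurableSet {p : Ω × (ℕ → V) | (fun s => p.2 (s + t)) ∈ few n m (W p.1)} := by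
      have hmp : Measurable (fun p : Ω × (ℕ → V) => (p.1, fun s => p.2 (s + t))) :=
        measurable_fst.prodMk ((hms t).comp measurable_snd)
      exact hmp (measurableSet_few_joint W hW n m)
    exact measurable_measure_prodMk_left (ν := PL K o) h2
  calc ((m + 1 : ℕ) : ℝ≥0∞) * u = ∑ _t ∈ Finset.range (m + 1), u := by
        rw [Finset.sum_const, Finset.card_range, nsmul_eq_mul]
    _ = ∑ t ∈ Finset.range (m + 1), ∫⁻ ω, PL K o {γ | (fun s => γ (s + t)) ∈ few n m (W ω)} ∂P := by
        apply Finset.sum_congr rfl; intro t _; exact (h1 t).symm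
    _ = ∫⁻ ω, ∑ t ∈ Finset.range (m + 1), PL K o {γ | (fun s => γ (s + t)) ∈ few n m (W ω)} ∂P := by
        rw [lintegral_finsetSum _ (fun t _ => hmeas t)]
    _ ≤ ∫⁻ _, (n : ℝ≥0∞) ∂P := by
        apply lintegral_mono
        intro ω
        calc ∑ t ∈ Finset.range (m + 1), PL K o {γ | (fun s => γ (s + t)) ∈ few n m (W ω)}
            = ∑ t ∈ Finset.range (m + 1), ∫⁻ γ, ({γ : ℕ → V | (fun s => γ (s + t)) ∈ few n m (W ω)}).indicator 1 γ ∂(PL K o) := by
              apply Finset.sum_congr rfl; intro t _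
              rw [lintegral_indicator_one (hmt t ω)]
          _ = ∫⁻ γ, ∑ t ∈ Finset.range (m + 1), ({γ : ℕ → V | (fun s => γ (s + t)) ∈ few n m (W ω)}).indicator 1 γ ∂(PL K o) := by
              rw [lintegral_finsetSum _ (fun t _ => measurable_one.indicator (hmt t ω))]
          _ ≤ ∫⁻ _, (n : ℝ≥0∞) ∂(PL K o) := by
              apply lintegral_mono
              intro γ
              have h4 : ∑ t ∈ Finset.range (m + 1), ({γ : ℕ → V | (fun s => γ (s + t)) ∈ few n m (W ω)}).indicator
                  (1 : (ℕ → V) → ℝ≥0∞) γ =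
                  (((Finset.range (m + 1)).filter (fun t => (fun s => γ (s + t)) ∈ few n m (W ω))).card : ℝ≥0∞) := by
                rw [← Finset.sum_boole]
                apply Finset.sum_congr rfl
                intro t _
                rw [Set.indicator_apply]
                rfl
              simp only at h4 ⊢
              rw [h4]
              exact_mod_cast few_count (W ω) n m γ
          _ = n := by simp
    _ = n := by simp

end bound

end Pool.Agent.W5h98.Frog
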