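import Pool.Agent.W5h98.Frog.Bridge

/-!
Simple random walk on a transitive graph, balls, interiors of finite sets, and the number of
components.
-/

set_option autoImplicit false
set_option linter.unusedSectionVars false

namespace Pool.Agent.W5h98.Frog
open MeasureTheory ProbabilityTheory Set Filter Relation
open scoped ENNReal NNReal

variable {V : Type*} (G : SimpleGraph V)

/-- The ball around `x`. -/
def bll (x : V) (n : ℕ) : Set V := {y | ∃ p : G.Walk x y, p.length ≤ n}

theorem bll_symm {x y : V} {n : ℕ} (h : y ∈ bll G x n) : x ∈ bll G y n := by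
  obtain ⟨p, hp⟩ := h
  exact ⟨p.reverse, by rwa [SimpleGraph.Walk.length_reverse]⟩

theorem self_mem_bll (x : V) (n : ℕ) : x ∈ bll G x n := ⟨SimpleGraph.Walk.nil, Nat.zero_le _⟩

theorem bll_mono (x : V) {m n : ℕ} (h : m ≤ n) : bll G x m ⊆ bll G x n := by
  rintro y ⟨p, hp⟩
  exact ⟨p, hp.trans h⟩

theorem bll_finite [G.LocallyFinite] (n : ℕ) (x : V) : (bll G x n).Finite := by
  induction n generalizing x with
  | zero =>
    apply (Set.finite_singleton x).subset
    rintro y ⟨p, hp⟩
    exact (SimpleGraph.Walk.eq_of_length_eq_zero (Nat.le_zero.1 hp)).symm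
  | succ n ih =>
    have h1 : (⋃ z ∈ G.neighborFinset x, bll G z n).Finite :=
      Set.Finite.biUnion (Finset.finite_toSet _) fun z _ => ih z
    apply (h1.union (Set.finite_singleton x)).subset
    rintro y ⟨p, hp⟩
    cases p with
    | nil => right; rfl
    | @cons _ z _ h q =>
      left
      rw [SimpleGraph.Walk.length_cons] at hp
      simp only [mem_iUnion]
      exact ⟨z, (SimpleGraph.mem_neighborFinset G x z).2 h, q, by omega⟩

theorem exists_mem_bll (hc : G.Connected) (x y : V) : ∃ n, y ∈ bll G x n := by
  obtain ⟨p⟩ := hc.preconnected x y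
  exact ⟨p.length, p, le_rfl⟩

theorem countable_of_connected [G.LocallyFinite] (hc : G.Connected) : Countable V := by
  obtain ⟨o⟩ := hc.nonempty
  have : (⋃ n, bll G o n) = Set.univ := by
    apply Set.eq_univ_of_forall
    intro y
    exact mem_iUnion.2 (exists_mem_bll G hc o y)
  rw [← Set.countable_univ_iff, ← this]
  exact Set.countable_iUnion fun n => (bll_finite G n o).countable

theorem bll_map (φ : G ≃g G) {x y : V} {n : ℕ} (h : y ∈ bll G x n) : φ y ∈ bll G (φ x) n := by
  obtain ⟨p, hp⟩ := h
  exact ⟨p.map φ.toHom, by rwa [SimpleGraph.Walk.length_map]⟩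

theorem bll_map_iff (φ : G ≃g G) {x y : V} {n : ℕ} : φ y ∈ bll G (φ x) n ↔ y ∈ bll G x n := by
  constructor
  · intro h
    have := bll_map G φ.symm h
    simpa using this
  · exact bll_map G φ

variable [MeasurableSpace V] [DiscreteMeasurableSpace V] [G.LocallyFinite]

/-- The law of one step of simple random walk. -/
noncomputable def srw (y : V) : Measure V := uniformOn (G.neighborSet y)

theorem neighborSet_nonempty [Nontrivial V] (hc : G.Connected) (y : V) : (G.neighborSet y).Nonempty := by
  obtain ⟨z, hz⟩ := exists_ne y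
  obtain ⟨p⟩ := hc.preconnected y z
  cases p with
  | nil => exact absurd rfl hz
  | @cons _ w _ h q => exact ⟨w, h⟩

theorem srw_prob [Nontrivial V] (hc : G.Connected) (y : V) : IsProbabilityMeasure (srw G y) :=
  isProbabilityMeasure_uniformOn (Set.toFinite _) (neighborSet_nonempty G hc y)

open Classical in
theorem srw_singleton (y z : V) : srw G y {z} = if G.Adj y z then (G.degree y : ℝ≥0∞)⁻¹ else 0 := by
  unfold srw uniformOn
  rw [ProbabilityTheory.cond_apply (MeasurableSet.of_discrete)]
  have h1 : Measure.count (G.neighborSet y) = (G.degree y : ℝ≥0∞) := by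
    rw [← SimpleGraph.coe_neighborFinset, Measure.count_apply_finset, SimpleGraph.card_neighborFinset_eq_degree]
  rw [h1]
  split_ifs with h
  · have : G.neighborSet y ∩ {z} = {z} := by
      ext w
      simp only [mem_inter_iff, mem_singleton_iff, SimpleGraph.mem_neighborSet, and_iff_right_iff_imp]
      rintro rfl; exact h
    rw [this, Measure.count_singleton, mul_one]
  · have : G.neighborSet y ∩ {z} = ∅ := by
      ext w
      simp only [mem_inter_iff, mem_singleton_iff, SimpleGraph.mem_neighborSet, mem_empty_iff_false,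
        iff_false, not_and]
      intro h1 h2
      exact h (h2 ▸ h1)
    rw [this, measure_empty, mul_zero]

theorem degree_map (φ : G ≃g G) (x : V) : G.degree (φ x) = G.degree x := by
  classical
  exact φ.degree_eq x

theorem degree_const (ht : ∀ x y, ∃ φ : G ≃g G, φ x = y) (x y : V) : G.degree x = G.degree y := by
  obtain ⟨φ, rfl⟩ := ht x y
  exact (degree_map G φ x).symm

theorem srw_equiv (φ : G ≃g G) (x z : V) : srw G (φ x) {φ z} = srw G x {z} := by
  classical
  rw [srw_singleton, srw_singleton, degree_map]
  have : G.Adj (φ x) (φ z) ↔ G.Adj x z := φ.map_adj_iff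
  by_cases h : G.Adj x z
  · rw [if_pos (this.2 h), if_pos h]
  · rw [if_neg (fun h' => h (this.1 h')), if_neg h]

theorem srw_symm (ht : ∀ x y, ∃ φ : G ≃g G, φ x = y) (x y : V) : srw G x {y} = srw G y {x} := by
  classical
  rw [srw_singleton, srw_singleton, degree_const G ht x y]
  by_cases h : G.Adj x y
  · rw [if_pos h, if_pos h.symm]
  · rw [if_neg h, if_neg (fun h' => h h'.symm)]

theorem srw_ne_zero {x y : V} (h : G.Adj x y) : srw G x {y} ≠ 0 := by
  classical
  rw [srw_singleton, if_pos h]
  simp

theorem adj_of_srw {x y : V} (h : srw G x {y} ≠ 0) : G.Adj x y := by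
  classical
  rw [srw_singleton] at h
  by_contra hn
  rw [if_neg hn] at h
  exact h rfl

open Classical in
/-- The `m`-fold interior of `F`. -/
noncomputable def intr (F : Finset V) : ℕ → Finset V
  | 0 => F
  | m + 1 => (intr F m).filter (fun x => ∀ z, G.Adj x z → z ∈ intr F m)

open Classical in
/-- The inner boundary of `F`. -/
noncomputable def ibd (F : Finset V) : Finset V := F.filter (fun x => ∃ z, G.Adj x z ∧ z ∉ F)

theorem intr_subset (F : Finset V) (m : ℕ) : intr G F m ⊆ F := by
  classical
  induction m with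
  | zero => exact Finset.Subset.refl _
  | succ m ih => exact (Finset.filter_subset _ _).trans ih

theorem PL_intr [Countable V] [∀ y, IsProbabilityMeasure (srw G y)] (F : Finset V) (m : ℕ) (x : V) (hx : x ∈ intr G F m) :
    PL (srw G) x {γ | ∀ t ≤ m, γ t ∈ F} = 1 := by
  classical
  have hms : ∀ m : ℕ, MeasurableSet {γ : ℕ → V | ∀ t ≤ m, γ t ∈ F} := by
    intro m
    have : {γ : ℕ → V | ∀ t ≤ m, γ t ∈ F} = ⋂ t : ℕ, ⋂ _ : t ≤ m, {γ : ℕ → V | γ t ∈ (F : Set V)} := by
      ext γ; simp
    rw [this]
    exact MeasurableSet.iInter fun t => MeasurableSet.iInter fun _ => measurableSet_coord t _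
  induction m generalizing x with
  | zero =>
    apply PL_eq_one _ _ (hms 0)
    intro γ hγ t ht
    rw [Nat.le_zero.1 ht, hγ]; exact hx
  | succ m ih =>
    have hx' := Finset.mem_filter.1 hx
    rw [PL_step' (srw G) x (hms (m + 1)) (B := {γ | ∀ t ≤ m, γ t ∈ F})]
    · rw [← tsum_K (srw G) x]
      apply tsum_congr
      intro z
      by_cases h : srw G x {z} = 0
      · rw [h, zero_mul]
      · rw [ih z (hx'.2 z (adj_of_srw G h)), mul_one]
    · intro γ
      constructor
      · intro h t ht
        exact h (t + 1) (Nat.succ_le_succ ht)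
      · intro h t ht
        cases t with
        | zero => exact intr_subset G F m hx'.1
        | succ t => exact h t (Nat.le_of_succ_le_succ ht)

theorem card_diff_intr (D : ℕ) (hD : ∀ x, G.degree x ≤ D) (m : ℕ) :
    ∃ c : ℕ, ∀ F : Finset V, (F.card : ℕ) ≤ (intr G F m).card + c * (ibd G F).card := by
  classical
  suffices h : ∃ c : ℕ, ∀ F : Finset V, (F \ intr G F m).card ≤ c * (ibd G F).card by
    obtain ⟨c, hc⟩ := h
    refine ⟨c, fun F => ?_⟩
    have := Finset.card_sdiff_add_card_eq_card (intr_subset G F m)
    have := hc F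
    omega
  induction m with
  | zero => exact ⟨0, fun F => by simp [intr]⟩
  | succ m ih =>
    obtain ⟨c, hc⟩ := ih
    refine ⟨c + (c * D + 1), fun F => ?_⟩
    have hsub : F \ intr G F (m + 1) ⊆ (F \ intr G F m) ∪
        ((F \ intr G F m).biUnion (fun z => G.neighborFinset z) ∪ ibd G F) := by
      intro x hx
      rw [Finset.mem_sdiff] at hx
      by_cases h1 : x ∈ intr G F m
      · have h2 : ¬ ∀ z, G.Adj x z → z ∈ intr G F m := by
          intro h3
          exact hx.2 (Finset.mem_filter.2 ⟨h1, h3⟩)
        push Not at h2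
        obtain ⟨z, hz, hz2⟩ := h2
        apply Finset.mem_union_right
        by_cases hzF : z ∈ F
        · apply Finset.mem_union_left
          rw [Finset.mem_biUnion]
          exact ⟨z, Finset.mem_sdiff.2 ⟨hzF, hz2⟩, (SimpleGraph.mem_neighborFinset G z x).2 hz.symm⟩
        · apply Finset.mem_union_right
          exact Finset.mem_filter.2 ⟨hx.1, z, hz, hzF⟩
      · exact Finset.mem_union_left _ (Finset.mem_sdiff.2 ⟨hx.1, h1⟩)
    have h3 : ((F \ intr G F m).biUnion (fun z => G.neighborFinset z)).card ≤ (F \ intr G F m).card * D := by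
      apply Finset.card_biUnion_le_card_mul
      intro z _
      rw [SimpleGraph.card_neighborFinset_eq_degree]; exact hD z
    calc (F \ intr G F (m + 1)).card ≤ _ := Finset.card_le_card hsub
      _ ≤ (F \ intr G F m).card + (((F \ intr G F m).biUnion (fun z => G.neighborFinset z)).card + (ibd G F).card) :=
          (Finset.card_union_le _ _).trans (Nat.add_le_add_left (Finset.card_union_le _ _) _)
      _ ≤ (F \ intr G F m).card + ((F \ intr G F m).card * D + (ibd G F).card) := by omega
      _ ≤ c * (ibd G F).card + (c * (ibd G F).card * D + (ibd G F).card) := by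
          have := hc F
          gcongr
      _ = (c + (c * D + 1)) * (ibd G F).card := by ring

open Classical in
/-- The number of components of `F ∩ W`. -/
theorem card_comp (W : Set V) (w : ℕ)
    (hW : ∀ x ∈ W, ∃ S : Finset V, w ≤ S.card ∧ ∀ y ∈ S, ReflTransGen (fun u v => v ∈ W ∧ G.Adj u v) x y)
    (F : Finset V) :
    w * Nat.card (gr (F.filter (· ∈ W)) G.Adj).ConnectedComponent ≤
      (F.filter (· ∈ W)).card + w * (ibd G F).card := by
  set A := F.filter (· ∈ W) with hA
  have := Fintype.ofFinite (gr A G.Adj).ConnectedComponent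
  have hAm : ∀ {x}, x ∈ A ↔ x ∈ F ∧ x ∈ W := by intro x; rw [hA, Finset.mem_filter]
  rw [Nat.card_eq_fintype_card]
  set cc : A → (gr A G.Adj).ConnectedComponent := fun a => (gr A G.Adj).connectedComponentMk a with hcc
  have h1 : ∀ C : (gr A G.Adj).ConnectedComponent,
      w ≤ (A.attach.filter (fun a => cc a = C)).card + w * (A.attach.filter (fun a => cc a = C ∧ a.1 ∈ ibd G F)).card := by
    intro C
    by_cases hb : ∃ a : A, cc a = C ∧ a.1 ∈ ibd G F
    · obtain ⟨a, ha, ha2⟩ := hb
      have : 1 ≤ (A.attach.filter (fun a => cc a = C ∧ a.1 ∈ ibd G F)).card := by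
        rw [Nat.succ_le_iff, Finset.card_pos]
        exact ⟨a, Finset.mem_filter.2 ⟨Finset.mem_attach _ _, ha, ha2⟩⟩
      nlinarith
    · push Not at hb
      have hC : ∃ a : A, cc a = C := by
        induction C using SimpleGraph.ConnectedComponent.ind with
        | _ v => exact ⟨v, rfl⟩
      obtain ⟨x, hx⟩ := hC
      have hxA := hAm.1 x.2
      obtain ⟨S, hS, hS2⟩ := hW x.1 hxA.2
      have hin : ∀ y, ReflTransGen (fun u v => v ∈ W ∧ G.Adj u v) x.1 y → ∃ hy : y ∈ A, cc ⟨y, hy⟩ = C := by
        intro y hy
        induction hy with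
        | refl => exact ⟨x.2, hx⟩
        | @tail b c _ hbc ih =>
          obtain ⟨hbA, hbC⟩ := ih
          have hbn : b ∉ ibd G F := hb ⟨b, hbA⟩ hbC
          have hcF : c ∈ F := by
            by_contra hcF
            exact hbn (Finset.mem_filter.2 ⟨(hAm.1 hbA).1, c, hbc.2, hcF⟩)
          refine ⟨hAm.2 ⟨hcF, hbc.1⟩, ?_⟩
          rw [← hbC]
          simp only [hcc]
          rw [SimpleGraph.ConnectedComponent.eq]
          apply SimpleGraph.Adj.reachable
          refine ⟨?_, Or.inr hbc.2⟩
          intro h
          rw [Subtype.mk.injEq] at h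
          exact hbc.2.ne h.symm
      have hcard : S.card ≤ (A.attach.filter (fun a => cc a = C)).card := by
        have hsub : S ⊆ (A.attach.filter (fun a => cc a = C)).image Subtype.val := by
          intro y hy
          obtain ⟨h1, h2⟩ := hin y (hS2 y hy)
          exact Finset.mem_image.2 ⟨⟨y, h1⟩, Finset.mem_filter.2 ⟨Finset.mem_attach _ _, h2⟩, rfl⟩
        exact (Finset.card_le_card hsub).trans Finset.card_image_le
      omega
  have h2 : ∑ C : (gr A G.Adj).ConnectedComponent, (A.attach.filter (fun a => cc a = C)).card = A.card := by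
    rw [← Finset.card_attach (s := A)]
    exact (Finset.card_eq_sum_card_fiberwise (f := cc) (t := Finset.univ) (fun a _ => Finset.mem_coe.2 (Finset.mem_univ _))).symm
  have h3 : ∑ C : (gr A G.Adj).ConnectedComponent, (A.attach.filter (fun a => cc a = C ∧ a.1 ∈ ibd G F)).card ≤
      (ibd G F).card := by
    have h4 : ∑ C : (gr A G.Adj).ConnectedComponent, (A.attach.filter (fun a => cc a = C ∧ a.1 ∈ ibd G F)).card =
        (A.attach.filter (fun a => a.1 ∈ ibd G F)).card := by
      rw [Finset.card_eq_sum_card_fiberwise (f := cc) (t := Finset.univ) (fun a _ => Finset.mem_coe.2 (Finset.mem_univ _))]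
      apply Finset.sum_congr rfl
      intro C _
      congr 1
      ext a
      simp only [Finset.mem_filter]
      tauto
    rw [h4]
    have hsub : (A.attach.filter (fun a => a.1 ∈ ibd G F)).image Subtype.val ⊆ ibd G F := by
      intro y hy
      obtain ⟨a, ha, rfl⟩ := Finset.mem_image.1 hy
      exact (Finset.mem_filter.1 ha).2
    rw [← Finset.card_image_of_injective _ Subtype.val_injective]
    exact Finset.card_le_card hsub
  calc w * Fintype.card (gr A G.Adj).ConnectedComponent = ∑ _C : (gr A G.Adj).ConnectedComponent, w := by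
        rw [Finset.sum_const, Finset.card_univ, smul_eq_mul, mul_comm]
    _ ≤ ∑ C : (gr A G.Adj).ConnectedComponent, ((A.attach.filter (fun a => cc a = C)).card +
        w * (A.attach.filter (fun a => cc a = C ∧ a.1 ∈ ibd G F)).card) := Finset.sum_le_sum fun C _ => h1 C
    _ = A.card + w * ∑ C : (gr A G.Adj).ConnectedComponent, (A.attach.filter (fun a => cc a = C ∧ a.1 ∈ ibd G F)).card := by
        rw [Finset.sum_add_distrib, h2, Finset.mul_sum]
    _ ≤ _ := by gcongr

end Pool.Agent.W5h98.Frog
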