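import Pool.Agent.W5h98.Frog.Walk

/-!
Hitting probabilities, transience and recurrence, for the walks of `Walk`.
-/

set_option autoImplicit false
set_option linter.unusedSectionVars false

namespace Pool.Agent.W5h98.Frog
open MeasureTheory ProbabilityTheory Set Filter
open scoped ENNReal

variable {V : Type*} [MeasurableSpace V] [DiscreteMeasurableSpace V] [Countable V]
variable (K : V → Measure V) [∀ y, IsProbabilityMeasure (K y)]

theorem measurableSet_coord (t : ℕ) (W : Set V) : MeasurableSet {γ : ℕ → V | γ t ∈ W} := by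
  have h : Measurable (fun γ : ℕ → V => γ t) := measurable_pi_apply t
  exact h (MeasurableSet.of_discrete (s := W))

theorem measurableSet_coord_eq (t : ℕ) (z : V) : MeasurableSet {γ : ℕ → V | γ t = z} :=
  measurableSet_coord t {z}

theorem tsum_K (x : V) : ∑' z, K x {z} = 1 := by
  have h := lintegral_countable' (μ := K x) (fun _ => (1 : ℝ≥0∞))
  simp only [lintegral_const, measure_univ, one_mul] at h
  exact h.symm

theorem tsum_K_mul_le (x : V) (f : V → ℝ≥0∞) (c : ℝ≥0∞) (hf : ∀ z, f z ≤ c) :
    ∑' z, K x {z} * f z ≤ c := by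
  calc ∑' z, K x {z} * f z ≤ ∑' z, K x {z} * c :=
        ENNReal.tsum_le_tsum fun z => mul_le_mul_right (hf z) _
    _ = c := by rw [ENNReal.tsum_mul_right, tsum_K, one_mul]

/-- Events containing all paths from `x`. -/
theorem PL_eq_one (x : V) {A : Set (ℕ → V)} (hA : MeasurableSet A) (h : ∀ γ : ℕ → V, γ 0 = x → γ ∈ A) :
    PL K x A = 1 := by
  have h1 : PL K x Aᶜ = 0 := by
    refine measure_mono_null ?_ (PL_zero K x)
    intro γ hγ h0
    exact hγ (h γ h0)
  rwa [prob_compl_eq_zero_iff hA] at h1

theorem PL_congr (x : V) {A B : Set (ℕ → V)} (h : ∀ γ : ℕ → V, γ 0 = x → (γ ∈ A ↔ γ ∈ B)) :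
    PL K x A = PL K x B := by
  apply measure_congr
  have : ∀ᵐ γ ∂(PL K x), γ 0 = x := PL_zero K x
  filter_upwards [this] with γ hγ
  exact propext (h γ hγ)

theorem PL_mono (x : V) {A B : Set (ℕ → V)} (h : ∀ γ : ℕ → V, γ 0 = x → γ ∈ A → γ ∈ B) :
    PL K x A ≤ PL K x B := by
  apply measure_mono_ae
  have : ∀ᵐ γ ∂(PL K x), γ 0 = x := PL_zero K x
  filter_upwards [this] with γ hγ
  exact h γ hγ

theorem PL_eq_zero (x : V) {A : Set (ℕ → V)} (h : ∀ γ : ℕ → V, γ 0 = x → γ ∉ A) :
    PL K x A = 0 := by
  refine measure_mono_null ?_ (PL_zero K x)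
  intro γ hγ h0
  exact h γ h0 hγ

/-- First step decomposition, for events described after the first step. -/
theorem PL_step' (x : V) {A B : Set (ℕ → V)} (hA : MeasurableSet A)
    (h : ∀ γ : ℕ → V, hcons x γ ∈ A ↔ γ ∈ B) : PL K x A = ∑' z, K x {z} * PL K z B := by
  rw [PL_step K x hA]
  have : hcons x ⁻¹' A = B := by
    ext γ; exact h γ
  rw [this]

/-- The Markov property at a fixed time. -/
theorem PL_shift (t : ℕ) {A : Set (ℕ → V)} (hA : MeasurableSet A) (x : V) :
    PL K x {γ | (fun s => γ (s + t)) ∈ A} = ∑' z, PL K x {γ | γ t = z} * PL K z A := by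
  classical
  have hms : ∀ t, Measurable (fun (γ : ℕ → V) (s : ℕ) => γ (s + t)) :=
    fun t => measurable_pi_lambda _ fun s => measurable_pi_apply _
  induction t generalizing x with
  | zero =>
    have h1 : ∀ z, PL K x {γ | γ 0 = z} = if z = x then 1 else 0 := by
      intro z
      split_ifs with h
      · subst h
        exact PL_eq_one K z (measurableSet_coord_eq 0 z) fun γ hγ => hγ
      · apply PL_eq_zero
        intro γ h0 h1
        exact h (h1.symm.trans h0)
    simp_rw [h1]
    rw [tsum_eq_single x]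
    · rw [if_pos rfl, one_mul]
      exact congrArg (PL K x) (Set.ext fun γ => Iff.rfl)
    · intro z hz; simp [hz]
  | succ t ih =>
    have hm1 : MeasurableSet {γ : ℕ → V | (fun s => γ (s + (t + 1))) ∈ A} := hms (t + 1) hA
    rw [PL_step' K x hm1 (B := {γ | (fun s => γ (s + t)) ∈ A}) (fun γ => Iff.rfl)]
    simp_rw [ih]
    have h2 : ∀ z, PL K x {γ | γ (t + 1) = z} = ∑' w, K x {w} * PL K w {γ | γ t = z} := by
      intro z
      exact PL_step' K x (measurableSet_coord_eq (t + 1) z) (fun γ => Iff.rfl)
    simp_rw [h2, ← ENNReal.tsum_mul_right, ← ENNReal.tsum_mul_left]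
    rw [ENNReal.tsum_comm]
    apply tsum_congr; intro z
    apply tsum_congr; intro w
    rw [mul_assoc]

/-- The paths through `z`. -/
def hit (z : V) : Set (ℕ → V) := {γ | ∃ t, γ t = z}

/-- The paths through `z` up to time `t`. -/
def hitBy (t : ℕ) (z : V) : Set (ℕ → V) := {γ | ∃ s ≤ t, γ s = z}

/-- The paths through `z` from time `n` on. -/
def later (n : ℕ) (z : V) : Set (ℕ → V) := {γ | ∃ t, n ≤ t ∧ γ t = z}

theorem measurableSet_hit (z : V) : MeasurableSet (hit z) := by
  have : hit z = ⋃ t : ℕ, {γ : ℕ → V | γ t = z} := by ext γ; simp [hit]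
  rw [this]
  exact MeasurableSet.iUnion fun t => measurableSet_coord_eq t z

theorem measurableSet_later (n : ℕ) (z : V) : MeasurableSet (later n z) := by
  have : later n z = ⋃ t : ℕ, ⋃ _ : n ≤ t, {γ : ℕ → V | γ t = z} := by ext γ; simp [later]
  rw [this]
  exact MeasurableSet.iUnion fun t => MeasurableSet.iUnion fun _ => measurableSet_coord_eq t z

theorem measurableSet_hitBy (n : ℕ) (z : V) : MeasurableSet (hitBy n z) := by
  have : hitBy n z = ⋃ t : ℕ, ⋃ _ : t ≤ n, {γ : ℕ → V | γ t = z} := by ext γ; simp [hitBy]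
  rw [this]
  exact MeasurableSet.iUnion fun t => MeasurableSet.iUnion fun _ => measurableSet_coord_eq t z

theorem PL_hit_self (z : V) : PL K z (hit z) = 1 :=
  PL_eq_one K z (measurableSet_hit z) fun _ h => ⟨0, h⟩

theorem PL_hit_step {x z : V} (h : x ≠ z) : PL K x (hit z) = ∑' w, K x {w} * PL K w (hit z) := by
  apply PL_step' K x (measurableSet_hit z)
  intro γ
  constructor
  · rintro ⟨t, ht⟩
    cases t with
    | zero => exact absurd ht h
    | succ t => exact ⟨t, ht⟩
  · rintro ⟨t, ht⟩; exact ⟨t + 1, ht⟩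

theorem PL_hit_super (x z : V) : ∑' w, K x {w} * PL K w (hit z) ≤ PL K x (hit z) := by
  by_cases h : x = z
  · subst h
    rw [PL_hit_self]
    exact tsum_K_mul_le K x _ _ fun w => prob_le_one
  · rw [PL_hit_step K h]

theorem hitBy_mono (z : V) : Monotone (fun t => hitBy t z) := by
  intro a b hab γ
  rintro ⟨s, hs, h⟩
  exact ⟨s, hs.trans hab, h⟩

theorem iUnion_hitBy (z : V) : ⋃ t, hitBy t z = hit z := by
  ext γ
  simp only [mem_iUnion, hitBy, hit, mem_ofPred_eq]
  constructor
  · rintro ⟨t, s, hs, h⟩; exact ⟨s, h⟩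
  · rintro ⟨t, h⟩; exact ⟨t, t, le_rfl, h⟩

/-- Hitting `o` and then `z`. -/
theorem PL_hit_mul (y o z : V) : PL K y (hit o) * PL K o (hit z) ≤ PL K y (hit z) := by
  have key : ∀ t : ℕ, ∀ y, PL K y (hitBy t o) * PL K o (hit z) ≤ PL K y (hit z) := by
    intro t
    induction t with
    | zero =>
      intro y
      by_cases h : y = o
      · subst h
        exact mul_le_of_le_one_left zero_le prob_le_one
      · rw [PL_eq_zero K y (A := hitBy 0 o), zero_mul]
        · exact zero_le
        · rintro γ h0 ⟨s, hs, h1⟩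
          rw [Nat.le_zero.1 hs] at h1
          exact h (h0.symm.trans h1)
    | succ t ih =>
      intro y
      by_cases h : y = o
      · subst h
        exact mul_le_of_le_one_left zero_le prob_le_one
      · have h1 : PL K y (hitBy (t + 1) o) = ∑' w, K y {w} * PL K w (hitBy t o) := by
          apply PL_step' K y (measurableSet_hitBy _ _)
          intro γ
          constructor
          · rintro ⟨s, hs, hs2⟩
            cases s with
            | zero => exact absurd hs2 h
            | succ s => exact ⟨s, Nat.le_of_succ_le_succ hs, hs2⟩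
          · rintro ⟨s, hs, hs2⟩; exact ⟨s + 1, Nat.succ_le_succ hs, hs2⟩
        rw [h1, ← ENNReal.tsum_mul_right]
        refine le_trans ?_ (PL_hit_super K y z)
        apply ENNReal.tsum_le_tsum
        intro w
        rw [mul_assoc]
        exact mul_le_mul_right (ih w) _
  rw [← iUnion_hitBy o, (hitBy_mono o).measure_iUnion, ENNReal.iSup_mul]
  exact iSup_le fun t => key t y

open Classical in
/-- The number of visits to `W` up to time `t`. -/
noncomputable def cnt (W : Set V) (γ : ℕ → V) (t : ℕ) : ℕ :=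
  ∑ s ∈ Finset.range (t + 1), if γ s ∈ W then 1 else 0

open Classical in
theorem cnt_hcons_succ (W : Set V) (x : V) (γ : ℕ → V) (t : ℕ) :
    cnt W (hcons x γ) (t + 1) = cnt W γ t + (if x ∈ W then 1 else 0) := by
  unfold cnt
  rw [Finset.sum_range_succ']
  rfl

open Classical in
theorem cnt_succ (W : Set V) (γ : ℕ → V) (t : ℕ) :
    cnt W γ (t + 1) = cnt W γ t + (if γ (t + 1) ∈ W then 1 else 0) := by
  unfold cnt
  rw [Finset.sum_range_succ]

open Classical in
theorem cnt_zero (W : Set V) (γ : ℕ → V) : cnt W γ 0 = if γ 0 ∈ W then 1 else 0 := by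
  unfold cnt
  rw [zero_add, Finset.sum_range_one]

theorem cnt_mono (W : Set V) (γ : ℕ → V) : Monotone (cnt W γ) := by
  apply monotone_nat_of_le_succ
  intro t
  rw [cnt_succ]; exact Nat.le_add_right _ _

theorem measurable_cnt (W : Set V) (t : ℕ) : Measurable (fun γ : ℕ → V => cnt W γ t) := by
  classical
  unfold cnt
  apply Finset.measurable_sum
  intro s _
  exact Measurable.ite (measurableSet_coord s W) measurable_const measurable_const

theorem measurableSet_cnt (W : Set V) (t : ℕ) (P : ℕ → Prop) :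
    MeasurableSet {γ : ℕ → V | P (cnt W γ t)} := by
  have h : MeasurableSet {n : ℕ | P n} := MeasurableSet.of_discrete
  exact measurable_cnt W t h

/-- The return probability. -/
noncomputable def ret (z : V) : ℝ≥0∞ := ∑' w, K z {w} * PL K w (hit z)

theorem PL_cnt_le (z : V) (k : ℕ) (t : ℕ) (y : V) :
    PL K y {γ | k + 1 ≤ cnt {z} γ t} ≤ PL K y (hit z) * ret K z ^ k := by
  classical
  induction t generalizing k y with
  | zero =>
    cases k with
    | zero =>
      rw [pow_zero, mul_one]
      apply measure_mono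
      intro γ hγ
      simp only [mem_ofPred_eq, cnt_zero] at hγ
      refine ⟨0, ?_⟩
      by_contra h
      rw [if_neg (by simpa using h)] at hγ
      omega
    | succ k =>
      rw [PL_eq_zero]
      · exact zero_le
      · intro γ _ hγ
        simp only [mem_ofPred_eq, cnt_zero] at hγ
        split_ifs at hγ <;> omega
  | succ t ih =>
    by_cases h : y = z
    · subst h
      cases k with
      | zero =>
        rw [pow_zero, mul_one, PL_hit_self]
        exact prob_le_one
      | succ k =>
        rw [PL_step' K y (measurableSet_cnt {y} (t + 1) (fun n => k + 1 + 1 ≤ n))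
          (B := {γ | k + 1 ≤ cnt {y} γ t})]
        · rw [PL_hit_self, one_mul, pow_succ', ret, ← ENNReal.tsum_mul_right]
          apply ENNReal.tsum_le_tsum
          intro w
          rw [mul_assoc]
          exact mul_le_mul_right (ih k w) _
        · intro γ
          simp only [mem_ofPred_eq, cnt_hcons_succ, mem_singleton_iff, if_true]
          omega
    · rw [PL_step' K y (measurableSet_cnt {z} (t + 1) (fun n => k + 1 ≤ n))
          (B := {γ | k + 1 ≤ cnt {z} γ t})]
      · rw [PL_hit_step K h, ← ENNReal.tsum_mul_right]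
        apply ENNReal.tsum_le_tsum
        intro w
        rw [mul_assoc]
        exact mul_le_mul_right (ih k w) _
      · intro γ
        simp only [mem_ofPred_eq, cnt_hcons_succ, mem_singleton_iff, h, if_false]
        omega

theorem iInter_later (z : V) {γ : ℕ → V} (h : ∀ n, γ ∈ later n z) (k : ℕ) : ∃ t, k ≤ cnt {z} γ t := by
  induction k with
  | zero => exact ⟨0, Nat.zero_le _⟩
  | succ k ih =>
    obtain ⟨t, ht⟩ := ih
    obtain ⟨s, hs, hs2⟩ := h (t + 1)
    obtain ⟨s, rfl⟩ : ∃ s', s = s' + 1 := ⟨s - 1, by omega⟩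
    refine ⟨s + 1, ?_⟩
    rw [cnt_succ, if_pos (by simpa using hs2)]
    have : cnt {z} γ t ≤ cnt {z} γ s := cnt_mono {z} γ (by omega)
    omega

/-- Transience. -/
theorem tendsto_later (z : V) (hα : ret K z < 1) (y : V) :
    Tendsto (fun n => PL K y (later n z)) atTop (nhds 0) := by
  have h0 : PL K y (⋂ n, later n z) = 0 := by
    have hk : ∀ k : ℕ, PL K y (⋂ n, later n z) ≤ ret K z ^ k := by
      intro k
      have hsub : (⋂ n, later n z) ⊆ ⋃ t, {γ : ℕ → V | k + 1 ≤ cnt {z} γ t} := by
        intro γ hγ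
        rw [mem_iInter] at hγ
        obtain ⟨t, ht⟩ := iInter_later z hγ (k + 1)
        exact mem_iUnion.2 ⟨t, ht⟩
      have hmono : Monotone (fun t => {γ : ℕ → V | k + 1 ≤ cnt {z} γ t}) := by
        intro a b hab γ hγ
        exact le_trans hγ (cnt_mono {z} γ hab)
      refine (measure_mono hsub).trans ?_
      rw [hmono.measure_iUnion]
      apply iSup_le
      intro t
      refine (PL_cnt_le K z k t y).trans ?_
      exact mul_le_of_le_one_left zero_le prob_le_one
    have ht : Tendsto (fun k : ℕ => ret K z ^ k) atTop (nhds 0) :=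
      ENNReal.tendsto_pow_atTop_nhds_zero_of_lt_one hα
    exact le_antisymm (ge_of_tendsto' ht hk) zero_le
  rw [← h0]
  apply tendsto_measure_iInter_atTop
  · intro n; exact (measurableSet_later n z).nullMeasurableSet
  · intro a b hab γ
    rintro ⟨t, ht, h⟩
    exact ⟨t, hab.trans ht, h⟩
  · exact ⟨0, measure_ne_top _ _⟩

/-- Recurrence: if the walk returns to `z` almost surely, then it hits `z` from everywhere it is
connected to. -/
theorem hit_of_ret (z : V) (hα : ret K z = 1) : ∀ w, K z {w} ≠ 0 → PL K w (hit z) = 1 := by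
  by_contra hcon
  push Not at hcon
  obtain ⟨w, hw, hw1⟩ := hcon
  have hlt : PL K w (hit z) < 1 := lt_of_le_of_ne prob_le_one hw1
  have h1 : ret K z < ∑' w, K z {w} := by
    unfold ret
    refine ENNReal.tsum_lt_tsum (i := w) ?_ ?_ ?_
    · apply ne_of_lt
      exact lt_of_le_of_lt (tsum_K_mul_le K z _ 1 fun _ => prob_le_one) ENNReal.one_lt_top
    · intro v
      exact mul_le_of_le_one_right zero_le prob_le_one
    · calc K z {w} * PL K w (hit z) < K z {w} * 1 :=
            (ENNReal.mul_lt_mul_iff_right hw (measure_ne_top _ _)).2 hlt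
        _ = K z {w} := mul_one _
  rw [tsum_K, hα] at h1
  exact lt_irrefl _ h1

theorem hit_of_nbr {x z w : V} (hx : PL K x (hit z) = 1) (hxz : x ≠ z) (hw : K x {w} ≠ 0) :
    PL K w (hit z) = 1 := by
  by_contra hw1
  have hlt : PL K w (hit z) < 1 := lt_of_le_of_ne prob_le_one hw1
  have h1 : PL K x (hit z) < ∑' w, K x {w} := by
    rw [PL_hit_step K hxz]
    refine ENNReal.tsum_lt_tsum (i := w) ?_ ?_ ?_
    · apply ne_of_lt
      exact lt_of_le_of_lt (tsum_K_mul_le K x _ 1 fun _ => prob_le_one) ENNReal.one_lt_top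
    · intro v
      exact mul_le_of_le_one_right zero_le prob_le_one
    · calc K x {w} * PL K w (hit z) < K x {w} * 1 :=
            (ENNReal.mul_lt_mul_iff_right hw (measure_ne_top _ _)).2 hlt
        _ = K x {w} := mul_one _
  rw [tsum_K, hx] at h1
  exact lt_irrefl _ h1

end Pool.Agent.W5h98.Frog
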