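import Pool.Agent.W5h98.Frog.Avoid
import Pool.Agent.W5h98.Pol.Prob

/-!
Directed and undirected percolation on a finite set: the out-cluster has the same law.
-/

set_option autoImplicit false
set_option linter.unusedSectionVars false

namespace Pool.Agent.W5h98.Frog
open MeasureTheory ProbabilityTheory Set Filter Relation
open Pool.Agent.W5h98.Pol (Dep)
open scoped ENNReal NNReal

variable {V : Type*}

/-- The relation given by the local relation `L`, the bits `b` and the section `s`. -/
def prel (L : V → V → Prop) (s : V × V → V × V) (b : V × V → Bool) (u v : V) : Prop :=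
  L u v ∨ b (s (u, v)) = true

/-- Connected inside `A`. -/
def conn (A : Finset V) (R : V → V → Prop) (x y : V) : Prop :=
  ReflTransGen (fun u v => v ∈ A ∧ R u v) x y

open Classical in
/-- The cluster of `x` inside `A`. -/
noncomputable def clu (A : Finset V) (R : V → V → Prop) (x : V) : Finset V :=
  A.filter (fun y => conn A R x y)

theorem mem_clu {A : Finset V} {R : V → V → Prop} {x y : V} : y ∈ clu A R x ↔ y ∈ A ∧ conn A R x y := by
  classical
  simp [clu]

theorem clu_subset (A : Finset V) (R : V → V → Prop) (x : V) : clu A R x ⊆ A := by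
  intro y hy; exact (mem_clu.1 hy).1

theorem self_mem_clu {A : Finset V} (R : V → V → Prop) {x : V} (hx : x ∈ A) : x ∈ clu A R x :=
  mem_clu.2 ⟨hx, ReflTransGen.refl⟩

theorem conn_mono {A B : Finset V} {R R' : V → V → Prop} (hAB : A ⊆ B) (hR : ∀ u v, R u v → R' u v)
    {x y : V} (h : conn A R x y) : conn B R' x y := by
  induction h with
  | refl => exact ReflTransGen.refl
  | tail _ hc ih => exact ih.tail ⟨hAB hc.1, hR _ _ hc.2⟩

theorem clu_eq_iff {A B : Finset V} {R : V → V → Prop} {x : V} (hBA : B ⊆ A) (hx : x ∈ B) :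
    clu A R x = B ↔ clu B R x = B ∧ ∀ u ∈ B, ∀ v ∈ A, v ∉ B → ¬ R u v := by
  constructor
  · intro h
    constructor
    · apply Finset.Subset.antisymm (clu_subset B R x)
      intro y hy
      rw [mem_clu]
      refine ⟨hy, ?_⟩
      have hy' : conn A R x y := (mem_clu.1 (h.symm ▸ hy)).2
      clear hy
      induction hy' with
      | refl => exact ReflTransGen.refl
      | @tail b c hb hc ih =>
        refine ih.tail ⟨?_, hc.2⟩
        rw [← h, mem_clu]
        exact ⟨hc.1, hb.tail hc⟩
    · intro u hu v hv hvB huv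
      apply hvB
      rw [← h, mem_clu]
      have hu' : conn A R x u := (mem_clu.1 (h.symm ▸ hu)).2
      exact ⟨hv, hu'.tail ⟨hv, huv⟩⟩
  · rintro ⟨h1, h2⟩
    apply Finset.Subset.antisymm
    · intro y hy
      have hy' := (mem_clu.1 hy).2
      clear hy
      induction hy' with
      | refl => exact hx
      | @tail b c hb hc ih =>
        by_contra hcB
        exact h2 b ih c hc.1 hcB hc.2
    · intro y hy
      rw [mem_clu]
      exact ⟨hBA hy, conn_mono hBA (fun _ _ h => h) (mem_clu.1 (h1.symm ▸ hy)).2⟩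

theorem clu_congr {A : Finset V} {R R' : V → V → Prop} {x : V} (hx : x ∈ A)
    (h : ∀ u ∈ A, ∀ v ∈ A, (R u v ↔ R' u v)) : clu A R x = clu A R' x := by
  have key : ∀ R R' : V → V → Prop, (∀ u ∈ A, ∀ v ∈ A, (R u v → R' u v)) → ∀ y, conn A R x y → y ∈ A ∧ conn A R' x y := by
    intro R R' h y hy
    induction hy with
    | refl => exact ⟨hx, ReflTransGen.refl⟩
    | @tail b c hb hc ih => exact ⟨hc.1, ih.2.tail ⟨hc.1, h b ih.1 c hc.1 hc.2⟩⟩
  ext y
  rw [mem_clu, mem_clu]
  constructor
  · rintro ⟨_, h2⟩; exact key R R' (fun u hu v hv => (h u hu v hv).1) y h2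
  · rintro ⟨_, h2⟩; exact key R' R (fun u hu v hv => (h u hu v hv).2) y h2

/-- `s` chooses an orientation of each pair. -/
def Sec (s : V × V → V × V) : Prop := ∀ p, s p = p ∨ s p = p.swap

variable {L : V → V → Prop} {κ : V × V → ℝ≥0∞}

/-- The product law of the bits. -/
noncomputable def bitLaw (κ : V × V → ℝ≥0∞) : Measure (V × V → Bool) :=
  Measure.infinitePi (fun p : V × V => ber (κ p))

instance (κ : V × V → ℝ≥0∞) : IsProbabilityMeasure (bitLaw κ) := by unfold bitLaw; infer_instance

open Classical in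
theorem dep_clu (L : V → V → Prop) {s : V × V → V × V} (hs : Sec s) (A B : Finset V) {x : V} (hx : x ∈ A) :
    Dep ((A ×ˢ A : Finset (V × V)) : Set (V × V)) {b | clu A (prel L s b) x = B} := by
  intro b b' h hb
  rw [mem_ofPred_eq] at hb ⊢
  rw [← hb]
  apply clu_congr hx
  intro u hu v hv
  unfold prel
  have : b (s (u, v)) = b' (s (u, v)) := by
    apply h
    rw [Finset.mem_coe, Finset.mem_product]
    rcases hs (u, v) with h1 | h1 <;> rw [h1]
    · exact ⟨hu, hv⟩
    · exact ⟨hv, hu⟩
  rw [this]

open Classical in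
theorem dep_cut (L : V → V → Prop) {s : V × V → V × V} (hs : Sec s) (A B : Finset V) :
    Dep ((B ×ˢ (A \ B) ∪ (A \ B) ×ˢ B : Finset (V × V)) : Set (V × V))
      {b | ∀ u ∈ B, ∀ v ∈ A, v ∉ B → ¬ prel L s b u v} := by
  intro b b' h hb u hu v hv hvB huv
  apply hb u hu v hv hvB
  unfold prel at huv ⊢
  have : b (s (u, v)) = b' (s (u, v)) := by
    apply h
    rw [Finset.mem_coe, Finset.mem_union, Finset.mem_product, Finset.mem_product]
    rcases hs (u, v) with h1 | h1 <;> rw [h1]
    · left; exact ⟨hu, Finset.mem_sdiff.2 ⟨hv, hvB⟩⟩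
    · right; exact ⟨Finset.mem_sdiff.2 ⟨hv, hvB⟩, hu⟩
  rw [this]; exact huv

open Classical in
/-- The probability of a cut. -/
theorem cut_prob (L : V → V → Prop) {s : V × V → V × V} (hs : Sec s) {A B : Finset V} (hBA : B ⊆ A)
    (hκ : ∀ x ∈ A, ∀ y ∈ A, κ (x, y) = κ (y, x)) :
    (bitLaw κ) {b | ∀ u ∈ B, ∀ v ∈ A, v ∉ B → ¬ prel L s b u v} =
      if (∀ u ∈ B, ∀ v ∈ A, v ∉ B → ¬ L u v) then ∏ p ∈ B ×ˢ (A \ B), ex (κ p) else 0 := by
  split_ifs with hL
  · have hinj : Set.InjOn s ((B ×ˢ (A \ B) : Finset (V × V)) : Set (V × V)) := by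
      intro p hp q hq hpq
      rw [Finset.mem_coe, Finset.mem_product, Finset.mem_sdiff] at hp hq
      have key : p = q ∨ p = q.swap := by
        rcases hs p with h1 | h1 <;> rcases hs q with h2 | h2
        · left; rw [← h1, ← h2, hpq]
        · right; rw [← h1, hpq, h2]
        · right
          have : p.swap = q := by rw [← h1, hpq, h2]
          rw [← this, Prod.swap_swap]
        · left
          have : p.swap = q.swap := by rw [← h1, hpq, h2]
          exact Prod.swap_injective this
      rcases key with h | h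
      · exact h
      · exfalso
        have h1 : p.1 = q.2 := by rw [h]; rfl
        exact hq.2.2 (h1 ▸ hp.1)
    have h1 : {b : V × V → Bool | ∀ u ∈ B, ∀ v ∈ A, v ∉ B → ¬ prel L s b u v} =
        Set.pi (((B ×ˢ (A \ B)).image s : Finset (V × V)) : Set (V × V)) (fun _ => {false}) := by
      ext b
      simp only [mem_ofPred_eq, Set.mem_pi, Finset.coe_image, Set.mem_image, Finset.mem_coe,
        Finset.mem_product, Finset.mem_sdiff, mem_singleton_iff, prel, not_or, Bool.not_eq_true]
      constructor
      · rintro h _ ⟨p, ⟨hp1, hp2, hp3⟩, rfl⟩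
        exact (h p.1 hp1 p.2 hp2 hp3).2
      · intro h u hu v hv hvB
        exact ⟨hL u hu v hv hvB, h _ ⟨(u, v), ⟨hu, hv, hvB⟩, rfl⟩⟩
    rw [h1, bitLaw, Measure.infinitePi_pi _ (fun _ _ => measurableSet_singleton _), Finset.prod_image hinj]
    apply Finset.prod_congr rfl
    intro p hp
    rw [ber_false]
    rw [Finset.mem_product, Finset.mem_sdiff] at hp
    rcases hs p with h2 | h2
    · rw [h2]
    · rw [h2]
      congr 1
      exact hκ p.2 hp.2.1 p.1 (hBA hp.1)
  · have : {b : V × V → Bool | ∀ u ∈ B, ∀ v ∈ A, v ∉ B → ¬ prel L s b u v} = ∅ := by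
      ext b
      simp only [mem_ofPred_eq, mem_empty_iff_false, iff_false]
      intro h
      apply hL
      intro u hu v hv hvB hl
      exact h u hu v hv hvB (Or.inl hl)
    rw [this]; simp

theorem clu_factor (L : V → V → Prop) {s : V × V → V × V} (hs : Sec s) {A B : Finset V} (hBA : B ⊆ A)
    {x : V} (hx : x ∈ B) :
    (bitLaw κ) {b | clu A (prel L s b) x = B} = (bitLaw κ) {b | clu B (prel L s b) x = B} *
      (bitLaw κ) {b | ∀ u ∈ B, ∀ v ∈ A, v ∉ B → ¬ prel L s b u v} := by
  classical
  have h1 : {b : V × V → Bool | clu A (prel L s b) x = B} = {b | clu B (prel L s b) x = B} ∩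
      {b | ∀ u ∈ B, ∀ v ∈ A, v ∉ B → ¬ prel L s b u v} := by
    ext b
    exact clu_eq_iff hBA hx
  rw [h1]
  apply Dep.indep _ (dep_clu L hs B B hx) (dep_cut L hs A B)
  rw [Finset.disjoint_left]
  intro p hp hp2
  rw [Finset.mem_product] at hp
  rw [Finset.mem_union, Finset.mem_product, Finset.mem_product, Finset.mem_sdiff, Finset.mem_sdiff] at hp2
  rcases hp2 with h | h
  · exact h.2.2 hp.2
  · exact h.1.2 hp.1

theorem clu_law_sum (L : V → V → Prop) {s : V × V → V × V} (hs : Sec s) {A : Finset V} {x : V} (hx : x ∈ A)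
    (Q : Finset V → Prop) [DecidablePred Q] :
    (bitLaw κ) {b | Q (clu A (prel L s b) x)} =
      ∑ B ∈ A.powerset with Q B, (bitLaw κ) {b | clu A (prel L s b) x = B} := by
  classical
  rw [← measure_biUnion_finset]
  · congr 1
    ext b
    simp only [mem_ofPred_eq, mem_iUnion, Finset.mem_filter, Finset.mem_powerset, exists_prop]
    constructor
    · intro h; exact ⟨_, ⟨clu_subset _ _ _, h⟩, rfl⟩
    · rintro ⟨B, ⟨_, h⟩, rfl⟩; exact h
  · intro B _ B' _ hne
    apply Set.disjoint_left.2
    intro b h h'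
    exact hne (h.symm.trans h')
  · intro B _
    exact (dep_clu L hs A B hx).meas

/-- The law of the cluster does not depend on the section. -/
theorem clu_law (L : V → V → Prop) {s s' : V × V → V × V} (hs : Sec s) (hs' : Sec s') (n : ℕ) :
    ∀ A : Finset V, A.card = n → (∀ x ∈ A, ∀ y ∈ A, κ (x, y) = κ (y, x)) → ∀ x ∈ A, ∀ B ⊆ A,
      (bitLaw κ) {b | clu A (prel L s b) x = B} = (bitLaw κ) {b | clu A (prel L s' b) x = B} := by
  classical
  induction n using Nat.strong_induction_on with
  | _ n ih =>
    intro A hA hκ x hx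
    have hlt : ∀ B ⊆ A, B ≠ A → (bitLaw κ) {b | clu A (prel L s b) x = B} =
        (bitLaw κ) {b | clu A (prel L s' b) x = B} := by
      intro B hB hne
      by_cases hxB : x ∈ B
      · rw [clu_factor L hs hB hxB, clu_factor L hs' hB hxB, cut_prob L hs hB hκ, cut_prob L hs' hB hκ]
        congr 1
        refine ih B.card ?_ B rfl (fun u hu v hv => hκ u (hB hu) v (hB hv)) x hxB B (Finset.Subset.refl _)
        rw [← hA]
        exact Finset.card_lt_card (Finset.ssubset_iff_subset_ne.2 ⟨hB, hne⟩)
      · have : ∀ s : V × V → V × V, {b : V × V → Bool | clu A (prel L s b) x = B} = ∅ := by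
          intro s
          ext b
          simp only [mem_ofPred_eq, mem_empty_iff_false, iff_false]
          intro h
          exact hxB (h ▸ self_mem_clu _ hx)
        rw [this, this]
    intro B hB
    by_cases hBA : B = A
    · subst hBA
      have key : ∀ s : V × V → V × V, Sec s → (bitLaw κ) {b | clu B (prel L s b) x = B} =
          1 - ∑ C ∈ B.powerset with C ≠ B, (bitLaw κ) {b | clu B (prel L s b) x = C} := by
        intro s hs
        have h1 := clu_law_sum (κ := κ) L hs hx (fun C => C ≠ B)
        rw [← h1]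
        have h2 : {b : V × V → Bool | clu B (prel L s b) x = B} = {b | clu B (prel L s b) x ≠ B}ᶜ := by
          ext b; simp
        rw [h2]
        exact prob_compl_eq_one_sub (by
          have : {b : V × V → Bool | clu B (prel L s b) x ≠ B} = {b | clu B (prel L s b) x = B}ᶜ := by
            ext b; simp
          rw [this]
          exact (dep_clu L hs B B hx).meas.compl)
      rw [key s hs, key s' hs']
      congr 1
      apply Finset.sum_congr rfl
      intro C hC
      rw [Finset.mem_filter, Finset.mem_powerset] at hC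
      exact hlt C hC.1 hC.2
    · exact hlt B hB hBA

theorem clu_law' (L : V → V → Prop) {s s' : V × V → V × V} (hs : Sec s) (hs' : Sec s')
    {A : Finset V} (hκ : ∀ x ∈ A, ∀ y ∈ A, κ (x, y) = κ (y, x)) {x : V} (hx : x ∈ A) (y : V) :
    (bitLaw κ) {b | y ∈ clu A (prel L s b) x} = (bitLaw κ) {b | y ∈ clu A (prel L s' b) x} := by
  classical
  rw [clu_law_sum (κ := κ) L hs hx (fun C => y ∈ C), clu_law_sum (κ := κ) L hs' hx (fun C => y ∈ C)]
  apply Finset.sum_congr rfl
  intro C hC
  rw [Finset.mem_filter, Finset.mem_powerset] at hC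
  exact clu_law L hs hs' _ A rfl hκ x hx C hC.1

end Pool.Agent.W5h98.Frog
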