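import Pool.Agent.W5h98.Frog.Env

/-!
Step 1: in an amenable transitive graph the clusters are large in the sense of hitting measure.
-/

set_option autoImplicit false
set_option linter.unusedSectionVars false

namespace Pool.Agent.W5h98.Frog
open MeasureTheory ProbabilityTheory Set Filter Relation
open scoped ENNReal NNReal

variable {V : Type*}

/-- The relation of a bit field. -/
def rel (r : V × V → Bool) (u v : V) : Prop := r (u, v) = true

/-- Union of two bit fields. -/
def orB (r s : V × V → Bool) : V × V → Bool := fun p => r p || s p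

theorem rel_orB {r s : V × V → Bool} {u v : V} : rel (orB r s) u v ↔ rel r u v ∨ rel s u v := by
  simp [rel, orB]

theorem rel_tr (φ : V ≃ V) (r : V × V → Bool) (x y : V) :
    ReflTransGen (rel (tr φ r)) x y ↔ ReflTransGen (rel r) (φ x) (φ y) :=
  rtg_equiv φ (R := rel r) (R' := rel (tr φ r)) (fun _ _ => Iff.rfl) x y

theorem measurableSet_rel_rtg [Countable V] (x y : V) :
    MeasurableSet {r : V × V → Bool | ReflTransGen (rel r) x y} := by
  apply measurableSet_rtg
  intro u v
  have h : Measurable (fun r : V × V → Bool => r (u, v)) := measurable_pi_apply _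
  exact h (measurableSet_singleton true)

theorem measurable_orB : Measurable (fun q : (V × V → Bool) × (V × V → Bool) => orB q.1 q.2) := by
  rw [measurable_pi_iff]
  intro p
  have h1 : Measurable (fun q : Bool × Bool => q.1 || q.2) := measurable_of_countable _
  have h2 : Measurable (fun q : (V × V → Bool) × (V × V → Bool) => (q.1 p, q.2 p)) :=
    ((measurable_pi_apply p).comp measurable_fst).prodMk ((measurable_pi_apply p).comp measurable_snd)
  exact h1.comp h2

variable [MeasurableSpace V] [DiscreteMeasurableSpace V] [Countable V]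

/-- Paths through the target. -/
def hitB : V → V → Set (ℕ → V) := fun _ y => hit y

/-- Paths whose first step is at the target. -/
def stepB : V → V → Set (ℕ → V) := fun _ y => {γ | γ 1 = y}

theorem meas_hitB (x y : V) : MeasurableSet (hitB x y) := measurableSet_hit y

theorem meas_stepB (x y : V) : MeasurableSet (stepB x y) := measurableSet_coord_eq 1 y

section K
variable (K : V → Measure V) [∀ y, IsProbabilityMeasure (K y)]

open Classical in
/-- The truncated hitting mass of `x` from its cluster, after time `n`. -/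
noncomputable def Phi (n : ℕ) (x : V) (r : V × V → Bool) : ℝ≥0∞ :=
  min 1 (∑' y, if ReflTransGen (rel r) x y then PL K y (later n x) else 0)

theorem measurable_Phi (n : ℕ) (x : V) : Measurable (Phi K n x) := by
  classical
  unfold Phi
  apply Measurable.min measurable_const
  apply Measurable.tsum
  intro y
  exact Measurable.ite (measurableSet_rel_rtg x y) measurable_const measurable_const

theorem Phi_tr (φ : V ≃ V) (hφ : ∀ x z, K (φ x) {φ z} = K x {z}) (n : ℕ) (x : V) (r : V × V → Bool) :
    Phi K n x (tr φ r) = Phi K n (φ x) r := by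
  classical
  unfold Phi
  congr 1
  conv_rhs => rw [← Equiv.tsum_eq φ]
  apply tsum_congr
  intro y
  have h1 := rel_tr φ r x y
  have h2 : PL K (φ y) (later n (φ x)) = PL K y (later n x) := by
    rw [PL_equiv K φ hφ y (measurableSet_later n (φ x))]
    congr 1
    ext γ
    simp [later]
  rw [h2]
  by_cases h : ReflTransGen (rel (tr φ r)) x y
  · rw [if_pos h, if_pos (h1.1 h)]
  · rw [if_neg h, if_neg (fun h' => h (h1.2 h'))]

theorem hitB_equiv (φ : V ≃ V) (x j : V) (γ : ℕ → V) : (fun t => φ (γ t)) ∈ hitB (φ x) (φ j) ↔ γ ∈ hitB x j := by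
  simp [hitB, hit]

theorem stepB_equiv (φ : V ≃ V) (x j : V) (γ : ℕ → V) : (fun t => φ (γ t)) ∈ stepB (φ x) (φ j) ↔ γ ∈ stepB x j := by
  simp [stepB]

theorem Phi_inv (lam : ℝ≥0) (φ : V ≃ V) (hφ : ∀ x z, K (φ x) {φ z} = K x {z}) (n : ℕ) (x : V) :
    ∫⁻ r, Phi K n (φ x) r ∂(markLaw K lam hitB) = ∫⁻ r, Phi K n x r ∂(markLaw K lam hitB) := by
  have h := markLaw_equiv K lam meas_hitB φ hφ φ (hitB_equiv φ)
  have h2 : (markLaw K lam hitB).map (tr φ) = markLaw K lam hitB := h
  conv_rhs => rw [← h2]
  rw [lintegral_map (measurable_Phi K n x) (measurable_tr φ)]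
  apply lintegral_congr
  intro r
  rw [Phi_tr K φ hφ]

end K

section G
variable (G : SimpleGraph V) [G.LocallyFinite] [∀ y, IsProbabilityMeasure (srw G y)]

/-- The density of the environment. -/
theorem rho_pos [Infinite V] (hc : G.Connected) {lam : ℝ≥0} (hlam : 0 < lam) (w : ℕ) (x : V) :
    0 < markLaw (srw G) lam stepB {a | x ∈ Wset G w a} := by
  classical
  have hprod := markLaw_prod (srw G) lam (B := stepB) meas_stepB (by
    intro x j j' hne
    apply Set.disjoint_left.2
    intro γ h h'
    exact hne (h.symm.trans h'))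
  -- a large ball
  obtain ⟨T, hT⟩ := Infinite.exists_subset_card_eq V w
  have hball : ∃ n, (T : Set V) ⊆ bll G x n := by
    have h1 : ∀ y, ∃ n, y ∈ bll G x n := exists_mem_bll G hc x
    choose f hf using h1
    refine ⟨T.sup f, fun y hy => ?_⟩
    exact bll_mono G x (Finset.le_sup (f := f) hy) (hf y)
  obtain ⟨n, hn⟩ := hball
  set S : Finset V := (bll_finite G n x).toFinset with hS
  have hmS : ∀ y, y ∈ S ↔ y ∈ bll G x n := by intro y; rw [hS, Set.Finite.mem_toFinset]
  set E : Finset (V × V) := S.biUnion (fun u => (G.neighborFinset u).image (fun v => (u, v))) with hE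
  have hmE : ∀ u v, (u, v) ∈ E ↔ u ∈ S ∧ G.Adj u v := by
    intro u v
    simp only [hE, Finset.mem_biUnion, Finset.mem_image, SimpleGraph.mem_neighborFinset, Prod.mk.injEq]
    constructor
    · rintro ⟨u', hu', v', hv', rfl, rfl⟩; exact ⟨hu', hv'⟩
    · rintro ⟨h1, h2⟩; exact ⟨u, h1, v, h2, rfl, rfl⟩
  have hsub : Set.pi (E : Set (V × V)) (fun _ => ({true} : Set Bool)) ⊆ {a | x ∈ Wset G w a} := by
    intro a ha
    have hO : ∀ u ∈ S, u ∈ Oset G a := by
      intro u hu z hz
      exact ha (u, z) ((hmE u z).2 ⟨hu, hz⟩)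
    have hreach : ∀ k ≤ n, ∀ y ∈ bll G x k, ReflTransGen (Orel G a) x y := by
      intro k
      induction k with
      | zero =>
        intro _ y hy
        obtain ⟨p, hp⟩ := hy
        rw [SimpleGraph.Walk.eq_of_length_eq_zero (Nat.le_zero.1 hp)]
      | succ k ih =>
        intro hk y hy
        obtain ⟨p, hp⟩ := bll_symm G hy
        cases p with
        | nil => exact ReflTransGen.refl
        | @cons _ z _ h q =>
          rw [SimpleGraph.Walk.length_cons] at hp
          have hz : z ∈ bll G x k := bll_symm G ⟨q, by omega⟩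
          refine (ih (by omega) z hz).tail ⟨⟨hO z ?_, hO y ?_⟩, h.symm⟩
          · exact (hmS z).2 (bll_mono G x (by omega) hz)
          · exact (hmS y).2 (bll_mono G x hk hy)
    refine ⟨hO x ((hmS x).2 (self_mem_bll G x n)), T, le_of_eq hT.symm, ?_⟩
    intro y hy
    exact hreach n le_rfl y (hn hy)
  refine lt_of_lt_of_le ?_ (measure_mono hsub)
  rw [hprod, Measure.infinitePi_pi _ (fun _ _ => measurableSet_singleton _)]
  rw [CanonicallyOrderedAdd.prod_pos]
  intro p hp
  rw [ber_true]
  rw [tsub_pos_iff_lt]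
  have hadj : G.Adj p.1 p.2 := ((hmE p.1 p.2).1 hp).2
  have hq : PL (srw G) p.1 (stepB p.1 p.2) = srw G p.1 {p.2} := by
    rw [PL_step' (srw G) p.1 (meas_stepB p.1 p.2) (B := {γ | γ 0 = p.2}) (fun γ => Iff.rfl)]
    rw [tsum_eq_single p.2]
    · rw [PL_eq_one (srw G) p.2 (measurableSet_coord_eq 0 p.2) (fun γ hγ => hγ), mul_one]
    · intro z hz
      rw [PL_eq_zero (srw G) z (A := {γ | γ 0 = p.2}) (fun γ h0 h1 => hz (h0.symm.trans h1)), mul_zero]
  rw [hq]
  unfold ex
  rw [ENNReal.ofReal_lt_one, Real.exp_lt_one_iff, neg_lt_zero]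
  apply ENNReal.toReal_pos
  · apply mul_ne_zero
    · simpa using hlam.ne'
    · exact srw_ne_zero G hadj
  · exact ENNReal.mul_ne_top (by simp) (measure_ne_top _ _)


theorem few_inv (lam : ℝ≥0) (φ : G ≃g G) (w n m : ℕ) (x : V) :
    ∫⁻ a, PL (srw G) (φ x) (few n m (Wset G w a)) ∂(markLaw (srw G) lam stepB) =
      ∫⁻ a, PL (srw G) x (few n m (Wset G w a)) ∂(markLaw (srw G) lam stepB) := by
  have hφ : ∀ x z, srw G (φ x) {φ z} = srw G x {z} := srw_equiv G φ
  have h := markLaw_equiv (srw G) lam (B := stepB) meas_stepB φ.toEquiv hφ φ.toEquiv (stepB_equiv φ.toEquiv)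
  have h2 : (markLaw (srw G) lam stepB).map (tr φ) = markLaw (srw G) lam stepB := h
  conv_rhs => rw [← h2]
  rw [lintegral_map (measurable_few (srw G) (Wset G w) (measurableSet_Wset G w) n m x) (measurable_tr φ)]
  apply lintegral_congr
  intro a
  have := PL_equiv (srw G) φ.toEquiv hφ x (measurableSet_few n m (Wset G w a))
  have h3 : PL (srw G) (φ x) (few n m (Wset G w a)) = PL (srw G) x {γ | (fun t => φ (γ t)) ∈ few n m (Wset G w a)} := this
  rw [h3]
  congr 1
  ext γ
  simp only [few, mem_ofPred_eq]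
  rw [cnt_tr (Wset G w a) (Wset G w (tr φ a)) φ (fun x => Wset_tr G φ w a x) γ m, Wset_tr]

theorem rho_inv (lam : ℝ≥0) (φ : G ≃g G) (w : ℕ) (x : V) :
    markLaw (srw G) lam stepB {a | φ x ∈ Wset G w a} = markLaw (srw G) lam stepB {a | x ∈ Wset G w a} := by
  have hφ : ∀ x z, srw G (φ x) {φ z} = srw G x {z} := srw_equiv G φ
  have h := markLaw_equiv (srw G) lam (B := stepB) meas_stepB φ.toEquiv hφ φ.toEquiv (stepB_equiv φ.toEquiv)
  have h2 : (markLaw (srw G) lam stepB).map (tr φ) = markLaw (srw G) lam stepB := h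
  conv_rhs => rw [← h2]
  rw [Measure.map_apply (measurable_tr φ) (measurableSet_Wset G w x)]
  congr 1
  ext a
  simp only [mem_preimage, mem_ofPred_eq]
  rw [Wset_tr]

end G

end Pool.Agent.W5h98.Frog
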