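import Pool.Agent.W5h98.Frog.StepA

/-!
Step 1, continued: the inequality for one environment, and its average.
-/

set_option autoImplicit false
set_option linter.unusedSectionVars false

namespace Pool.Agent.W5h98.Frog
open MeasureTheory ProbabilityTheory Set Filter Relation
open scoped ENNReal NNReal

variable {V : Type*} [MeasurableSpace V] [DiscreteMeasurableSpace V] [Countable V]
variable (G : SimpleGraph V) [G.LocallyFinite] [∀ y, IsProbabilityMeasure (srw G y)]

/-- Configurations. -/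
abbrev Cfg (V : Type*) := V → ℕ × (ℕ → ℕ → V → V)

theorem Hitn_B (W : Set V) (n : ℕ) (_x y : V) : MeasurableSet ((fun _ y => Hitn W n y : V → V → Set (ℕ → V)) _x y) :=
  measurableSet_Hitn W n y

/-- Directed connections in `F ∩ W` are connections of the frog model. -/
theorem clu_sub_rtg {W : Set V} {w n : ℕ} {ω1 ω2 : Cfg V} (hW : W = Wset G w (Mb stepB ω1)) {A : Finset V}
    (hA : ∀ x ∈ A, x ∈ W) {x y : V} (hx : x ∈ A)
    (h : y ∈ clu A (prel G.Adj id (Mb (fun _ y => Hitn W n y) ω2)) x) :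
    ReflTransGen (rel (orB (Mb hitB ω1) (Mb hitB ω2))) x y := by
  have h2 := (mem_clu.1 h).2
  have key : ∀ y, conn A (prel G.Adj id (Mb (fun _ y => Hitn W n y) ω2)) x y → y ∈ A ∧
      ReflTransGen (rel (orB (Mb hitB ω1) (Mb hitB ω2))) x y := by
    intro y hy
    induction hy with
    | refl => exact ⟨hx, ReflTransGen.refl⟩
    | @tail b c _ hc ih =>
      refine ⟨hc.1, ih.2.tail ?_⟩
      rw [rel_orB]
      rcases hc.2 with hadj | hb
      · left
        have hbW : b ∈ Wset G w (Mb stepB ω1) := hW ▸ hA b ih.1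
        have h3 : Mb stepB ω1 (b, c) = true := hbW.1 c hadj
        rw [Mb_true] at h3
        obtain ⟨k, hk, h4⟩ := h3
        exact Mb_true.2 ⟨k, hk, 1, h4⟩
      · right
        rw [id, Mb_true] at hb
        obtain ⟨k, hk, h4⟩ := hb
        exact Mb_true.2 ⟨k, hk, Hitn_sub_hit W n c h4⟩
  exact (key y h2).2

theorem measurable_orB_snd (r : V × V → Bool) : Measurable (fun ω2 : Cfg V => orB r (Mb hitB ω2)) :=
  measurable_orB.comp (measurable_const.prodMk (measurable_Mb meas_hitB))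

open Classical in
/-- The inequality for a fixed environment. -/
theorem env_ineq (ht : ∀ x y, ∃ φ : G ≃g G, φ x = y) (l2 : ℝ≥0) (hl2 : l2 ≤ 1) (w n m : ℕ) (ω1 : Cfg V)
    (F : Finset V) :
    (w * l2 : ℝ≥0∞) * ∑ x ∈ intr G F m, (if x ∈ Wset G w (Mb stepB ω1) then 1 else 0) ≤
      (w * l2 : ℝ≥0∞) * ∑ x ∈ intr G F m, PL (srw G) x (few n m (Wset G w (Mb stepB ω1))) +
      2 * ∑ x ∈ F, (if x ∈ Wset G w (Mb stepB ω1) then 1 else 0) + 2 * (w * (ibd G F).card) +
      2 * ((w * l2) * ∑ x ∈ F, ∫⁻ ω2, Phi (srw G) n x (orB (Mb hitB ω1) (Mb hitB ω2)) ∂(cfgLaw (srw G) l2)) := by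
  set W := Wset G w (Mb stepB ω1) with hW
  set K := srw G with hK
  set A := F.filter (· ∈ W) with hA
  have hAm : ∀ {x}, x ∈ A ↔ x ∈ F ∧ x ∈ W := by intro x; rw [hA, Finset.mem_filter]
  set κ : V × V → ℝ≥0∞ := fun p => l2 * PL K p.1 (Hitn W n p.2) with hκ
  obtain ⟨e, he⟩ : ∃ e : V → ℕ, Function.Injective e := exists_injective_nat V
  have hl2' : (l2 : ℝ≥0∞) ≤ 1 := by exact_mod_cast hl2
  have hbr := bridge_ineq (κ := κ) (L := G.Adj) (fun u v h => h.symm) he A
    (fun x hx y hy => by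
      simp only [hκ]
      rw [PL_Hitn_symm K (srw_symm G ht) W n (hAm.1 hx).2 (hAm.1 hy).2])
    (fun x hx y hy => by
      simp only [hκ]
      calc (l2 : ℝ≥0∞) * PL K x (Hitn W n y) ≤ 1 * 1 := mul_le_mul' hl2' prob_le_one
        _ = 1 := one_mul 1)
  have hlaw : bitLaw κ = markLaw K l2 (fun _ y => Hitn W n y) := by
    rw [markLaw_prod K l2 (B := fun _ y => Hitn W n y) (Hitn_B W n)]
    · rfl
    · intro x j j' hne
      apply Set.disjoint_left.2
      intro γ h h'
      exact hne (Hitn_unique h h')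
  have hmclu : ∀ x ∈ A, ∀ y, MeasurableSet {b : V × V → Bool | y ∈ clu A (prel G.Adj id b) x} :=
    fun x hx y => (dep_mem_clu G.Adj sec_id A hx y).meas
  have hmr : ∀ x y, MeasurableSet {ω2 : Cfg V | ReflTransGen (rel (orB (Mb hitB ω1) (Mb hitB ω2))) x y} := by
    intro x y
    exact measurable_orB_snd (Mb hitB ω1) (measurableSet_rel_rtg x y)
  have hθ : ∀ x ∈ A, ∀ y, (bitLaw κ) {b | y ∈ clu A (prel G.Adj id b) x} ≤
      cfgLaw K l2 {ω2 : Cfg V | ReflTransGen (rel (orB (Mb hitB ω1) (Mb hitB ω2))) x y} := by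
    intro x hx y
    rw [hlaw, markLaw, Measure.map_apply (measurable_Mb (Hitn_B W n)) (hmclu x hx y)]
    apply measure_mono
    intro ω2 h2
    exact clu_sub_rtg G hW (fun x hx => (hAm.1 hx).2) hx h2
  -- the sum with theta
  have h3 : ∀ x ∈ A, ∑ y ∈ A, κ (x, y) * (bitLaw κ) {b | y ∈ clu A (prel G.Adj id b) x} ≤
      l2 * ∫⁻ ω2, Phi K n x (orB (Mb hitB ω1) (Mb hitB ω2)) ∂(cfgLaw K l2) := by
    intro x hx
    calc ∑ y ∈ A, κ (x, y) * (bitLaw κ) {b | y ∈ clu A (prel G.Adj id b) x}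
        ≤ ∑ y ∈ A, l2 * (PL K x (Hitn W n y) *
          cfgLaw K l2 {ω2 : Cfg V | ReflTransGen (rel (orB (Mb hitB ω1) (Mb hitB ω2))) x y}) := by
          apply Finset.sum_le_sum
          intro y _
          rw [← mul_assoc]
          exact mul_le_mul_right (hθ x hx y) _
      _ = l2 * ∫⁻ ω2, ∑ y ∈ A, PL K x (Hitn W n y) *
          ({ω2 : Cfg V | ReflTransGen (rel (orB (Mb hitB ω1) (Mb hitB ω2))) x y}).indicator 1 ω2 ∂(cfgLaw K l2) := by
          rw [← Finset.mul_sum, lintegral_finsetSum]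
          · congr 1
            apply Finset.sum_congr rfl
            intro y _
            rw [lintegral_const_mul _ (measurable_one.indicator (hmr x y)), lintegral_indicator_one (hmr x y)]
          · intro y _
            exact (measurable_one.indicator (hmr x y)).const_mul _
      _ ≤ l2 * ∫⁻ ω2, Phi K n x (orB (Mb hitB ω1) (Mb hitB ω2)) ∂(cfgLaw K l2) := by
          gcongr with ω2
          unfold Phi
          apply le_min
          · calc _ ≤ ∑ y ∈ A, PL K x (Hitn W n y) := by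
                  apply Finset.sum_le_sum
                  intro y _
                  apply mul_le_of_le_one_right zero_le
                  apply Set.indicator_le_self'
                  intro _ _; exact zero_le
              _ ≤ ∑' y, PL K x (Hitn W n y) := ENNReal.sum_le_tsum A
              _ ≤ 1 := tsum_Hitn_le K W n x
          · refine le_trans ?_ (ENNReal.sum_le_tsum A)
            apply Finset.sum_le_sum
            intro y hy
            rw [Set.indicator_apply]
            by_cases h : ReflTransGen (rel (orB (Mb hitB ω1) (Mb hitB ω2))) x y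
            · rw [if_pos h, if_pos (show ω2 ∈ {ω2 : Cfg V | ReflTransGen (rel (orB (Mb hitB ω1) (Mb hitB ω2))) x y} from h)]
              rw [Pi.one_apply, mul_one]
              exact PL_Hitn_le K (srw_symm G ht) W n (hAm.1 hx).2 (hAm.1 hy).2
            · rw [if_neg (show ω2 ∉ {ω2 : Cfg V | ReflTransGen (rel (orB (Mb hitB ω1) (Mb hitB ω2))) x y} from h), mul_zero]
              exact zero_le
  have hcc := card_comp G W w (fun x hx => Wset_comp G x hx) F
  rw [← hA] at hcc
  have hcc' : (w : ℝ≥0∞) * (Nat.card (gr A G.Adj).ConnectedComponent : ℝ≥0∞) ≤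
      (A.card : ℝ≥0∞) + w * (ibd G F).card := by exact_mod_cast hcc
  have hAcard : (A.card : ℝ≥0∞) = ∑ x ∈ F, (if x ∈ W then (1 : ℝ≥0∞) else 0) := by
    rw [hA, Finset.sum_boole]
  -- mass
  have hmass : (l2 : ℝ≥0∞) * ∑ x ∈ intr G F m, (if x ∈ W then 1 else 0) ≤
      l2 * ∑ x ∈ intr G F m, PL K x (few n m W) + ∑ x ∈ A, ∑ y ∈ A, κ (x, y) := by
    have h4 : ∑ x ∈ A, ∑ y ∈ A, κ (x, y) = l2 * ∑ x ∈ A, ∑ y ∈ A, PL K x (Hitn W n y) := by
      simp only [hκ, Finset.mul_sum]
    have h5 : ∑ x ∈ intr G F m, (if x ∈ W then (1 : ℝ≥0∞) else 0) ≤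
        ∑ x ∈ intr G F m, PL K x (few n m W) + ∑ x ∈ A, ∑ y ∈ A, PL K x (Hitn W n y) := by
      have h6 : ∑ x ∈ intr G F m, (if x ∈ W then ∑ y ∈ A, PL K x (Hitn W n y) else 0) ≤
          ∑ x ∈ A, ∑ y ∈ A, PL K x (Hitn W n y) := by
        rw [← Finset.sum_filter]
        apply Finset.sum_le_sum_of_subset
        intro x hx
        rw [Finset.mem_filter] at hx
        exact hAm.2 ⟨intr_subset G F m hx.1, hx.2⟩
      refine le_trans ?_ (add_le_add le_rfl h6)
      rw [← Finset.sum_add_distrib]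
      apply Finset.sum_le_sum
      intro x hx
      split_ifs with hxW
      · have h7 := mass_ge K W n m x F (PL_intr G F m x hx)
        have h8 : PL K x {γ | cnt W γ m ≤ n} = PL K x (few n m W) := by
          apply PL_congr
          intro γ hγ
          constructor
          · intro h; exact ⟨by rw [hγ]; exact hxW, h⟩
          · intro h; exact h.2
        have h9 : ∑ y ∈ F, PL K x (Hitn W n y) = ∑ y ∈ A, PL K x (Hitn W n y) := by
          symm
          apply Finset.sum_subset (Finset.filter_subset _ _)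
          intro y hy hyA
          have : y ∉ W := fun h => hyA (hAm.2 ⟨hy, h⟩)
          rw [Hitn_empty n this, measure_empty]
        rw [h8, h9] at h7
        exact h7
      · exact zero_le
    rw [h4, ← mul_add]
    exact mul_le_mul_right h5 _
  calc (w * l2 : ℝ≥0∞) * ∑ x ∈ intr G F m, (if x ∈ W then 1 else 0)
      = w * (l2 * ∑ x ∈ intr G F m, (if x ∈ W then 1 else 0)) := by rw [mul_assoc]
    _ ≤ w * (l2 * ∑ x ∈ intr G F m, PL K x (few n m W) + ∑ x ∈ A, ∑ y ∈ A, κ (x, y)) := mul_le_mul_right hmass _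
    _ ≤ w * (l2 * ∑ x ∈ intr G F m, PL K x (few n m W) + (2 * (Nat.card (gr A G.Adj).ConnectedComponent : ℝ≥0∞) +
      2 * ∑ x ∈ A, ∑ y ∈ A, κ (x, y) * (bitLaw κ) {b | y ∈ clu A (prel G.Adj id b) x})) := by gcongr
    _ = (w * l2) * ∑ x ∈ intr G F m, PL K x (few n m W) + 2 * (w * (Nat.card (gr A G.Adj).ConnectedComponent : ℝ≥0∞)) +
      2 * (w * ∑ x ∈ A, ∑ y ∈ A, κ (x, y) * (bitLaw κ) {b | y ∈ clu A (prel G.Adj id b) x}) := by ring
    _ ≤ (w * l2) * ∑ x ∈ intr G F m, PL K x (few n m W) + 2 * ((A.card : ℝ≥0∞) + w * (ibd G F).card) +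
      2 * (w * ∑ x ∈ A, l2 * ∫⁻ ω2, Phi K n x (orB (Mb hitB ω1) (Mb hitB ω2)) ∂(cfgLaw K l2)) := by
        gcongr with x hx
        exact h3 x hx
    _ ≤ (w * l2) * ∑ x ∈ intr G F m, PL K x (few n m W) + 2 * ((A.card : ℝ≥0∞) + w * (ibd G F).card) +
      2 * (w * ∑ x ∈ F, l2 * ∫⁻ ω2, Phi K n x (orB (Mb hitB ω1) (Mb hitB ω2)) ∂(cfgLaw K l2)) := by
        gcongr
        exact Finset.filter_subset _ _
    _ = _ := by
        rw [hAcard, ← Finset.mul_sum]
        ring

end Pool.Agent.W5h98.Frog
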