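import Pool.Agent.W5h98.Frog.StepB

/-!
Step 1, continued: averaging over the environment, and over a Følner sequence.
-/

set_option autoImplicit false
set_option linter.unusedSectionVars false

namespace Pool.Agent.W5h98.Frog
open MeasureTheory ProbabilityTheory Set Filter Relation
open scoped ENNReal NNReal

variable {V : Type*} [MeasurableSpace V] [DiscreteMeasurableSpace V] [Countable V]
variable (G : SimpleGraph V) [G.LocallyFinite] [∀ y, IsProbabilityMeasure (srw G y)]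

open Classical in
theorem avg_ineq (ht : ∀ x y, ∃ φ : G ≃g G, φ x = y) (l1 l2 : ℝ≥0) (hl2 : l2 ≤ 1) (w n m : ℕ) (o : V) :
    ∃ u : ℝ≥0∞, (m + 1 : ℕ) * u ≤ n ∧ ∀ F : Finset V,
    (w * l2 : ℝ≥0∞) * ((intr G F m).card * markLaw (srw G) l1 stepB {a | o ∈ Wset G w a}) ≤
      (w * l2 : ℝ≥0∞) * ((intr G F m).card * u) +
      2 * (F.card * markLaw (srw G) l1 stepB {a | o ∈ Wset G w a}) + 2 * (w * (ibd G F).card) +
      2 * ((w * l2) * (F.card * ∫⁻ r, Phi (srw G) n o r ∂(markLaw (srw G) (l1 + l2) hitB))) := by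
  set K := srw G with hK
  have hmW := measurableSet_Wset G w
  have i1 : IsProbabilityMeasure (markLaw K l1 stepB) := markLaw_prob K l1 meas_stepB
  have j1 : IsProbabilityMeasure (markLaw K l1 hitB) := markLaw_prob K l1 meas_hitB
  have j2 : IsProbabilityMeasure (markLaw K l2 hitB) := markLaw_prob K l2 meas_hitB
  set ρ := markLaw K l1 stepB {a | o ∈ Wset G w a} with hρ
  set Ψ := ∫⁻ r, Phi K n o r ∂(markLaw K (l1 + l2) hitB) with hΨ
  set u := ∫⁻ a, PL K o (few n m (Wset G w a)) ∂(markLaw K l1 stepB) with hu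
  have hux : ∀ x, ∫⁻ a, PL K x (few n m (Wset G w a)) ∂(markLaw K l1 stepB) = u := by
    intro x
    obtain ⟨φ, rfl⟩ := ht o x
    exact few_inv G l1 φ w n m o
  have hρx : ∀ x, markLaw K l1 stepB {a | x ∈ Wset G w a} = ρ := by
    intro x
    obtain ⟨φ, rfl⟩ := ht o x
    exact rho_inv G l1 φ w o
  have hΨx : ∀ x, ∫⁻ r, Phi K n x r ∂(markLaw K (l1 + l2) hitB) = Ψ := by
    intro x
    obtain ⟨φ, rfl⟩ := ht o x
    exact Phi_inv K (l1 + l2) φ.toEquiv (srw_equiv G φ) n o
  refine ⟨u, ?_, ?_⟩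
  · exact env_bound K (markLaw K l1 stepB) (Wset G w) hmW n m u hux o
  intro F
  have hmi : ∀ x, Measurable (fun ω1 : Cfg V => if x ∈ Wset G w (Mb stepB ω1) then (1 : ℝ≥0∞) else 0) := by
    intro x
    exact Measurable.ite ((measurable_Mb meas_stepB) (hmW x)) measurable_const measurable_const
  have I1 : ∀ x, ∫⁻ ω1 : Cfg V, (if x ∈ Wset G w (Mb stepB ω1) then (1 : ℝ≥0∞) else 0) ∂(cfgLaw K l1) = ρ := by
    intro x
    rw [← hρx x, markLaw, Measure.map_apply (measurable_Mb meas_stepB) (hmW x),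
      ← lintegral_indicator_one ((measurable_Mb meas_stepB) (hmW x))]
    apply lintegral_congr
    intro ω1
    rw [Set.indicator_apply]
    rfl
  have hmf : ∀ x, Measurable (fun ω1 : Cfg V => PL K x (few n m (Wset G w (Mb stepB ω1)))) := by
    intro x
    exact (measurable_few K (Wset G w) hmW n m x).comp (measurable_Mb meas_stepB)
  have I2 : ∀ x, ∫⁻ ω1 : Cfg V, PL K x (few n m (Wset G w (Mb stepB ω1))) ∂(cfgLaw K l1) = u := by
    intro x
    rw [← hux x, markLaw, lintegral_map (measurable_few K (Wset G w) hmW n m x) (measurable_Mb meas_stepB)]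
  have hmq : ∀ x, Measurable (fun q : Cfg V × Cfg V => Phi K n x (orB (Mb hitB q.1) (Mb hitB q.2))) := by
    intro x
    exact (measurable_Phi K n x).comp (measurable_orB.comp
      (((measurable_Mb meas_hitB).comp measurable_fst).prodMk ((measurable_Mb meas_hitB).comp measurable_snd)))
  have hmg : ∀ x, Measurable (fun ω1 : Cfg V => ∫⁻ ω2, Phi K n x (orB (Mb hitB ω1) (Mb hitB ω2)) ∂(cfgLaw K l2)) :=
    fun x => (hmq x).lintegral_prod_right'
  have I3 : ∀ x, ∫⁻ ω1 : Cfg V, ∫⁻ ω2, Phi K n x (orB (Mb hitB ω1) (Mb hitB ω2)) ∂(cfgLaw K l2) ∂(cfgLaw K l1) = Ψ := by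
    intro x
    have hadd := markLaw_add K l1 l2 (B := hitB) meas_hitB
    have hadd2 : ((markLaw K l1 hitB).prod (markLaw K l2 hitB)).map (fun q => orB q.1 q.2) = markLaw K (l1 + l2) hitB := hadd
    have hcomp : Measurable (fun q : (V × V → Bool) × (V × V → Bool) => Phi K n x (orB q.1 q.2)) :=
      (measurable_Phi K n x).comp measurable_orB
    rw [← hΨx x, ← hadd2, lintegral_map (measurable_Phi K n x) measurable_orB,
      lintegral_prod _ hcomp.aemeasurable]
    have hr := hcomp.lintegral_prod_right' (ν := markLaw K l2 hitB)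
    have hL : ∫⁻ r1, ∫⁻ r2, Phi K n x (orB r1 r2) ∂(markLaw K l2 hitB) ∂(markLaw K l1 hitB) =
        ∫⁻ ω1 : Cfg V, ∫⁻ r2, Phi K n x (orB (Mb hitB ω1) r2) ∂(markLaw K l2 hitB) ∂(cfgLaw K l1) :=
      lintegral_map hr (measurable_Mb meas_hitB)
    rw [hL]
    apply lintegral_congr
    intro ω1
    have hc2 : Measurable (fun r2 : V × V → Bool => Phi K n x (orB (Mb hitB ω1) r2)) :=
      hcomp.comp (measurable_const.prodMk measurable_id)
    exact (lintegral_map hc2 (measurable_Mb meas_hitB)).symm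
  have key : ∫⁻ ω1 : Cfg V, (w * l2 : ℝ≥0∞) * ∑ x ∈ intr G F m, (if x ∈ Wset G w (Mb stepB ω1) then 1 else 0) ∂(cfgLaw K l1) ≤
      ∫⁻ ω1 : Cfg V, ((w * l2 : ℝ≥0∞) * ∑ x ∈ intr G F m, PL K x (few n m (Wset G w (Mb stepB ω1))) +
      2 * ∑ x ∈ F, (if x ∈ Wset G w (Mb stepB ω1) then 1 else 0) + 2 * (w * (ibd G F).card) +
      2 * ((w * l2) * ∑ x ∈ F, ∫⁻ ω2, Phi K n x (orB (Mb hitB ω1) (Mb hitB ω2)) ∂(cfgLaw K l2))) ∂(cfgLaw K l1) :=
    lintegral_mono fun ω1 => env_ineq G ht l2 hl2 w n m ω1 F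
  have m1 : Measurable (fun ω1 : Cfg V => ∑ x ∈ intr G F m, PL K x (few n m (Wset G w (Mb stepB ω1)))) :=
    Finset.measurable_sum _ fun x _ => hmf x
  have m2 : Measurable (fun ω1 : Cfg V => ∑ x ∈ F, (if x ∈ Wset G w (Mb stepB ω1) then (1 : ℝ≥0∞) else 0)) :=
    Finset.measurable_sum _ fun x _ => hmi x
  have m3 : Measurable (fun ω1 : Cfg V => ∑ x ∈ F, ∫⁻ ω2, Phi K n x (orB (Mb hitB ω1) (Mb hitB ω2)) ∂(cfgLaw K l2)) :=
    Finset.measurable_sum _ fun x _ => hmg x
  have m4 : Measurable (fun ω1 : Cfg V => ∑ x ∈ intr G F m, (if x ∈ Wset G w (Mb stepB ω1) then (1 : ℝ≥0∞) else 0)) :=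
    Finset.measurable_sum _ fun x _ => hmi x
  rw [lintegral_const_mul _ m4, lintegral_finsetSum _ (fun x _ => hmi x)] at key
  rw [lintegral_add_right _ ((m3.const_mul _).const_mul _), lintegral_add_right _ measurable_const,
    lintegral_add_right _ (m2.const_mul _), lintegral_const_mul _ m1, lintegral_const_mul _ m2,
    lintegral_const_mul _ (m3.const_mul _), lintegral_const_mul _ m3,
    lintegral_finsetSum _ (fun x _ => hmf x), lintegral_finsetSum _ (fun x _ => hmi x),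
    lintegral_finsetSum _ (fun x _ => hmg x)] at key
  simp_rw [I1, I2, I3] at key
  simpa [Finset.sum_const, nsmul_eq_mul] using key

theorem Phi_le_one (K : V → Measure V) [∀ y, IsProbabilityMeasure (K y)] (n : ℕ) (x : V) (r : V × V → Bool) :
    Phi K n x r ≤ 1 := min_le_left _ _

/-- Amenability, in the form used. -/
def Folner (G : SimpleGraph V) : Prop :=
  ∀ ε : ℝ, 0 < ε → ∃ F : Finset V, F.Nonempty ∧ ((ibd G F).card : ℝ) ≤ ε * F.card

/-- Step 1. -/
theorem step1 (ht : ∀ x y, ∃ φ : G ≃g G, φ x = y) (ham : Folner G) (l1 l2 : ℝ≥0) (hl2 : l2 ≤ 1)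
    (w : ℕ) (hw : 4 ≤ (w : ℝ) * l2) (n : ℕ) (o : V) :
    markLaw (srw G) l1 stepB {a | o ∈ Wset G w a} ≤
      4 * ∫⁻ r, Phi (srw G) n o r ∂(markLaw (srw G) (l1 + l2) hitB) := by
  classical
  set K := srw G with hK
  have i1 : IsProbabilityMeasure (markLaw K l1 stepB) := markLaw_prob K l1 meas_stepB
  have j1 : IsProbabilityMeasure (markLaw K (l1 + l2) hitB) := markLaw_prob K (l1 + l2) meas_hitB
  set ρ := markLaw K l1 stepB {a | o ∈ Wset G w a} with hρ
  set Ψ := ∫⁻ r, Phi K n o r ∂(markLaw K (l1 + l2) hitB) with hΨ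
  have hρ1 : ρ ≤ 1 := prob_le_one
  have hΨ1 : Ψ ≤ 1 := by
    calc Ψ ≤ ∫⁻ _, 1 ∂(markLaw K (l1 + l2) hitB) := lintegral_mono fun r => Phi_le_one K n o r
      _ = 1 := by simp
  have hρt : ρ ≠ ∞ := ne_top_of_le_ne_top ENNReal.one_ne_top hρ1
  have hΨt : Ψ ≠ ∞ := ne_top_of_le_ne_top ENNReal.one_ne_top hΨ1
  set R := ρ.toReal with hR
  set P := Ψ.toReal with hP
  have hR0 : 0 ≤ R := ENNReal.toReal_nonneg
  have hR1 : R ≤ 1 := by
    have := (ENNReal.toReal_le_toReal hρt ENNReal.one_ne_top).2 hρ1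
    simpa using this
  have hP0 : 0 ≤ P := ENNReal.toReal_nonneg
  set a : ℝ := (w : ℝ) * l2 with ha
  have ha0 : 0 ≤ a := by positivity
  have main : ∀ δ : ℝ, 0 < δ → a * R - 2 * R - 2 * (a * P) ≤ δ * (a * R + a + 2 * w) := by
    intro δ hδ
    obtain ⟨m, hm⟩ := exists_nat_gt ((n : ℝ) / δ)
    have hm2 : (n : ℝ) ≤ δ * (m + 1) := by
      rw [div_lt_iff₀ hδ] at hm
      nlinarith
    obtain ⟨u, hu, hF⟩ := avg_ineq G ht l1 l2 hl2 w n m o
    have hut : u ≠ ∞ := by
      intro h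
      rw [h, ENNReal.mul_top (by positivity)] at hu
      exact absurd hu (by simp)
    have hu' : u.toReal ≤ δ := by
      have h1 := (ENNReal.toReal_le_toReal (ENNReal.mul_ne_top (by simp) hut) (by simp)).2 hu
      rw [ENNReal.toReal_mul, ENNReal.toReal_natCast, ENNReal.toReal_natCast] at h1
      push_cast at h1
      have h2 : (0 : ℝ) < m + 1 := by positivity
      by_contra hcon
      push Not at hcon
      nlinarith
    obtain ⟨c, hc⟩ := card_diff_intr G (G.degree o) (fun x => (degree_const G ht x o).le) m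
    obtain ⟨F, hFne, hFb⟩ := ham (δ / (c + 1)) (by positivity)
    have hFc : (0 : ℝ) < F.card := by exact_mod_cast Finset.card_pos.2 hFne
    have h3 := hF F
    have hfin : ∀ x : ℕ, ∀ y : ℝ≥0∞, y ≠ ∞ → ((x : ℝ≥0∞) * y) ≠ ∞ := fun x y hy => ENNReal.mul_ne_top (by simp) hy
    have hwl : (w * l2 : ℝ≥0∞) ≠ ∞ := ENNReal.mul_ne_top (by simp) (by simp)
    have e1 : ((w * l2 : ℝ≥0∞)).toReal = a := by
      rw [ENNReal.toReal_mul, ENNReal.toReal_natCast, ENNReal.coe_toReal]
    have t1 : (w * l2 : ℝ≥0∞) * ((intr G F m).card * u) ≠ ∞ := ENNReal.mul_ne_top hwl (hfin _ _ hut)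
    have t2 : 2 * (F.card * ρ) ≠ ∞ := ENNReal.mul_ne_top (by simp) (hfin _ _ hρt)
    have t3 : 2 * ((w : ℝ≥0∞) * (ibd G F).card) ≠ ∞ := ENNReal.mul_ne_top (by simp) (hfin _ _ (by simp))
    have t4 : 2 * ((w * l2 : ℝ≥0∞) * (F.card * Ψ)) ≠ ∞ :=
      ENNReal.mul_ne_top (by simp) (ENNReal.mul_ne_top hwl (hfin _ _ hΨt))
    have t12 := ENNReal.add_ne_top.2 ⟨t1, t2⟩
    have t123 := ENNReal.add_ne_top.2 ⟨t12, t3⟩
    have h4 := (ENNReal.toReal_le_toReal (ENNReal.mul_ne_top hwl (hfin _ _ hρt))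
      (ENNReal.add_ne_top.2 ⟨t123, t4⟩)).2 h3
    rw [ENNReal.toReal_add t123 t4, ENNReal.toReal_add t12 t3, ENNReal.toReal_add t1 t2] at h4
    simp only [ENNReal.toReal_mul, ENNReal.toReal_natCast, ENNReal.toReal_ofNat, ENNReal.coe_toReal] at h4
    rw [← hR, ← hP, ← ha] at h4
    have h5 : (F.card : ℝ) ≤ (intr G F m).card + c * (ibd G F).card := by exact_mod_cast hc F
    have h5' : ((intr G F m).card : ℝ) ≤ F.card := by
      exact_mod_cast Finset.card_le_card (intr_subset G F m)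
    have hb1 : (c : ℝ) * (ibd G F).card ≤ δ * F.card := by
      calc (c : ℝ) * (ibd G F).card ≤ c * (δ / (c + 1) * F.card) := by gcongr
        _ = (c / (c + 1)) * (δ * F.card) := by field_simp
        _ ≤ 1 * (δ * F.card) := by
            gcongr
            rw [div_le_one (by positivity)]
            linarith
        _ = _ := one_mul _
    have hb2 : ((ibd G F).card : ℝ) ≤ δ * F.card := by
      refine hFb.trans ?_
      gcongr
      apply div_le_self hδ.le
      have : (0 : ℝ) ≤ c := by positivity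
      linarith
    have hI : (F.card : ℝ) * (1 - δ) ≤ (intr G F m).card := by linarith
    have h6 : a * ((F.card * (1 - δ)) * R) ≤ a * ((intr G F m).card * R) := by gcongr
    have h7 : a * ((intr G F m).card * u.toReal) ≤ a * (F.card * δ) := by gcongr
    have h8 : 2 * ((w : ℝ) * (ibd G F).card) ≤ 2 * (w * (δ * F.card)) := by gcongr
    have h9 : (F.card : ℝ) * (a * R - 2 * R - 2 * (a * P)) ≤ F.card * (δ * (a * R + a + 2 * w)) := by
      nlinarith
    exact le_of_mul_le_mul_left h9 hFc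
  have hfinal : a * R - 2 * R - 2 * (a * P) ≤ 0 := by
    by_contra hcon
    push Not at hcon
    set X := a * R - 2 * R - 2 * (a * P) with hX
    set Y := a * R + a + 2 * w with hY
    have hY0 : 0 ≤ Y := by positivity
    have h1 := main (X / (2 * (Y + 1))) (by positivity)
    have h2 : X / (2 * (Y + 1)) * Y ≤ X / 2 := by
      have : X / (2 * (Y + 1)) * Y = (X / 2) * (Y / (Y + 1)) := by field_simp
      rw [this]
      have h3 : Y / (Y + 1) ≤ 1 := by
        rw [div_le_one (by positivity)]; linarith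
      calc X / 2 * (Y / (Y + 1)) ≤ X / 2 * 1 := by gcongr
        _ = X / 2 := mul_one _
    linarith
  have hconc : R ≤ 4 * P := by
    have h1 : a * R ≤ 2 * R + 2 * (a * P) := by linarith
    have h2 : 2 * R ≤ a * R / 2 := by nlinarith
    have h3 : a * (R / 2) ≤ a * (2 * P) := by nlinarith
    have h4 : 0 < a := by linarith
    have := le_of_mul_le_mul_left h3 h4
    linarith
  have e1 : ρ = ENNReal.ofReal R := (ENNReal.ofReal_toReal hρt).symm
  have e2 : Ψ = ENNReal.ofReal P := (ENNReal.ofReal_toReal hΨt).symm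
  rw [e1, e2]
  have e3 : (4 : ℝ≥0∞) = ENNReal.ofReal 4 := by simp
  rw [e3, ← ENNReal.ofReal_mul (by norm_num)]
  exact ENNReal.ofReal_le_ofReal hconc

end Pool.Agent.W5h98.Frog
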