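import Pool.Agent.W5h98.Frog.StepC

/-!
Step 2: in the transient case the cluster of the origin is everything with positive probability.
-/

set_option autoImplicit false
set_option linter.unusedSectionVars false

namespace Pool.Agent.W5h98.Frog
open MeasureTheory ProbabilityTheory Set Filter Relation
open scoped ENNReal NNReal

variable {V : Type*} [MeasurableSpace V] [DiscreteMeasurableSpace V] [Countable V]

section K
variable (K : V → Measure V) [∀ y, IsProbabilityMeasure (K y)]

open Classical in
/-- The hitting mass of `z` from the cluster of `o`. -/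
noncomputable def Hs (o z : V) (r : V × V → Bool) : ℝ≥0∞ :=
  ∑' y, if ReflTransGen (rel r) o y then PL K y (hit z) else 0

theorem measurable_Hs (o z : V) : Measurable (Hs K o z) := by
  classical
  unfold Hs
  apply Measurable.tsum
  intro y
  exact Measurable.ite (measurableSet_rel_rtg o y) measurable_const measurable_const

theorem later_sub_hit (n : ℕ) (z : V) : later n z ⊆ hit z := by
  rintro γ ⟨t, _, h⟩
  exact ⟨t, h⟩

theorem tendsto_Phi (o : V) (hα : ret K o < 1) (r : V × V → Bool) (hr : Hs K o o r ≠ ∞) :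
    Tendsto (fun n => Phi K n o r) atTop (nhds 0) := by
  classical
  have h1 : Tendsto (fun n => ∑' y, if ReflTransGen (rel r) o y then PL K y (later n o) else 0) atTop (nhds 0) := by
    have hc : ∀ f : V → ℝ≥0∞, ∑' y, f y = ∫⁻ y, f y ∂(Measure.count : Measure V) := fun f => (lintegral_count f).symm
    simp_rw [hc]
    have key : Tendsto (fun n => ∫⁻ y, (if ReflTransGen (rel r) o y then PL K y (later n o) else 0) ∂(Measure.count : Measure V))
        atTop (nhds (∫⁻ _ : V, (0 : ℝ≥0∞) ∂(Measure.count : Measure V))) := by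
      apply tendsto_lintegral_of_dominated_convergence (fun y => if ReflTransGen (rel r) o y then PL K y (hit o) else 0)
      · intro n; exact measurable_of_countable _
      · intro n
        apply ae_of_all
        intro y
        by_cases h : ReflTransGen (rel r) o y
        · simp only [h, if_true]
          exact measure_mono (later_sub_hit n o)
        · simp only [h, if_false]
          exact le_refl _
      · rw [← hc]; exact hr
      · apply ae_of_all
        intro y
        by_cases h : ReflTransGen (rel r) o y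
        · simp only [h, if_true]
          exact tendsto_later K o hα y
        · simp only [h, if_false]
          exact tendsto_const_nhds
    rwa [lintegral_zero] at key
  refine tendsto_of_tendsto_of_tendsto_of_le_of_le tendsto_const_nhds h1 (fun _ => zero_le) ?_
  intro n
  exact min_le_right _ _

theorem Hs_pos_of (lam : ℝ≥0) (o : V) (hα : ret K o < 1) {c : ℝ≥0∞} (hc : 0 < c)
    (h : ∀ n, c ≤ ∫⁻ r, Phi K n o r ∂(markLaw K lam hitB)) :
    0 < markLaw K lam hitB {r | Hs K o o r = ∞} := by
  have i1 : IsProbabilityMeasure (markLaw K lam hitB) := markLaw_prob K lam meas_hitB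
  by_contra hcon
  have h0 : markLaw K lam hitB {r | Hs K o o r = ∞} = 0 := le_antisymm (not_lt.1 hcon) zero_le
  have hae : ∀ᵐ r ∂(markLaw K lam hitB), Hs K o o r ≠ ∞ := by
    rw [ae_iff]
    simpa using h0
  have ht : Tendsto (fun n => ∫⁻ r, Phi K n o r ∂(markLaw K lam hitB)) atTop (nhds 0) := by
    have h00 : ∫⁻ _, (0 : ℝ≥0∞) ∂(markLaw K lam hitB) = 0 := lintegral_zero
    rw [← h00]
    apply tendsto_lintegral_of_dominated_convergence (fun _ => 1)
    · intro n; exact measurable_Phi K n o
    · intro n; exact ae_of_all _ fun r => Phi_le_one K n o r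
    · simp
    · filter_upwards [hae] with r hr
      exact tendsto_Phi K o hα r hr
  have := ge_of_tendsto' ht h
  exact absurd (lt_of_lt_of_le hc this) (lt_irrefl _)

theorem Hs_all (o : V) (hirr : ∀ z, PL K o (hit z) ≠ 0) (r : V × V → Bool) (hr : Hs K o o r = ∞) (z : V) :
    Hs K o z r = ∞ := by
  classical
  have h1 : Hs K o o r * PL K o (hit z) ≤ Hs K o z r := by
    unfold Hs
    rw [← ENNReal.tsum_mul_right]
    apply ENNReal.tsum_le_tsum
    intro y
    split_ifs
    · exact PL_hit_mul K y o z
    · simp
  rw [hr, ENNReal.top_mul (hirr z)] at h1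
  exact top_le_iff.1 h1

open Classical in
theorem third_avoid (lam : ℝ≥0) (C : Finset V) (z : V) :
    markLaw K lam hitB {r | ∀ y ∈ C, r (y, z) = false} = ex (lam * ∑ y ∈ C, PL K y (hit z)) := by
  have h1 := markLaw_avoid K lam (B := hitB) meas_hitB (C.image (fun y => (y, z)))
  have h2 : {b : V × V → Bool | ∀ p ∈ C.image (fun y => (y, z)), b p = false} = {r | ∀ y ∈ C, r (y, z) = false} := by
    ext b
    simp
  rw [h2] at h1
  rw [h1]
  congr 2
  rw [tsum_eq_sum (s := C)]
  · apply Finset.sum_congr rfl
    intro y hy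
    congr 1
    ext γ
    simp only [secA, mem_iUnion, Finset.mem_image, hitB]
    constructor
    · rintro ⟨p, ⟨y', hy', rfl⟩, _, h⟩; exact h
    · intro h; exact ⟨(y, z), ⟨y, hy, rfl⟩, rfl, h⟩
  · intro y hy
    have : secA hitB (C.image (fun y => (y, z))) y = ∅ := by
      apply secA_empty
      rw [Finset.mem_image]
      rintro ⟨p, hp, rfl⟩
      obtain ⟨y', hy', rfl⟩ := Finset.mem_image.1 hp
      exact hy hy'
    rw [this, measure_empty]

theorem tendsto_ex : Tendsto (fun N : ℕ => ex (N : ℝ≥0∞)) atTop (nhds 0) := by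
  have h1 : Tendsto (fun N : ℕ => Real.exp (-(N : ℝ))) atTop (nhds 0) :=
    Real.tendsto_exp_neg_atTop_nhds_zero.comp tendsto_natCast_atTop_atTop
  have h2 := ENNReal.tendsto_ofReal h1
  rw [ENNReal.ofReal_zero] at h2
  refine h2.congr fun N => ?_
  unfold ex
  rw [ENNReal.toReal_natCast]

theorem ex_anti {a b : ℝ≥0∞} (hb : b ≠ ∞) (h : a ≤ b) : ex b ≤ ex a := by
  unfold ex
  apply ENNReal.ofReal_le_ofReal
  rw [Real.exp_le_exp]
  have := (ENNReal.toReal_le_toReal (ne_top_of_le_ne_top hb h) hb).2 h
  linarith

/-- With infinite hitting mass, the third family hits. -/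
theorem third_hit (lam : ℝ≥0) (hlam : 0 < lam) (o z : V) (r : V × V → Bool) (hr : Hs K o z r = ∞) :
    markLaw K lam hitB {s | ∀ y, ReflTransGen (rel r) o y → s (y, z) = false} = 0 := by
  classical
  have hN : ∀ N : ℕ, markLaw K lam hitB {s | ∀ y, ReflTransGen (rel r) o y → s (y, z) = false} ≤ ex N := by
    intro N
    have h1 : ((N : ℝ≥0∞) / lam) < Hs K o z r := by
      rw [hr]
      exact ENNReal.div_lt_top (by simp) (by simpa using hlam.ne')
    unfold Hs at h1
    rw [ENNReal.tsum_eq_iSup_sum, lt_iSup_iff] at h1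
    obtain ⟨C, hC⟩ := h1
    rw [← Finset.sum_filter] at hC
    set C' := C.filter (fun y => ReflTransGen (rel r) o y) with hC'
    calc markLaw K lam hitB {s | ∀ y, ReflTransGen (rel r) o y → s (y, z) = false}
        ≤ markLaw K lam hitB {s | ∀ y ∈ C', s (y, z) = false} := by
          apply measure_mono
          intro s hs y hy
          exact hs y (Finset.mem_filter.1 hy).2
      _ = ex (lam * ∑ y ∈ C', PL K y (hit z)) := third_avoid K lam C' z
      _ ≤ ex N := by
          apply ex_anti
          · exact ENNReal.mul_ne_top (by simp) (ENNReal.sum_ne_top.2 fun y _ => measure_ne_top _ _)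
          · rw [ENNReal.div_lt_iff (Or.inl (by simpa using hlam.ne')) (Or.inl (by simp))] at hC
            rw [mul_comm]
            exact hC.le
  exact le_antisymm (ge_of_tendsto' tendsto_ex hN) zero_le

theorem measurableSet_all (x : V) : MeasurableSet {r : V × V → Bool | ∀ z, ReflTransGen (rel r) x z} := by
  have : {r : V × V → Bool | ∀ z, ReflTransGen (rel r) x z} = ⋂ z, {r | ReflTransGen (rel r) x z} := by
    ext r; simp
  rw [this]
  exact MeasurableSet.iInter fun z => measurableSet_rel_rtg x z

/-- Positive probability of full coverage. -/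
theorem cover_pos (l l3 : ℝ≥0) (h3 : 0 < l3) (o : V) (hirr : ∀ z, PL K o (hit z) ≠ 0)
    (h : 0 < markLaw K l hitB {r | Hs K o o r = ∞}) :
    0 < markLaw K (l + l3) hitB {r | ∀ z, ReflTransGen (rel r) o z} := by
  have j1 : IsProbabilityMeasure (markLaw K l hitB) := markLaw_prob K l meas_hitB
  have j3 : IsProbabilityMeasure (markLaw K l3 hitB) := markLaw_prob K l3 meas_hitB
  have hadd := markLaw_add K l l3 (B := hitB) meas_hitB
  have hadd2 : ((markLaw K l hitB).prod (markLaw K l3 hitB)).map (fun q => orB q.1 q.2) = markLaw K (l + l3) hitB := hadd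
  have hmD : MeasurableSet {r | Hs K o o r = ∞} := measurable_Hs K o o (measurableSet_singleton ∞)
  refine lt_of_lt_of_le h ?_
  rw [← hadd2, Measure.map_apply measurable_orB (measurableSet_all o),
    Measure.prod_apply (measurable_orB (measurableSet_all o)), ← lintegral_indicator_one hmD]
  apply lintegral_mono
  intro r
  rw [Set.indicator_apply]
  split_ifs with hr
  · rw [Pi.one_apply]
    have h0 : markLaw K l3 hitB (⋃ z, {s | ∀ y, ReflTransGen (rel r) o y → s (y, z) = false}) = 0 := by
      rw [measure_iUnion_null_iff]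
      intro z
      exact third_hit K l3 h3 o z r (Hs_all K o hirr r hr z)
    have h1 : (⋃ z, {s : V × V → Bool | ∀ y, ReflTransGen (rel r) o y → s (y, z) = false})ᶜ ⊆
        Prod.mk r ⁻¹' ((fun q : (V × V → Bool) × (V × V → Bool) => orB q.1 q.2) ⁻¹' {r | ∀ z, ReflTransGen (rel r) o z}) := by
      intro s hs z
      rw [mem_compl_iff, mem_iUnion, not_exists] at hs
      have h2 := hs z
      rw [mem_ofPred_eq] at h2
      push Not at h2
      obtain ⟨y, hy, hyz⟩ := h2
      have h3 : ReflTransGen (rel (orB r s)) o y :=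
        ReflTransGen.lift id (fun a b hab => rel_orB.2 (Or.inl hab)) _ _ hy
      refine h3.tail (rel_orB.2 (Or.inr ?_))
      show s (y, z) = true
      simpa using hyz
    refine le_trans ?_ (measure_mono h1)
    have h4 : (1 : ℝ≥0∞) ≤ markLaw K l3 hitB univ := by rw [measure_univ]
    refine h4.trans ?_
    have h5 : (univ : Set (V × V → Bool)) ⊆ (⋃ z, {s | ∀ y, ReflTransGen (rel r) o y → s (y, z) = false}) ∪
        (⋃ z, {s : V × V → Bool | ∀ y, ReflTransGen (rel r) o y → s (y, z) = false})ᶜ := by
      rw [union_compl_self]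
    refine (measure_mono h5).trans ((measure_union_le _ _).trans ?_)
    rw [h0, zero_add]
  · exact zero_le

end K

section G
variable (G : SimpleGraph V) [G.LocallyFinite] [∀ y, IsProbabilityMeasure (srw G y)]

theorem irred (hc : G.Connected) (x z : V) : PL (srw G) x (hit z) ≠ 0 := by
  obtain ⟨p⟩ := hc.preconnected x z
  induction p with
  | nil => rw [PL_hit_self]; exact one_ne_zero
  | @cons u v w h q ih =>
    intro h0
    have h1 := PL_hit_super (srw G) u w
    rw [h0] at h1
    have h2 := ENNReal.tsum_eq_zero.1 (le_antisymm h1 zero_le) v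
    rcases mul_eq_zero.1 h2 with h3 | h3
    · exact srw_ne_zero G h h3
    · exact ih h3

theorem exists_split (lam : ℝ≥0) (hlam : 0 < lam) :
    ∃ l1 l2 l3 : ℝ≥0, 0 < l1 ∧ 0 < l2 ∧ l2 ≤ 1 ∧ 0 < l3 ∧ l1 + l2 + l3 = lam := by
  refine ⟨lam / 3, min 1 (lam / 3), lam - (lam / 3 + min 1 (lam / 3)), by positivity, ?_, min_le_left _ _, ?_, ?_⟩
  · exact lt_min one_pos (by positivity)
  · rw [tsub_pos_iff_lt]
    calc lam / 3 + min 1 (lam / 3) ≤ lam / 3 + lam / 3 := by gcongr; exact min_le_right _ _
      _ < lam / 3 + lam / 3 + lam / 3 := by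
          apply lt_add_of_pos_right; positivity
      _ = lam := by
          apply NNReal.eq
          push_cast
          ring
  · apply add_tsub_cancel_of_le
    calc lam / 3 + min 1 (lam / 3) ≤ lam / 3 + lam / 3 := by gcongr; exact min_le_right _ _
      _ ≤ lam / 3 + lam / 3 + lam / 3 := le_self_add
      _ = lam := by
          apply NNReal.eq
          push_cast
          ring

/-- Step 2. -/
theorem step2 [Infinite V] (hc : G.Connected) (ht : ∀ x y, ∃ φ : G ≃g G, φ x = y) (ham : Folner G) (lam : ℝ≥0)
    (hlam : 0 < lam) (o : V) (hα : ret (srw G) o < 1) :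
    0 < markLaw (srw G) lam hitB {r | ∀ z, ReflTransGen (rel r) o z} := by
  obtain ⟨l1, l2, l3, h1, h2, h21, h3, rfl⟩ := exists_split lam hlam
  apply cover_pos (srw G) (l1 + l2) l3 h3 o (irred G hc o)
  obtain ⟨w, hw⟩ := exists_nat_gt ((4 : ℝ) / l2)
  have hw' : 4 ≤ (w : ℝ) * l2 := by
    have : (0 : ℝ) < l2 := by exact_mod_cast h2
    rw [div_lt_iff₀ this] at hw
    exact hw.le
  have hρ := rho_pos G hc h1 w o
  apply Hs_pos_of (srw G) (l1 + l2) o hα (c := markLaw (srw G) l1 stepB {a | o ∈ Wset G w a} / 4)
  · exact ENNReal.div_pos hρ.ne' (by simp)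
  · intro n
    have := step1 G ht ham l1 l2 h21 w hw' n o
    exact ENNReal.div_le_of_le_mul' this

end G

end Pool.Agent.W5h98.Frog
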