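import Pool.Agent.W5h98.Frog.StepD

/-!
Step 3: every infinite set contains a vertex whose cluster is everything.
-/

set_option autoImplicit false
set_option linter.unusedSectionVars false

namespace Pool.Agent.W5h98.Frog
open MeasureTheory ProbabilityTheory Set Filter Relation
open scoped ENNReal NNReal

section general
variable {ι X : Type*} [MeasurableSpace X]

/-- The event depends only on the coordinates in `T`. -/
def DepX (T : Set ι) (E : Set (ι → X)) : Prop := ∀ ω ω', (∀ t ∈ T, ω t = ω' t) → ω ∈ E → ω' ∈ E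

open Classical in
/-- Extension by a default value. -/
noncomputable def extX (x0 : X) (T : Finset ι) (π : T → X) : ι → X := fun i => if h : i ∈ T then π ⟨i, h⟩ else x0

theorem measurable_extX (x0 : X) (T : Finset ι) : Measurable (extX x0 T) := by
  classical
  rw [measurable_pi_iff]
  intro i
  unfold extX
  by_cases h : i ∈ T
  · simp only [h, dif_pos]
    exact measurable_pi_apply _
  · simp only [h, dif_neg, not_false_iff]
    exact measurable_const

theorem DepX.pre (x0 : X) {T : Finset ι} {E : Set (ι → X)} (h : DepX (T : Set ι) E) :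
    E = (fun (ω : ι → X) (i : T) => ω i) ⁻¹' (extX x0 T ⁻¹' E) := by
  classical
  ext ω
  have hag : ∀ t ∈ (T : Set ι), ω t = extX x0 T (fun i : T => ω i) t := by
    intro t ht
    have ht' : t ∈ T := ht
    simp only [extX, ht', dif_pos]
  constructor
  · intro hω; exact h _ _ hag hω
  · intro hω; exact h _ _ (fun t ht => (hag t ht).symm) hω

theorem DepX.indep (μ : ι → Measure X) [∀ i, IsProbabilityMeasure (μ i)] (x0 : X) {T1 T2 : Finset ι}
    {E1 E2 : Set (ι → X)} (h1 : DepX (T1 : Set ι) E1) (h2 : DepX (T2 : Set ι) E2) (m1 : MeasurableSet E1)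
    (m2 : MeasurableSet E2) (hd : Disjoint T1 T2) :
    Measure.infinitePi μ (E1 ∩ E2) = Measure.infinitePi μ E1 * Measure.infinitePi μ E2 := by
  have hind : iIndepFun (fun (i : ι) (ω : ι → X) => ω i) (Measure.infinitePi μ) :=
    iIndepFun_infinitePi (X := fun _ ω => ω) (by fun_prop)
  have := hind.indepFun_finset T1 T2 hd (fun i => measurable_pi_apply i)
  have key := this.measure_inter_preimage_eq_mul _ _ (measurable_extX x0 T1 m1) (measurable_extX x0 T2 m2)
  rw [← h1.pre x0, ← h2.pre x0] at key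
  exact key

/-- A Chebyshev bound. -/
theorem cheb {Ω : Type*} [MeasurableSpace Ω] (P : Measure Ω) [IsProbabilityMeasure P] {ι : Type*}
    (I : Finset ι) (E : ι → Set Ω) (hE : ∀ i, MeasurableSet (E i)) (τ δ : ℝ)
    (hτ : ∀ i ∈ I, P.real (E i) = τ) (hδ0 : 0 ≤ δ)
    (hδ : ∀ i ∈ I, ∀ j ∈ I, i ≠ j → P.real (E i ∩ E j) ≤ τ ^ 2 + δ) (N : Set Ω) (hN : MeasurableSet N)
    (hNE : ∀ ω ∈ N, ∀ i ∈ I, ω ∉ E i) :
    ((I.card : ℝ) * τ) ^ 2 * P.real N ≤ I.card + (I.card : ℝ) ^ 2 * δ := by
  classical
  set f : ι → Ω → ℝ := fun i ω => (E i).indicator 1 ω - τ with hf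
  have hfi : ∀ i, Measurable (f i) := fun i => (measurable_one.indicator (hE i)).sub measurable_const
  have hind : ∀ i ω, (E i).indicator (1 : Ω → ℝ) ω ≤ 1 ∧ 0 ≤ (E i).indicator (1 : Ω → ℝ) ω := by
    intro i ω
    rw [Set.indicator_apply]
    split_ifs <;> simp
  have hint : ∀ i j, Integrable (fun ω => f i ω * f j ω) P := by
    intro i j
    refine Integrable.of_bound ((hfi i).mul (hfi j)).aestronglyMeasurable ((1 + |τ|) * (1 + |τ|)) ?_
    apply ae_of_all
    intro ω
    rw [norm_mul]
    have hb : ∀ i, ‖f i ω‖ ≤ 1 + |τ| := by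
      intro i
      rw [Real.norm_eq_abs]
      calc |(E i).indicator (1 : Ω → ℝ) ω - τ| ≤ |(E i).indicator (1 : Ω → ℝ) ω| + |τ| := abs_sub _ _
        _ ≤ 1 + |τ| := by
            gcongr
            rw [abs_of_nonneg (hind i ω).2]
            exact (hind i ω).1
    gcongr
    · exact hb i
    · exact hb j
  have hcov : ∀ i ∈ I, ∀ j ∈ I, ∫ ω, f i ω * f j ω ∂P = P.real (E i ∩ E j) - τ ^ 2 := by
    intro i hi j hj
    have h1 : ∀ ω, f i ω * f j ω = (E i ∩ E j).indicator 1 ω - τ * (E i).indicator 1 ω -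
        τ * (E j).indicator 1 ω + τ ^ 2 := by
      intro ω
      simp only [hf, Set.indicator_apply, mem_inter_iff, Pi.one_apply]
      by_cases h1 : ω ∈ E i <;> by_cases h2 : ω ∈ E j <;> simp [h1, h2] <;> ring
    simp_rw [h1]
    have i1 : Integrable (fun ω => (E i ∩ E j).indicator (1 : Ω → ℝ) ω) P :=
      (integrable_const (1 : ℝ)).indicator ((hE i).inter (hE j))
    have i2 : ∀ i, Integrable (fun ω => τ * (E i).indicator (1 : Ω → ℝ) ω) P :=
      fun i => ((integrable_const (1 : ℝ)).indicator (hE i)).const_mul τ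
    have i12 : Integrable (fun ω => (E i ∩ E j).indicator (1 : Ω → ℝ) ω - τ * (E i).indicator (1 : Ω → ℝ) ω) P :=
      i1.sub (i2 i)
    have i123 : Integrable (fun ω => (E i ∩ E j).indicator (1 : Ω → ℝ) ω - τ * (E i).indicator (1 : Ω → ℝ) ω -
        τ * (E j).indicator (1 : Ω → ℝ) ω) P := i12.sub (i2 j)
    rw [integral_add i123 (integrable_const _), integral_sub i12 (i2 j),
      integral_sub i1 (i2 i), integral_const_mul, integral_const_mul, integral_const]
    rw [integral_indicator_one ((hE i).inter (hE j)), integral_indicator_one (hE i), integral_indicator_one (hE j),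
      hτ i hi, hτ j hj]
    simp
    ring
  have hsq : ∀ ω, (∑ i ∈ I, f i ω) ^ 2 = ∑ i ∈ I, ∑ j ∈ I, f i ω * f j ω := by
    intro ω
    rw [sq, Finset.sum_mul_sum]
  have hint2 : Integrable (fun ω => (∑ i ∈ I, f i ω) ^ 2) P := by
    simp_rw [hsq]
    exact integrable_finsetSum _ fun i _ => integrable_finsetSum _ fun j _ => hint i j
  have hE2 : ∫ ω, (∑ i ∈ I, f i ω) ^ 2 ∂P ≤ I.card + (I.card : ℝ) ^ 2 * δ := by
    simp_rw [hsq]
    rw [integral_finsetSum _ (fun i _ => integrable_finsetSum _ fun j _ => hint i j)]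
    have h2 : ∀ i ∈ I, ∫ ω, ∑ j ∈ I, f i ω * f j ω ∂P = ∑ j ∈ I, (P.real (E i ∩ E j) - τ ^ 2) := by
      intro i hi
      rw [integral_finsetSum _ (fun j _ => hint i j)]
      exact Finset.sum_congr rfl fun j hj => hcov i hi j hj
    rw [Finset.sum_congr rfl h2]
    have h3 : ∀ i ∈ I, ∑ j ∈ I, (P.real (E i ∩ E j) - τ ^ 2) ≤ 1 + I.card * δ := by
      intro i hi
      calc ∑ j ∈ I, (P.real (E i ∩ E j) - τ ^ 2) ≤ ∑ j ∈ I, ((if j = i then 1 else 0) + δ) := by
            apply Finset.sum_le_sum
            intro j hj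
            split_ifs with h
            · have : P.real (E i ∩ E j) ≤ 1 := measureReal_le_one
              nlinarith [sq_nonneg τ]
            · have := hδ i hi j hj (fun h' => h h'.symm)
              linarith
        _ = 1 + I.card * δ := by
            rw [Finset.sum_add_distrib, Finset.sum_ite_eq' I i, if_pos hi, Finset.sum_const, nsmul_eq_mul]
    calc _ ≤ ∑ i ∈ I, (1 + (I.card : ℝ) * δ) := Finset.sum_le_sum h3
      _ = _ := by rw [Finset.sum_const, nsmul_eq_mul]; ring
  refine le_trans ?_ hE2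
  calc ((I.card : ℝ) * τ) ^ 2 * P.real N = ∫ ω, N.indicator (fun _ => ((I.card : ℝ) * τ) ^ 2) ω ∂P := by
        rw [integral_indicator hN, setIntegral_const, smul_eq_mul, mul_comm]
    _ ≤ ∫ ω, (∑ i ∈ I, f i ω) ^ 2 ∂P := by
        apply integral_mono ((integrable_const _).indicator hN) hint2
        intro ω
        simp only [Set.indicator_apply]
        split_ifs with h
        · apply le_of_eq
          have : ∀ i ∈ I, f i ω = -τ := by
            intro i hi
            simp only [hf, Set.indicator_apply, if_neg (hNE ω h i hi), zero_sub]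
          rw [Finset.sum_congr rfl this, Finset.sum_const, nsmul_eq_mul]
          ring
        · positivity

end general

end Pool.Agent.W5h98.Frog
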