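import Pool.Agent.W5h98.Frog.StepE

/-!
Step 3, continued.
-/

set_option autoImplicit false
set_option linter.unusedSectionVars false

namespace Pool.Agent.W5h98.Frog
open MeasureTheory ProbabilityTheory Set Filter Relation
open scoped ENNReal NNReal

variable {V : Type*}

theorem sparse (G : SimpleGraph V) [G.LocallyFinite] (R : ℕ) {S : Set V} (hS : S.Infinite) (N : ℕ) :
    ∃ I : Finset V, (∀ i ∈ I, i ∈ S) ∧ I.card = N ∧
      ∀ i ∈ I, ∀ j ∈ I, i ≠ j → Disjoint (bll G i R) (bll G j R) := by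
  classical
  induction N with
  | zero => exact ⟨∅, by simp, rfl, by simp⟩
  | succ N ih =>
    obtain ⟨I, h1, h2, h3⟩ := ih
    have hfin : (⋃ i ∈ I, ⋃ u ∈ bll G i R, bll G u R).Finite :=
      Set.Finite.biUnion I.finite_toSet fun i _ => Set.Finite.biUnion (bll_finite G R i) fun u _ => bll_finite G R u
    obtain ⟨x, hxS, hx⟩ := hS.exists_notMem_finite hfin
    have hdis : ∀ i ∈ I, Disjoint (bll G i R) (bll G x R) := by
      intro i hi
      rw [Set.disjoint_left]
      intro u hu hux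
      apply hx
      simp only [mem_iUnion]
      exact ⟨i, hi, u, hu, bll_symm G hux⟩
    have hxI : x ∉ I := by
      intro hxI
      have := hdis x hxI
      rw [Set.disjoint_left] at this
      exact this (self_mem_bll G x R) (self_mem_bll G x R)
    refine ⟨insert x I, ?_, ?_, ?_⟩
    · intro i hi
      rcases Finset.mem_insert.1 hi with rfl | hi
      · exact hxS
      · exact h1 i hi
    · rw [Finset.card_insert_of_notMem hxI, h2]
    · intro i hi j hj hij
      rcases Finset.mem_insert.1 hi with h4 | hi <;> rcases Finset.mem_insert.1 hj with h5 | hj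
      · exact absurd (h4.trans h5.symm) hij
      · rw [h4]; exact (hdis j hj).symm
      · rw [h5]; exact hdis i hi
      · exact h3 i hi j hj hij

section sets
variable (G : SimpleGraph V)

/-- Full coverage from `x`. -/
def Es (x : V) : Set (V × V → Bool) := {r | ∀ z, ReflTransGen (rel r) x z}

/-- Coverage of a ball. -/
def ERs (x : V) (R' : ℕ) : Set (V × V → Bool) := {r | ∀ z ∈ bll G x R', ReflTransGen (rel r) x z}

/-- The relation with sources in a ball. -/
def relB (x : V) (R : ℕ) (r : V × V → Bool) (u v : V) : Prop := u ∈ bll G x R ∧ rel r u v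

/-- Coverage of a ball with sources in a ball. -/
def Ls (x : V) (R' R : ℕ) : Set (V × V → Bool) := {r | ∀ z ∈ bll G x R', ReflTransGen (relB G x R r) x z}

theorem rtg_mono {R R' : V → V → Prop} (h : ∀ u v, R u v → R' u v) {x y : V} (hxy : ReflTransGen R x y) :
    ReflTransGen R' x y := by
  induction hxy with
  | refl => exact ReflTransGen.refl
  | tail _ hc ih => exact ih.tail (h _ _ hc)

theorem Ls_sub (x : V) (R' R : ℕ) : Ls G x R' R ⊆ ERs G x R' :=
  fun _ hr z hz => rtg_mono (fun _ _ h => h.2) (hr z hz)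

theorem Es_sub (x : V) (R' : ℕ) : Es x ⊆ ERs G x R' := fun _ hr z _ => hr z

theorem Ls_mono (x : V) (R' : ℕ) {R1 R2 : ℕ} (h : R1 ≤ R2) : Ls G x R' R1 ⊆ Ls G x R' R2 :=
  fun _ hr z hz => rtg_mono (fun _ _ h1 => ⟨bll_mono G x h h1.1, h1.2⟩) (hr z hz)

theorem ERs_anti (x : V) {R1 R2 : ℕ} (h : R1 ≤ R2) : ERs G x R2 ⊆ ERs G x R1 :=
  fun _ hr z hz => hr z (bll_mono G x h hz)

theorem exists_relB (hc : G.Connected) (x : V) (r : V × V → Bool) {z : V} (h : ReflTransGen (rel r) x z) :
    ∃ R, ReflTransGen (relB G x R r) x z := by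
  induction h with
  | refl => exact ⟨0, ReflTransGen.refl⟩
  | @tail b c _ hc2 ih =>
    obtain ⟨R1, h1⟩ := ih
    obtain ⟨R2, h2⟩ := exists_mem_bll G hc x b
    refine ⟨max R1 R2, ?_⟩
    have h3 : ReflTransGen (relB G x (max R1 R2) r) x b :=
      rtg_mono (fun _ _ h => ⟨bll_mono G x (le_max_left _ _) h.1, h.2⟩) h1
    exact h3.tail ⟨bll_mono G x (le_max_right _ _) h2, hc2⟩

theorem iUnion_Ls (hc : G.Connected) [G.LocallyFinite] (x : V) (R' : ℕ) : ⋃ R, Ls G x R' R = ERs G x R' := by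
  classical
  apply Set.Subset.antisymm
  · exact iUnion_subset fun R => Ls_sub G x R' R
  · intro r hr
    have h1 : ∀ z, ∃ R, z ∈ bll G x R' → ReflTransGen (relB G x R r) x z := by
      intro z
      by_cases hz : z ∈ bll G x R'
      · obtain ⟨R, hR⟩ := exists_relB G hc x r (hr z hz)
        exact ⟨R, fun _ => hR⟩
      · exact ⟨0, fun h => absurd h hz⟩
    choose f hf using h1
    rw [mem_iUnion]
    refine ⟨(bll_finite G R' x).toFinset.sup f, fun z hz => ?_⟩
    refine rtg_mono (fun _ _ h => ⟨bll_mono G x ?_ h.1, h.2⟩) (hf z hz)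
    exact Finset.le_sup (f := f) ((Set.Finite.mem_toFinset _).2 hz)

theorem iInter_ERs (hc : G.Connected) (x : V) : ⋂ R', ERs G x R' = Es x := by
  apply Set.Subset.antisymm
  · intro r hr z
    obtain ⟨n, hn⟩ := exists_mem_bll G hc x z
    exact mem_iInter.1 hr n z hn
  · exact subset_iInter fun R' => Es_sub G x R'

theorem measurableSet_Es [Countable V] (x : V) : MeasurableSet (Es x) := by
  have : Es x = ⋂ z, {r : V × V → Bool | ReflTransGen (rel r) x z} := by
    ext r; simp [Es]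
  rw [this]
  exact MeasurableSet.iInter fun z => measurableSet_rel_rtg x z

theorem measurableSet_ERs [Countable V] (x : V) (R' : ℕ) : MeasurableSet (ERs G x R') := by
  have : ERs G x R' = ⋂ z, ⋂ _ : z ∈ bll G x R', {r : V × V → Bool | ReflTransGen (rel r) x z} := by
    ext r; simp [ERs]
  rw [this]
  exact MeasurableSet.iInter fun z => MeasurableSet.iInter fun _ => measurableSet_rel_rtg x z

theorem measurableSet_Ls [Countable V] (x : V) (R' R : ℕ) : MeasurableSet (Ls G x R' R) := by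
  have : Ls G x R' R = ⋂ z, ⋂ _ : z ∈ bll G x R', {r : V × V → Bool | ReflTransGen (relB G x R r) x z} := by
    ext r; simp [Ls]
  rw [this]
  refine MeasurableSet.iInter fun z => MeasurableSet.iInter fun _ => measurableSet_rtg _ (fun u v => ?_) x z
  have h1 : {r : V × V → Bool | relB G x R r u v} = {_r | u ∈ bll G x R} ∩ {r | rel r u v} := by
    ext r; rfl
  have h2 : Measurable (fun r : V × V → Bool => r (u, v)) := measurable_pi_apply _
  rw [h1]
  exact (MeasurableSet.const _).inter (h2 (measurableSet_singleton true))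

theorem Es_tr (φ : G ≃g G) (x : V) (r : V × V → Bool) : tr φ r ∈ Es x ↔ r ∈ Es (φ x) := by
  constructor
  · intro h z
    have := (rel_tr φ.toEquiv r x (φ.symm z)).1 (h _)
    simpa using this
  · intro h z
    exact (rel_tr φ.toEquiv r x z).2 (h _)

theorem ERs_tr (φ : G ≃g G) (x : V) (R' : ℕ) (r : V × V → Bool) : tr φ r ∈ ERs G x R' ↔ r ∈ ERs G (φ x) R' := by
  constructor
  · intro h z hz
    have hz' : φ.symm z ∈ bll G x R' := by
      rw [← bll_map_iff G φ]; simpa using hz
    have := (rel_tr φ.toEquiv r x (φ.symm z)).1 (h _ hz')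
    simpa using this
  · intro h z hz
    exact (rel_tr φ.toEquiv r x z).2 (h _ (bll_map G φ hz))

theorem Ls_tr (φ : G ≃g G) (x : V) (R' R : ℕ) (r : V × V → Bool) : tr φ r ∈ Ls G x R' R ↔ r ∈ Ls G (φ x) R' R := by
  have hr : ∀ y, ReflTransGen (relB G x R (tr φ r)) x y ↔ ReflTransGen (relB G (φ x) R r) (φ x) (φ y) :=
    fun y => rtg_equiv φ.toEquiv (R := relB G (φ x) R r) (R' := relB G x R (tr φ r)) (fun u v => by
      have : u ∈ bll G x R ↔ φ u ∈ bll G (φ x) R := (bll_map_iff G φ).symm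
      exact and_congr this Iff.rfl) x y
  constructor
  · intro h z hz
    have hz' : φ.symm z ∈ bll G x R' := by
      rw [← bll_map_iff G φ]; simpa using hz
    have := (hr (φ.symm z)).1 (h _ hz')
    simpa using this
  · intro h z hz
    exact (hr z).2 (h _ (bll_map G φ hz))

end sets

variable [MeasurableSpace V] [DiscreteMeasurableSpace V] [Countable V]
variable (G : SimpleGraph V) [G.LocallyFinite] [∀ y, IsProbabilityMeasure (srw G y)]

theorem law_tr (lam : ℝ≥0) (φ : G ≃g G) {A B : Set (V × V → Bool)} (hA : MeasurableSet A)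
    (h : ∀ r, tr φ r ∈ A ↔ r ∈ B) : (markLaw (srw G) lam hitB).real B = (markLaw (srw G) lam hitB).real A := by
  have hφ : ∀ x z, srw G (φ x) {φ z} = srw G x {z} := srw_equiv G φ
  have h1 := markLaw_equiv (srw G) lam (B := hitB) meas_hitB φ.toEquiv hφ φ.toEquiv (hitB_equiv φ.toEquiv)
  have h2 : (markLaw (srw G) lam hitB).map (tr φ) = markLaw (srw G) lam hitB := h1
  have h3 : markLaw (srw G) lam hitB B = markLaw (srw G) lam hitB A := by
    conv_rhs => rw [← h2]
    rw [Measure.map_apply (measurable_tr φ) hA]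
    congr 1
    ext r
    exact (h r).symm
  simp only [measureReal_def, h3]

theorem dep_Ls (x : V) (R' R : ℕ) :
    DepX (((bll_finite G R x).toFinset : Finset V) : Set V) {ω : Cfg V | Mb hitB ω ∈ Ls G x R' R} := by
  intro ω ω' h hω z hz
  refine rtg_mono ?_ (hω z hz)
  intro u v huv
  refine ⟨huv.1, ?_⟩
  have hu : ω u = ω' u := h u (by rw [Set.Finite.coe_toFinset]; exact huv.1)
  have h2 := huv.2
  unfold rel at h2 ⊢
  rw [Mb_true] at h2 ⊢
  unfold Mk at h2 ⊢
  simp only at h2 ⊢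
  rwa [← hu]

/-- Almost independence of far away coverage events. -/
theorem almost_indep (hc : G.Connected) (ht : ∀ x y, ∃ φ : G ≃g G, φ x = y) (lam : ℝ≥0) (o : V) (τ : ℝ)
    (hτ : τ = (markLaw (srw G) lam hitB).real (Es o)) (ε : ℝ) (hε : 0 < ε) (hε1 : ε ≤ 1) :
    ∃ R, ∀ x y, Disjoint (bll G x R) (bll G y R) →
      (cfgLaw (srw G) lam).real ({ω | Mb hitB ω ∈ Es x} ∩ {ω | Mb hitB ω ∈ Es y}) ≤ τ ^ 2 + 5 * ε := by
  classical
  set K := srw G with hK
  set M := markLaw K lam hitB with hM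
  have i1 : IsProbabilityMeasure M := markLaw_prob K lam meas_hitB
  have hτ0 : 0 ≤ τ := by rw [hτ]; exact measureReal_nonneg
  have hτ1 : τ ≤ 1 := by rw [hτ]; exact measureReal_le_one
  -- the radius `R'`
  have hA : ∃ R', M.real (ERs G o R') ≤ τ + ε := by
    have h1 : Tendsto (fun R' => M (ERs G o R')) atTop (nhds (M (⋂ R', ERs G o R'))) := by
      apply tendsto_measure_iInter_atTop
      · intro n; exact (measurableSet_ERs G o n).nullMeasurableSet
      · intro a b hab; exact ERs_anti G o hab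
      · exact ⟨0, measure_ne_top _ _⟩
    rw [iInter_ERs G hc o] at h1
    have h2 : Tendsto (fun R' => M.real (ERs G o R')) atTop (nhds (M.real (Es o))) :=
      (ENNReal.tendsto_toReal (measure_ne_top _ _)).comp h1
    rw [← hτ] at h2
    exact ((h2.eventually (gt_mem_nhds (show τ < τ + ε by linarith))).exists).imp fun _ h => h.le
  obtain ⟨R', hR'⟩ := hA
  have hB : ∃ R, M.real (ERs G o R' \ Ls G o R' R) ≤ ε := by
    have h1 : Tendsto (fun R => M (Ls G o R' R)) atTop (nhds (M (⋃ R, Ls G o R' R))) := by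
      apply tendsto_measure_iUnion_atTop
      intro a b hab; exact Ls_mono G o R' hab
    rw [iUnion_Ls G hc o R'] at h1
    have h2 : Tendsto (fun R => M.real (Ls G o R' R)) atTop (nhds (M.real (ERs G o R'))) :=
      (ENNReal.tendsto_toReal (measure_ne_top _ _)).comp h1
    obtain ⟨R, hR⟩ := (h2.eventually (lt_mem_nhds (show M.real (ERs G o R') - ε < M.real (ERs G o R') by linarith))).exists
    refine ⟨R, ?_⟩
    rw [measureReal_sdiff (Ls_sub G o R' R) (measurableSet_Ls G o R' R)]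
    linarith
  obtain ⟨R, hR⟩ := hB
  refine ⟨R, fun x y hxy => ?_⟩
  set P := cfgLaw K lam with hP
  have hmap : ∀ A : Set (V × V → Bool), MeasurableSet A → P.real {ω | Mb hitB ω ∈ A} = M.real A := by
    intro A hA
    simp only [measureReal_def]
    rw [hM, markLaw, Measure.map_apply (measurable_Mb meas_hitB) hA]
    rfl
  have hEx : ∀ x, M.real (ERs G x R') ≤ τ + ε := by
    intro x
    obtain ⟨φ, rfl⟩ := ht o x
    rw [law_tr G lam φ (measurableSet_ERs G o R') (ERs_tr G φ o R')]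
    exact hR'
  have hLx : ∀ x, M.real (ERs G x R' \ Ls G x R' R) ≤ ε := by
    intro x
    obtain ⟨φ, rfl⟩ := ht o x
    have h1 : ∀ r, tr φ r ∈ ERs G o R' \ Ls G o R' R ↔ r ∈ ERs G (φ o) R' \ Ls G (φ o) R' R :=
      fun r => and_congr (ERs_tr G φ o R' r) (not_congr (Ls_tr G φ o R' R r))
    rw [law_tr G lam φ ((measurableSet_ERs G o R').diff (measurableSet_Ls G o R' R)) h1]
    exact hR
  have hmL : ∀ x, MeasurableSet {ω : Cfg V | Mb hitB ω ∈ Ls G x R' R} :=
    fun x => (measurable_Mb meas_hitB) (measurableSet_Ls G x R' R)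
  have hind : P.real ({ω : Cfg V | Mb hitB ω ∈ Ls G x R' R} ∩ {ω : Cfg V | Mb hitB ω ∈ Ls G y R' R}) =
      P.real {ω : Cfg V | Mb hitB ω ∈ Ls G x R' R} * P.real {ω : Cfg V | Mb hitB ω ∈ Ls G y R' R} := by
    have := DepX.indep (fun _ : V => oneLaw K lam) ((0, fun _ _ v => v) : ℕ × (ℕ → ℕ → V → V))
      (dep_Ls G x R' R) (dep_Ls G y R' R) (hmL x) (hmL y) (by
        rw [Finset.disjoint_left]
        intro u hu hu2
        rw [Set.Finite.mem_toFinset] at hu hu2
        exact Set.disjoint_left.1 hxy hu hu2)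
    simp only [measureReal_def]
    rw [hP, cfgLaw, this, ENNReal.toReal_mul]
  have hLle : ∀ x, P.real {ω : Cfg V | Mb hitB ω ∈ Ls G x R' R} ≤ τ + ε := by
    intro x
    rw [hmap _ (measurableSet_Ls G x R' R)]
    exact (measureReal_mono (Ls_sub G x R' R) (measure_ne_top _ _)).trans (hEx x)
  have hsub : ({ω : Cfg V | Mb hitB ω ∈ Es x} ∩ {ω | Mb hitB ω ∈ Es y}) ⊆
      ({ω : Cfg V | Mb hitB ω ∈ Ls G x R' R} ∩ {ω : Cfg V | Mb hitB ω ∈ Ls G y R' R}) ∪
      ({ω | Mb hitB ω ∈ ERs G x R' \ Ls G x R' R} ∪ {ω | Mb hitB ω ∈ ERs G y R' \ Ls G y R' R}) := by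
    rintro ω ⟨h1, h2⟩
    by_cases h3 : Mb hitB ω ∈ Ls G x R' R
    · by_cases h4 : Mb hitB ω ∈ Ls G y R' R
      · exact Or.inl ⟨h3, h4⟩
      · exact Or.inr (Or.inr ⟨Es_sub G y R' h2, h4⟩)
    · exact Or.inr (Or.inl ⟨Es_sub G x R' h1, h3⟩)
  calc P.real ({ω | Mb hitB ω ∈ Es x} ∩ {ω | Mb hitB ω ∈ Es y})
      ≤ P.real (({ω : Cfg V | Mb hitB ω ∈ Ls G x R' R} ∩ {ω : Cfg V | Mb hitB ω ∈ Ls G y R' R}) ∪
      ({ω | Mb hitB ω ∈ ERs G x R' \ Ls G x R' R} ∪ {ω | Mb hitB ω ∈ ERs G y R' \ Ls G y R' R})) :=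
        measureReal_mono hsub (measure_ne_top _ _)
    _ ≤ P.real ({ω : Cfg V | Mb hitB ω ∈ Ls G x R' R} ∩ {ω : Cfg V | Mb hitB ω ∈ Ls G y R' R}) +
      (P.real {ω | Mb hitB ω ∈ ERs G x R' \ Ls G x R' R} + P.real {ω | Mb hitB ω ∈ ERs G y R' \ Ls G y R' R}) := by
        refine (measureReal_union_le _ _).trans ?_
        gcongr
        exact measureReal_union_le _ _
    _ ≤ (τ + ε) * (τ + ε) + (ε + ε) := by
        rw [hind, hmap _ ((measurableSet_ERs G x R').diff (measurableSet_Ls G x R' R)),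
          hmap _ ((measurableSet_ERs G y R').diff (measurableSet_Ls G y R' R))]
        gcongr
        · exact hLle x
        · exact hLle y
        · exact hLx x
        · exact hLx y
    _ ≤ τ ^ 2 + 5 * ε := by nlinarith

/-- Every infinite set contains a vertex with full coverage, almost surely. -/
theorem inf_hit (hc : G.Connected) (ht : ∀ x y, ∃ φ : G ≃g G, φ x = y) (lam : ℝ≥0) (o : V)
    (hτ : 0 < markLaw (srw G) lam hitB (Es o)) {S : Set V} (hS : S.Infinite) :
    cfgLaw (srw G) lam {ω | ∀ x ∈ S, Mb hitB ω ∉ Es x} = 0 := by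
  classical
  set K := srw G with hK
  have i1 : IsProbabilityMeasure (markLaw K lam hitB) := markLaw_prob K lam meas_hitB
  set τ := (markLaw K lam hitB).real (Es o) with hτd
  have hτ0 : 0 < τ := by
    rw [hτd, measureReal_def]
    exact ENNReal.toReal_pos hτ.ne' (measure_ne_top _ _)
  have hτ1 : τ ≤ 1 := by rw [hτd]; exact measureReal_le_one
  set P := cfgLaw K lam with hP
  have hmE : ∀ x, MeasurableSet {ω : Cfg V | Mb hitB ω ∈ Es x} :=
    fun x => (measurable_Mb meas_hitB) (measurableSet_Es x)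
  have hPE : ∀ x, P.real {ω : Cfg V | Mb hitB ω ∈ Es x} = τ := by
    intro x
    obtain ⟨φ, rfl⟩ := ht o x
    have h1 : P.real {ω : Cfg V | Mb hitB ω ∈ Es (φ o)} = (markLaw K lam hitB).real (Es (φ o)) := by
      simp only [measureReal_def]
      rw [markLaw, Measure.map_apply (measurable_Mb meas_hitB) (measurableSet_Es _)]
      rfl
    rw [h1, law_tr G lam φ (measurableSet_Es o) (Es_tr G φ o)]
  set N0 : Set (Cfg V) := {ω | ∀ x ∈ S, Mb hitB ω ∉ Es x} with hN0
  have hmN : MeasurableSet N0 := by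
    have : N0 = ⋂ x, ⋂ _ : x ∈ S, {ω : Cfg V | Mb hitB ω ∈ Es x}ᶜ := by
      ext ω; simp [hN0]
    rw [this]
    exact MeasurableSet.iInter fun x => MeasurableSet.iInter fun _ => (hmE x).compl
  have hmain : ∀ ε : ℝ, 0 < ε → ε ≤ 1 → ∀ N : ℕ, 0 < N → τ ^ 2 * P.real N0 ≤ 1 / N + 5 * ε := by
    intro ε hε hε1 N hN
    obtain ⟨R, hR⟩ := almost_indep G hc ht lam o τ hτd ε hε hε1
    obtain ⟨I, hI1, hI2, hI3⟩ := sparse G R hS N
    have := cheb P I (fun x => {ω : Cfg V | Mb hitB ω ∈ Es x}) hmE τ (5 * ε) (fun x _ => hPE x) (by positivity)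
      (fun i hi j hj hij => hR i j (hI3 i hi j hj hij)) N0 hmN (fun ω hω i hi => hω i (hI1 i hi))
    rw [hI2] at this
    have hN' : (0 : ℝ) < N := by exact_mod_cast hN
    have h1 : (N : ℝ) ^ 2 * (τ ^ 2 * P.real N0) ≤ (N : ℝ) ^ 2 * (1 / N + 5 * ε) := by
      have h2 : (N : ℝ) ^ 2 * (1 / N + 5 * ε) = N + (N : ℝ) ^ 2 * (5 * ε) := by field_simp
      rw [h2]
      nlinarith
    exact le_of_mul_le_mul_left h1 (by positivity)
  have hzero : P.real N0 = 0 := by
    by_contra hne
    have hq : 0 < P.real N0 := lt_of_le_of_ne measureReal_nonneg (Ne.symm hne)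
    have hq1 : P.real N0 ≤ 1 := measureReal_le_one
    set c := τ ^ 2 * P.real N0 with hc2
    have hc0 : 0 < c := by positivity
    have hc1 : c ≤ 1 := by
      have : τ ^ 2 ≤ 1 := by nlinarith
      nlinarith
    obtain ⟨N, hN⟩ := exists_nat_gt (4 / c)
    have hNpos : (0 : ℝ) < N := lt_trans (by positivity) hN
    have h1 := hmain (c / 20) (by positivity) (by linarith) N (by exact_mod_cast hNpos)
    have h2 : 1 / (N : ℝ) < c / 4 := by
      rw [div_lt_iff₀ hNpos]
      rw [div_lt_iff₀ hc0] at hN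
      linarith
    linarith
  rw [measureReal_def, ENNReal.toReal_eq_zero_iff] at hzero
  rcases hzero with h | h
  · exact h
  · exact absurd h (measure_ne_top _ _)

end Pool.Agent.W5h98.Frog
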