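import Pool.Agent.W5h98.Frog.StepF

/-!
Final assembly: full coverage given that there is a particle at the origin.
-/

set_option autoImplicit false
set_option linter.unusedSectionVars false

namespace Pool.Agent.W5h98.Frog
open MeasureTheory ProbabilityTheory Set Filter Relation
open scoped ENNReal NNReal

variable {V : Type*} [MeasurableSpace V] [DiscreteMeasurableSpace V] [Countable V]

section K
variable (K : V → Measure V) [∀ y, IsProbabilityMeasure (K y)]

open Classical in
theorem measurable_upd (o : V) : Measurable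
    (fun p : (ℕ × (ℕ → ℕ → V → V)) × Cfg V => Function.update p.2 o p.1) := by
  rw [measurable_pi_iff]
  intro i
  by_cases h : i = o
  · subst h
    simp only [Function.update_self]
    exact measurable_fst
  · simp only [Function.update_of_ne h]
    exact (measurable_pi_apply i).comp measurable_snd

open Classical in
theorem cfg_update (lam : ℝ≥0) (o : V) :
    ((oneLaw K lam).prod (cfgLaw K lam)).map
      (fun p : (ℕ × (ℕ → ℕ → V → V)) × Cfg V => Function.update p.2 o p.1) = cfgLaw K lam := by
  have hprob : IsProbabilityMeasure (((oneLaw K lam).prod (cfgLaw K lam)).map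
      (fun p : (ℕ × (ℕ → ℕ → V → V)) × Cfg V => Function.update p.2 o p.1)) :=
    Measure.isProbabilityMeasure_map (measurable_upd o).aemeasurable
  apply Measure.eq_infinitePi
  intro s t ht
  rw [Measure.map_apply (measurable_upd o) (MeasurableSet.pi s.countable_toSet fun i _ => ht i)]
  have hpre : (fun p : (ℕ × (ℕ → ℕ → V → V)) × Cfg V => Function.update p.2 o p.1) ⁻¹' (Set.pi s t) =
      (if o ∈ s then t o else univ) ×ˢ (Set.pi ((s.erase o : Finset V) : Set V) t) := by
    ext ⟨a, b⟩
    simp only [mem_preimage, Set.mem_pi, Finset.mem_coe, mem_prod, Finset.mem_erase]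
    constructor
    · intro h
      refine ⟨?_, fun i hi => ?_⟩
      · split_ifs with h0
        · have := h o h0
          rwa [Function.update_self] at this
        · trivial
      · have := h i hi.2
        rwa [Function.update_of_ne hi.1] at this
    · rintro ⟨h0, h1⟩ i hi
      by_cases hio : i = o
      · subst hio
        rw [if_pos hi] at h0
        rw [Function.update_self]; exact h0
      · rw [Function.update_of_ne hio]
        exact h1 i ⟨hio, hi⟩
  rw [hpre, Measure.prod_prod, cfgLaw, Measure.infinitePi_pi _ (fun i _ => ht i)]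
  by_cases h0 : o ∈ s
  · rw [if_pos h0, Finset.mul_prod_erase s (fun i => oneLaw K lam (t i)) h0]
  · rw [if_neg h0, measure_univ, one_mul, Finset.erase_eq_of_notMem h0]

theorem oneLaw_path (lam : ℝ≥0) (o : V) {A : Set (ℕ → V)} (hA : MeasurableSet A) :
    oneLaw K lam {a | pos (a.2 0) o ∈ A} = PL K o A := by
  have hm1 : Measurable (fun s : ℕ → ℕ → V → V => s 0) := measurable_pi_apply 0
  have h1 : {a : ℕ × (ℕ → ℕ → V → V) | pos (a.2 0) o ∈ A} = univ ×ˢ ((fun s : ℕ → ℕ → V → V => s 0) ⁻¹' ((fun s => pos s o) ⁻¹' A)) := by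
    ext a; simp
  have h2 : Measure.infinitePi (fun _ : ℕ => insLaw K) ((fun s : ℕ → ℕ → V → V => s 0) ⁻¹' ((fun s => pos s o) ⁻¹' A)) =
      insLaw K ((fun s => pos s o) ⁻¹' A) := by
    rw [← Measure.map_apply hm1 (measurable_pos o hA), Measure.infinitePi_map_eval]
  rw [h1, oneLaw, Measure.prod_prod, measure_univ, one_mul, h2]
  exact (Measure.map_apply (measurable_pos o) hA).symm

theorem oneLaw_zero (lam : ℝ≥0) : 0 < oneLaw K lam {a | a.1 = 0} := by
  have h1 : {a : ℕ × (ℕ → ℕ → V → V) | a.1 = 0} = {0} ×ˢ univ := by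
    ext a; simp
  rw [h1, oneLaw, Measure.prod_prod, measure_univ, mul_one, poissonMeasure_singleton]
  rw [ENNReal.ofReal_pos]
  positivity

/-- A transient walk has infinite range. -/
theorem range_inf (o : V) (hα : ∀ z, ret K z < 1) : PL K o {γ | ¬ (Set.range γ).Infinite} = 0 := by
  have hsub : {γ : ℕ → V | ¬ (Set.range γ).Infinite} ⊆ ⋃ z, ⋂ n, later n z := by
    intro γ hγ
    rw [mem_ofPred_eq, Set.not_infinite] at hγ
    by_contra hcon
    simp only [mem_iUnion, mem_iInter, not_exists, not_forall] at hcon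
    choose f hf using hcon
    set N := hγ.toFinset.sup f with hN
    have h1 : f (γ N) ≤ N := Finset.le_sup (f := f) ((Set.Finite.mem_toFinset _).2 ⟨N, rfl⟩)
    exact hf (γ N) ⟨N, h1, rfl⟩
  refine measure_mono_null hsub ?_
  rw [measure_iUnion_null_iff]
  intro z
  have h1 := tendsto_later K z (hα z) o
  have h2 : ∀ n, PL K o (⋂ n, later n z) ≤ PL K o (later n z) := fun n => measure_mono (iInter_subset _ n)
  exact le_antisymm (ge_of_tendsto' h1 h2) zero_le

theorem measurableSet_range_inf : MeasurableSet {γ : ℕ → V | ¬ (Set.range γ).Infinite} := by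
  have : {γ : ℕ → V | ¬ (Set.range γ).Infinite} = ⋃ F : Finset V, ⋂ t : ℕ, {γ | γ t ∈ (F : Set V)} := by
    ext γ
    rw [mem_ofPred_eq, Set.not_infinite]
    simp only [mem_iUnion, mem_iInter, mem_ofPred_eq]
    constructor
    · intro h
      exact ⟨h.toFinset, fun t => by rw [Set.Finite.coe_toFinset]; exact ⟨t, rfl⟩⟩
    · rintro ⟨F, hF⟩
      apply F.finite_toSet.subset
      rintro _ ⟨t, rfl⟩
      exact hF t
  rw [this]
  exact MeasurableSet.iUnion fun F => MeasurableSet.iInter fun t => measurableSet_coord t _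

/-- If bad configurations have probability zero for almost every choice at `o`. -/
theorem bad_of_ae (lam : ℝ≥0) (o : V) {B : Set (Cfg V)} (hB : MeasurableSet B)
    (h : ∀ᵐ a ∂(oneLaw K lam), cfgLaw K lam {ω | (by classical exact Function.update ω o a) ∈ B} = 0) :
    cfgLaw K lam B = 0 := by
  classical
  rw [← cfg_update K lam o, Measure.map_apply (measurable_upd o) hB, Measure.prod_apply (measurable_upd o hB)]
  rw [lintegral_eq_zero_iff (measurable_measure_prodMk_left (measurable_upd o hB))]
  filter_upwards [h] with a ha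
  rw [Pi.zero_apply, ← ha]
  congr 1

end K

section G
variable (G : SimpleGraph V) [G.LocallyFinite] [∀ y, IsProbabilityMeasure (srw G y)]

open Classical in
/-- Full coverage from an infinite set without the particles of `o`. -/
theorem inf_hit_off (hc : G.Connected) (ht : ∀ x y, ∃ φ : G ≃g G, φ x = y) (lam : ℝ≥0) (o : V)
    (hτ : 0 < markLaw (srw G) lam hitB (Es o)) {S : Set V} (hS : S.Infinite) :
    cfgLaw (srw G) lam {ω | ∀ x ∈ S, Mb hitB (Function.update ω o ((0, fun _ _ v => v) : ℕ × (ℕ → ℕ → V → V))) ∉ Es x} = 0 := by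
  set K := srw G with hK
  have h0 := inf_hit G hc ht lam o hτ hS
  have hmN : MeasurableSet {ω : Cfg V | ∀ x ∈ S, Mb hitB ω ∉ Es x} := by
    have : {ω : Cfg V | ∀ x ∈ S, Mb hitB ω ∉ Es x} = ⋂ x, ⋂ _ : x ∈ S, {ω : Cfg V | Mb hitB ω ∈ Es x}ᶜ := by
      ext ω; simp
    rw [this]
    exact MeasurableSet.iInter fun x => MeasurableSet.iInter fun _ =>
      ((measurable_Mb meas_hitB) (measurableSet_Es x)).compl
  rw [← cfg_update K lam o, Measure.map_apply (measurable_upd o) hmN,
    Measure.prod_apply (measurable_upd o hmN),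
    lintegral_eq_zero_iff (measurable_measure_prodMk_left (measurable_upd o hmN))] at h0
  have hpos := oneLaw_zero K lam
  have hex : ∃ a : ℕ × (ℕ → ℕ → V → V), a.1 = 0 ∧ cfgLaw K lam (Prod.mk a ⁻¹'
      ((fun p : (ℕ × (ℕ → ℕ → V → V)) × Cfg V => Function.update p.2 o p.1) ⁻¹' {ω : Cfg V | ∀ x ∈ S, Mb hitB ω ∉ Es x})) = 0 := by
    by_contra hcon
    push Not at hcon
    have : oneLaw K lam {a | a.1 = 0} ≤ oneLaw K lam {a | ¬ cfgLaw K lam (Prod.mk a ⁻¹'
      ((fun p : (ℕ × (ℕ → ℕ → V → V)) × Cfg V => Function.update p.2 o p.1) ⁻¹' {ω : Cfg V | ∀ x ∈ S, Mb hitB ω ∉ Es x})) = 0} :=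
      measure_mono fun a ha => hcon a ha
    have h2 : oneLaw K lam {a | ¬ cfgLaw K lam (Prod.mk a ⁻¹'
      ((fun p : (ℕ × (ℕ → ℕ → V → V)) × Cfg V => Function.update p.2 o p.1) ⁻¹' {ω : Cfg V | ∀ x ∈ S, Mb hitB ω ∉ Es x})) = 0} = 0 := h0
    rw [h2] at this
    exact absurd (lt_of_lt_of_le hpos this) (lt_irrefl _)
  obtain ⟨a, ha, ha2⟩ := hex
  rw [← ha2]
  congr 1
  ext ω
  simp only [mem_preimage, mem_ofPred_eq]
  have : Mb hitB (Function.update ω o ((0, fun _ _ v => v) : ℕ × (ℕ → ℕ → V → V))) = Mb hitB (Function.update ω o a) := by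
    funext p
    have h3 : Mk hitB (Function.update ω o ((0, fun _ _ v => v) : ℕ × (ℕ → ℕ → V → V))) p ↔ Mk hitB (Function.update ω o a) p := by
      unfold Mk
      by_cases hp : p.1 = o
      · rw [hp, Function.update_self, Function.update_self, ha]
        simp
      · rw [Function.update_of_ne hp, Function.update_of_ne hp]
    simp only [Mb, h3]
  rw [this]

theorem ret_const (ht : ∀ x y, ∃ φ : G ≃g G, φ x = y) (x y : V) : ret (srw G) x = ret (srw G) y := by
  obtain ⟨φ, rfl⟩ := ht x y
  unfold ret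
  conv_rhs => rw [← Equiv.tsum_eq φ.toEquiv]
  apply tsum_congr
  intro w
  have h1 : srw G (φ x) {φ w} = srw G x {w} := srw_equiv G φ x w
  have h2 := PL_equiv (srw G) φ.toEquiv (srw_equiv G φ) w (measurableSet_hit (φ x))
  have h3 : PL (srw G) (φ w) (hit (φ x)) = PL (srw G) w {γ | (fun t => φ (γ t)) ∈ hit (φ x)} := h2
  have h4 : {γ : ℕ → V | (fun t => φ (γ t)) ∈ hit (φ x)} = hit x := by
    ext γ
    simp [hit]
  have h5 : srw G (φ x) {φ.toEquiv w} * PL (srw G) (φ.toEquiv w) (hit (φ x)) = srw G (φ x) {φ w} * PL (srw G) (φ w) (hit (φ x)) := rfl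
  rw [h5, h1, h3, h4]

theorem rec_hit (hc : G.Connected) (z : V) (hα : ret (srw G) z = 1) (x : V) : PL (srw G) x (hit z) = 1 := by
  obtain ⟨p⟩ := hc.preconnected x z
  induction p with
  | nil => exact PL_hit_self _ _
  | @cons u v w h q ih =>
    have h1 := ih hα
    have hne : srw G v {u} ≠ 0 := srw_ne_zero G h.symm
    by_cases hvw : v = w
    · subst hvw
      exact hit_of_ret (srw G) v hα u hne
    · exact hit_of_nbr (srw G) h1 hvw hne

/-- Full coverage, in discrete time. -/
theorem cover_all [Infinite V] (hc : G.Connected) (ht : ∀ x y, ∃ φ : G ≃g G, φ x = y) (ham : Folner G) (lam : ℝ≥0)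
    (hlam : 0 < lam) (o : V) :
    cfgLaw (srw G) lam {ω | 0 < (ω o).1 ∧ Mb hitB ω ∉ Es o} = 0 := by
  classical
  set K := srw G with hK
  have hmB : MeasurableSet {ω : Cfg V | 0 < (ω o).1 ∧ Mb hitB ω ∉ Es o} := by
    have h1 : MeasurableSet {ω : Cfg V | 0 < (ω o).1} := by
      have h2 : Measurable (fun ω : Cfg V => (ω o).1) := measurable_fst.comp (measurable_pi_apply o)
      have h3 : MeasurableSet {n : ℕ | 0 < n} := MeasurableSet.of_discrete
      exact h2 h3
    exact h1.inter ((measurable_Mb meas_hitB) (measurableSet_Es o)).compl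
  apply bad_of_ae K lam o hmB
  have hle : ret K o ≤ 1 := tsum_K_mul_le K o _ 1 fun _ => prob_le_one
  rcases hle.lt_or_eq with hα | hα
  · -- transient
    have hτ := step2 G hc ht ham lam hlam o hα
    have hall : ∀ z, ret K z < 1 := fun z => by rw [ret_const G ht z o]; exact hα
    have hae : ∀ᵐ a ∂(oneLaw K lam), pos (a.2 0) o ∉ {γ | ¬ (Set.range γ).Infinite} := by
      rw [ae_iff]
      have : {a : ℕ × (ℕ → ℕ → V → V) | ¬ pos (a.2 0) o ∉ {γ | ¬ (Set.range γ).Infinite}} =
          {a | pos (a.2 0) o ∈ {γ | ¬ (Set.range γ).Infinite}} := by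
        ext a; simp
      rw [this, oneLaw_path K lam o measurableSet_range_inf]
      exact range_inf K o hall
    filter_upwards [hae] with a ha
    have hS : (Set.range (pos (a.2 0) o)).Infinite := by
      by_contra hcon
      exact ha hcon
    refine measure_mono_null ?_ (inf_hit_off G hc ht lam o hτ hS)
    intro ω hω x hx hcov
    obtain ⟨hpos, hbad⟩ := hω
    apply hbad
    intro z
    have hstep : ∀ u v, rel (Mb hitB (Function.update ω o ((0, fun _ _ v => v) : ℕ × (ℕ → ℕ → V → V)))) u v →
        rel (Mb hitB (Function.update ω o a)) u v := by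
      intro u v huv
      unfold rel at huv ⊢
      rw [Mb_true] at huv ⊢
      obtain ⟨k, hk, h1⟩ := huv
      by_cases hu : u = o
      · subst hu
        simp only [Function.update_self] at hk
        exact absurd hk (Nat.not_lt_zero k)
      · simp only [Function.update_of_ne hu] at hk h1
        exact ⟨k, by simpa only [Function.update_of_ne hu] using hk, by simpa only [Function.update_of_ne hu] using h1⟩
    have h1 : ReflTransGen (rel (Mb hitB (Function.update ω o a))) x z := rtg_mono hstep (hcov z)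
    have h2 : rel (Mb hitB (Function.update ω o a)) o x := by
      unfold rel
      rw [Mb_true]
      refine ⟨0, hpos, ?_⟩
      simp only [Function.update_self]
      exact hx
    exact (ReflTransGen.single h2).trans h1
  · -- recurrent
    have hall : ∀ z, ret K z = 1 := fun z => by rw [ret_const G ht z o]; exact hα
    have hcovP : PL K o (⋃ z, (hit z)ᶜ) = 0 := by
      rw [measure_iUnion_null_iff]
      intro z
      rw [prob_compl_eq_zero_iff (measurableSet_hit z)]
      exact rec_hit G hc z (hall z) o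
    have hmU : MeasurableSet (⋃ z : V, (hit z)ᶜ) := MeasurableSet.iUnion fun z => (measurableSet_hit z).compl
    have hae : ∀ᵐ a ∂(oneLaw K lam), pos (a.2 0) o ∉ (⋃ z, (hit z)ᶜ) := by
      rw [ae_iff]
      have : {a : ℕ × (ℕ → ℕ → V → V) | ¬ pos (a.2 0) o ∉ (⋃ z, (hit z)ᶜ)} = {a | pos (a.2 0) o ∈ (⋃ z, (hit z)ᶜ)} := by
        ext a; simp
      rw [this, oneLaw_path K lam o hmU]
      exact hcovP
    filter_upwards [hae] with a ha
    have hempty : {ω : Cfg V | Function.update ω o a ∈ {ω : Cfg V | 0 < (ω o).1 ∧ Mb hitB ω ∉ Es o}} = ∅ := by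
      ext ω
      simp only [mem_ofPred_eq, mem_empty_iff_false, iff_false, not_and, not_not]
      intro hpos z
      apply ReflTransGen.single
      unfold rel
      rw [Mb_true]
      refine ⟨0, hpos, ?_⟩
      simp only [Function.update_self]
      by_contra hcon
      exact ha (mem_iUnion.2 ⟨z, hcon⟩)
    have h2 : cfgLaw K lam {ω : Cfg V | Function.update ω o a ∈ {ω : Cfg V | 0 < (ω o).1 ∧ Mb hitB ω ∉ Es o}} = 0 := by
      rw [hempty, measure_empty]
    exact h2

end G

end Pool.Agent.W5h98.Frog
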