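import Pool.Agent.W5h98.Frog.Hit

/-!
The trace of the walk on a set `W`: the law of the place of the `(n+1)`-st visit to `W`.
-/

set_option autoImplicit false
set_option linter.unusedSectionVars false

namespace Pool.Agent.W5h98.Frog
open MeasureTheory ProbabilityTheory Set Filter
open scoped ENNReal

variable {V : Type*} [MeasurableSpace V] [DiscreteMeasurableSpace V] [Countable V]
variable (K : V → Measure V) [∀ y, IsProbabilityMeasure (K y)]

open Classical in
/-- The indicator of `W`. -/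
noncomputable def oneW (W : Set V) (x : V) : ℤ := if x ∈ W then 1 else 0

/-- The probability to be at `y` at time `t` after `m` visits to `W`. -/
noncomputable def fr (W : Set V) (t : ℕ) (m : ℤ) (x y : V) : ℝ≥0∞ :=
  PL K x {γ | γ t = y ∧ (cnt W γ t : ℤ) = m}

theorem measurableSet_fr (W : Set V) (t : ℕ) (m : ℤ) (y : V) :
    MeasurableSet {γ : ℕ → V | γ t = y ∧ (cnt W γ t : ℤ) = m} :=
  (measurableSet_coord_eq t y).inter (measurableSet_cnt W t (fun n => (n : ℤ) = m))

open Classical in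
theorem fr_first (W : Set V) (t : ℕ) (m : ℤ) (x y : V) :
    fr K W (t + 1) m x y = ∑' z, K x {z} * fr K W t (m - oneW W x) z y := by
  apply PL_step' K x (measurableSet_fr W (t + 1) m y)
  intro γ
  simp only [mem_ofPred_eq, hcons_succ, cnt_hcons_succ]
  have : ((cnt W γ t + (if x ∈ W then 1 else 0) : ℕ) : ℤ) = (cnt W γ t : ℤ) + oneW W x := by
    unfold oneW
    split_ifs <;> simp
  rw [this]
  constructor
  · rintro ⟨h1, h2⟩; exact ⟨h1, by omega⟩
  · rintro ⟨h1, h2⟩; exact ⟨h1, by omega⟩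

open Classical in
theorem fr_zero (W : Set V) (m : ℤ) (x y : V) :
    fr K W 0 m x y = if x = y ∧ m = oneW W x then 1 else 0 := by
  have hc : ∀ γ : ℕ → V, γ 0 = x → (cnt W γ 0 : ℤ) = oneW W x := by
    intro γ hγ
    rw [cnt_zero, hγ]
    unfold oneW
    split_ifs <;> simp
  split_ifs with h
  · obtain ⟨rfl, hm⟩ := h
    apply PL_eq_one K x (measurableSet_fr W 0 m x)
    intro γ hγ
    exact ⟨hγ, by rw [hc γ hγ, hm]⟩
  · apply PL_eq_zero
    rintro γ h0 ⟨h1, h2⟩
    apply h
    exact ⟨h0.symm.trans h1, by rw [← h2, hc γ h0]⟩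

theorem fr_last (W : Set V) (t : ℕ) (m : ℤ) (x y : V) :
    fr K W (t + 1) m x y = ∑' z, fr K W t (m - oneW W y) x z * K z {y} := by
  classical
  induction t generalizing m x with
  | zero =>
    rw [fr_first]
    simp_rw [fr_zero]
    rw [tsum_eq_single y, tsum_eq_single x]
    · have : (m - oneW W x = oneW W y) ↔ (m - oneW W y = oneW W x) := by
        constructor <;> intro h <;> omega
      by_cases h : m - oneW W x = oneW W y
      · rw [if_pos ⟨rfl, h⟩, if_pos ⟨rfl, this.1 h⟩, mul_one, one_mul]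
      · rw [if_neg (fun h' => h h'.2), if_neg (fun h' => h (this.2 h'.2)), mul_zero, zero_mul]
    · intro z hz
      rw [if_neg (fun h' => hz h'.1.symm), zero_mul]
    · intro z hz
      rw [if_neg (fun h' => hz h'.1), mul_zero]
  | succ t ih =>
    rw [fr_first]
    simp_rw [ih]
    have h2 : ∀ z, fr K W (t + 1) (m - oneW W y) x z =
        ∑' w, K x {w} * fr K W t (m - oneW W x - oneW W y) w z := by
      intro z
      rw [fr_first]
      have : m - oneW W y - oneW W x = m - oneW W x - oneW W y := by ring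
      rw [this]
    simp_rw [h2, ← ENNReal.tsum_mul_right, ← ENNReal.tsum_mul_left]
    rw [ENNReal.tsum_comm]
    apply tsum_congr; intro z
    apply tsum_congr; intro w
    rw [mul_assoc]

theorem fr_symm (hK : ∀ x y, K x {y} = K y {x}) (W : Set V) (t : ℕ) (m : ℤ) (x y : V) :
    fr K W t m x y = fr K W t m y x := by
  classical
  induction t generalizing m x y with
  | zero =>
    rw [fr_zero, fr_zero]
    by_cases h : x = y
    · subst h; rfl
    · rw [if_neg (fun h' => h h'.1), if_neg (fun h' => h h'.1.symm)]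
  | succ t ih =>
    rw [fr_first, fr_last]
    apply tsum_congr
    intro z
    rw [ih, hK x z, mul_comm]

/-- The `(n+1)`-st visit to `W` is at `y`. -/
def Hitn (W : Set V) (n : ℕ) (y : V) : Set (ℕ → V) := {γ | ∃ t, γ t = y ∧ y ∈ W ∧ cnt W γ t = n + 1}

theorem cnt_lt {W : Set V} {γ : ℕ → V} {t t' : ℕ} (h : t < t') (ht : γ t' ∈ W) :
    cnt W γ t < cnt W γ t' := by
  obtain ⟨s, rfl⟩ : ∃ s, t' = s + 1 := ⟨t' - 1, by omega⟩
  rw [cnt_succ, if_pos ht]
  have : cnt W γ t ≤ cnt W γ s := cnt_mono W γ (by omega)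
  omega

theorem Hitn_unique {W : Set V} {n : ℕ} {y y' : V} {γ : ℕ → V} (h : γ ∈ Hitn W n y)
    (h' : γ ∈ Hitn W n y') : y = y' := by
  obtain ⟨t, h1, h2, h3⟩ := h
  obtain ⟨t', h1', h2', h3'⟩ := h'
  rcases lt_trichotomy t t' with hlt | heq | hlt
  · have := cnt_lt (W := W) (γ := γ) hlt (h1'.symm ▸ h2')
    omega
  · subst heq; exact h1.symm.trans h1'
  · have := cnt_lt (W := W) (γ := γ) hlt (h1.symm ▸ h2)
    omega

theorem measurableSet_Hitn (W : Set V) (n : ℕ) (y : V) : MeasurableSet (Hitn W n y) := by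
  have : Hitn W n y = ⋃ t : ℕ, {γ : ℕ → V | γ t = y ∧ (y ∈ W ∧ cnt W γ t = n + 1)} := by
    ext γ; simp [Hitn]
  rw [this]
  apply MeasurableSet.iUnion
  intro t
  exact (measurableSet_coord_eq t y).inter ((MeasurableSet.const _).inter
    (measurableSet_cnt W t (fun k => k = n + 1)))

theorem Hitn_empty {W : Set V} (n : ℕ) {y : V} (hy : y ∉ W) : Hitn W n y = ∅ := by
  ext γ
  simp only [Hitn, mem_ofPred_eq, mem_empty_iff_false, iff_false]
  rintro ⟨t, _, h, _⟩
  exact hy h

theorem PL_Hitn (W : Set V) (n : ℕ) (x : V) {y : V} (hy : y ∈ W) :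
    PL K x (Hitn W n y) = ∑' t, fr K W t (n + 1) x y := by
  have : Hitn W n y = ⋃ t : ℕ, {γ : ℕ → V | γ t = y ∧ (cnt W γ t : ℤ) = ((n : ℤ) + 1)} := by
    ext γ
    simp only [Hitn, mem_ofPred_eq, mem_iUnion]
    constructor
    · rintro ⟨t, h1, h2, h3⟩; exact ⟨t, h1, by rw [h3]; simp⟩
    · rintro ⟨t, h1, h2⟩; exact ⟨t, h1, hy, by exact_mod_cast h2⟩
  rw [this, measure_iUnion]
  · rfl
  · intro t t' hne
    apply Set.disjoint_left.2
    rintro γ ⟨h1, h2⟩ ⟨h3, h4⟩
    rcases lt_or_gt_of_ne hne with hlt | hlt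
    · have := cnt_lt (W := W) (γ := γ) hlt (h3.symm ▸ hy)
      omega
    · have := cnt_lt (W := W) (γ := γ) hlt (h1.symm ▸ hy)
      omega
  · intro t; exact measurableSet_fr W t _ y

theorem PL_Hitn_symm (hK : ∀ x y, K x {y} = K y {x}) (W : Set V) (n : ℕ) {x y : V} (hx : x ∈ W)
    (hy : y ∈ W) : PL K x (Hitn W n y) = PL K y (Hitn W n x) := by
  rw [PL_Hitn K W n x hy, PL_Hitn K W n y hx]
  apply tsum_congr
  intro t
  exact fr_symm K hK W t _ x y

theorem cnt_le (W : Set V) (γ : ℕ → V) (t : ℕ) : cnt W γ t ≤ t + 1 := by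
  classical
  unfold cnt
  calc _ ≤ ∑ s ∈ Finset.range (t + 1), 1 := by
        apply Finset.sum_le_sum
        intro s _
        split_ifs <;> simp
    _ = t + 1 := by simp

theorem Hitn_sub_later (W : Set V) (n : ℕ) (y : V) : Hitn W n y ⊆ later n y := by
  rintro γ ⟨t, h1, _, h3⟩
  have := cnt_le W γ t
  exact ⟨t, by omega, h1⟩

theorem Hitn_sub_hit (W : Set V) (n : ℕ) (y : V) : Hitn W n y ⊆ hit y := by
  rintro γ ⟨t, h1, _, _⟩
  exact ⟨t, h1⟩

/-- The kernel is dominated. -/
theorem PL_Hitn_le (hK : ∀ x y, K x {y} = K y {x}) (W : Set V) (n : ℕ) {x y : V} (hx : x ∈ W)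
    (hy : y ∈ W) : PL K x (Hitn W n y) ≤ PL K y (later n x) := by
  rw [PL_Hitn_symm K hK W n hx hy]
  exact measure_mono (Hitn_sub_later W n x)

theorem tsum_Hitn_le (W : Set V) (n : ℕ) (x : V) : ∑' y, PL K x (Hitn W n y) ≤ 1 := by
  rw [← measure_iUnion]
  · exact prob_le_one
  · intro y y' hne
    apply Set.disjoint_left.2
    intro γ h h'
    exact hne (Hitn_unique h h')
  · exact fun y => measurableSet_Hitn W n y

/-- If there are enough visits up to time `m`, there is an `(n+1)`-st one. -/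
theorem exists_Hitn {W : Set V} {γ : ℕ → V} {n m : ℕ} (h : n + 1 ≤ cnt W γ m) :
    ∃ t ≤ m, γ ∈ Hitn W n (γ t) := by
  classical
  induction m with
  | zero =>
    rw [cnt_zero] at h
    split_ifs at h with h0
    · refine ⟨0, le_rfl, 0, rfl, h0, ?_⟩
      rw [cnt_zero, if_pos h0]
      omega
    · omega
  | succ m ih =>
    by_cases h1 : n + 1 ≤ cnt W γ m
    · obtain ⟨t, ht, h2⟩ := ih h1
      exact ⟨t, ht.trans (Nat.le_succ m), h2⟩
    · rw [cnt_succ] at h
      split_ifs at h with h0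
      · refine ⟨m + 1, le_rfl, m + 1, rfl, h0, ?_⟩
        rw [cnt_succ, if_pos h0]
        omega
      · omega

/-- The mass kept in `F`. -/
theorem mass_ge (W : Set V) (n m : ℕ) (x : V) (F : Finset V)
    (hF : PL K x {γ | ∀ t ≤ m, γ t ∈ F} = 1) :
    1 ≤ PL K x {γ | cnt W γ m ≤ n} + ∑ y ∈ F, PL K x (Hitn W n y) := by
  rw [← hF]
  have hsub : {γ : ℕ → V | ∀ t ≤ m, γ t ∈ F} ⊆ {γ | cnt W γ m ≤ n} ∪ ⋃ y ∈ F, Hitn W n y := by
    intro γ hγ
    by_cases h : cnt W γ m ≤ n
    · exact Or.inl h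
    · right
      push Not at h
      obtain ⟨t, ht, h2⟩ := exists_Hitn (W := W) (γ := γ) (n := n) (m := m) h
      simp only [mem_iUnion]
      exact ⟨γ t, hγ t ht, h2⟩
  refine (measure_mono hsub).trans ((measure_union_le _ _).trans ?_)
  gcongr
  exact measure_biUnion_finset_le _ _

end Pool.Agent.W5h98.Frog
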