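import Mathlib

/-!
Markov chains on a countable set driven by independent random maps; first step decomposition.
-/

set_option autoImplicit false
set_option linter.unusedSectionVars false

namespace Pool.Agent.W5h98.Frog
open MeasureTheory ProbabilityTheory Set
open scoped ENNReal

/-- Put `a` in front of the sequence `s`. -/
def hcons {X : Type*} (a : X) (s : ℕ → X) : ℕ → X
  | 0 => a
  | n + 1 => s n

theorem hcons_zero {X : Type*} (a : X) (s : ℕ → X) : hcons a s 0 = a := rfl

theorem hcons_succ {X : Type*} (a : X) (s : ℕ → X) (n : ℕ) : hcons a s (n + 1) = s n := rfl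

theorem measurable_hcons {X : Type*} [MeasurableSpace X] :
    Measurable (fun p : X × (ℕ → X) => hcons p.1 p.2) := by
  rw [measurable_pi_iff]
  intro n
  cases n with
  | zero => exact measurable_fst
  | succ n => exact (measurable_pi_apply n).comp measurable_snd

theorem map_hcons {X : Type*} [MeasurableSpace X] (ν : Measure X) [IsProbabilityMeasure ν] :
    (ν.prod (Measure.infinitePi fun _ : ℕ => ν)).map (fun p : X × (ℕ → X) => hcons p.1 p.2) =
      Measure.infinitePi (fun _ : ℕ => ν) := by
  classical
  have hprob : IsProbabilityMeasure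
      ((ν.prod (Measure.infinitePi fun _ : ℕ => ν)).map (fun p : X × (ℕ → X) => hcons p.1 p.2)) :=
    Measure.isProbabilityMeasure_map measurable_hcons.aemeasurable
  apply Measure.eq_infinitePi
  intro s t ht
  rw [Measure.map_apply measurable_hcons (MeasurableSet.pi s.countable_toSet fun i _ => ht i)]
  have hpre : (fun p : X × (ℕ → X) => hcons p.1 p.2) ⁻¹' (Set.pi s t) =
      (if 0 ∈ s then t 0 else univ) ×ˢ
        (Set.pi ((s.preimage Nat.succ Nat.succ_injective.injOn : Finset ℕ) : Set ℕ)
          (fun j => t (j + 1))) := by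
    ext ⟨a, b⟩
    simp only [mem_preimage, Set.mem_pi, Finset.mem_coe, mem_prod, Finset.coe_preimage]
    constructor
    · intro h
      refine ⟨?_, fun j hj => h (j + 1) hj⟩
      by_cases h0 : 0 ∈ s
      · rw [if_pos h0]; exact h 0 h0
      · rw [if_neg h0]; trivial
    · rintro ⟨h0, h1⟩ i hi
      cases i with
      | zero => rw [if_pos hi] at h0; exact h0
      | succ i => exact h1 i hi
  rw [hpre, Measure.prod_prod, Measure.infinitePi_pi _ (fun i _ => ht (i + 1))]
  by_cases h0 : 0 ∈ s
  · rw [if_pos h0]
    have : s = insert 0 ((s.preimage Nat.succ Nat.succ_injective.injOn).image Nat.succ) := by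
      ext i
      cases i with
      | zero => simp [h0]
      | succ i => simp
    conv_rhs => rw [this]
    rw [Finset.prod_insert (by simp), Finset.prod_image (fun _ _ _ _ h => Nat.succ_injective h)]
  · rw [if_neg h0, measure_univ, one_mul]
    have : s = (s.preimage Nat.succ Nat.succ_injective.injOn).image Nat.succ := by
      ext i
      cases i with
      | zero => simp [h0]
      | succ i => simp
    conv_rhs => rw [this]
    rw [Finset.prod_image (fun _ _ _ _ h => Nat.succ_injective h)]

variable {V : Type*}

/-- The position at time `t` of the walk driven by the maps `s`. -/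
def pos (s : ℕ → V → V) (x : V) : ℕ → V
  | 0 => x
  | t + 1 => s t (pos s x t)

theorem pos_hcons (f : V → V) (s : ℕ → V → V) (x : V) :
    pos (hcons f s) x = hcons x (pos s (f x)) := by
  funext t
  induction t with
  | zero => rfl
  | succ t ih =>
    show hcons f s t (pos (hcons f s) x t) = pos s (f x) t
    rw [ih]
    cases t with
    | zero => rfl
    | succ t => rfl

variable [MeasurableSpace V] [DiscreteMeasurableSpace V] [Countable V]

theorem measurable_pos (x : V) : Measurable (fun s : ℕ → V → V => pos s x) := by
  rw [measurable_pi_iff]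
  intro t
  induction t with
  | zero => exact measurable_const
  | succ t ih =>
    apply measurable_to_countable'
    intro z
    have : (fun s : ℕ → V → V => pos s x (t + 1)) ⁻¹' {z} =
        ⋃ v : V, ((fun s : ℕ → V → V => pos s x t) ⁻¹' {v}) ∩ {s | s t v = z} := by
      ext s
      simp only [mem_preimage, mem_singleton_iff, mem_iUnion, mem_inter_iff, mem_ofPred_eq]
      constructor
      · intro h; exact ⟨_, rfl, h⟩
      · rintro ⟨v, h1, h2⟩
        show s t (pos s x t) = z
        rw [h1]; exact h2
    rw [this]
    refine MeasurableSet.iUnion fun v => (ih (measurableSet_singleton v)).inter ?_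
    have : Measurable (fun s : ℕ → V → V => s t v) :=
      (measurable_pi_apply v).comp (measurable_pi_apply t)
    exact this (measurableSet_singleton z)

variable (K : V → Measure V) [∀ y, IsProbabilityMeasure (K y)]

/-- The law of the driving maps. -/
noncomputable def insLaw : Measure (ℕ → V → V) :=
  Measure.infinitePi fun _ : ℕ => Measure.infinitePi fun y : V => K y

instance : IsProbabilityMeasure (insLaw K) := by unfold insLaw; infer_instance

/-- The law of the walk from `x`. -/
noncomputable def PL (x : V) : Measure (ℕ → V) := (insLaw K).map (fun s => pos s x)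

instance (x : V) : IsProbabilityMeasure (PL K x) :=
  Measure.isProbabilityMeasure_map (measurable_pos x).aemeasurable

theorem measurable_hcons_right (x : V) : Measurable (fun γ : ℕ → V => hcons x γ) :=
  measurable_hcons.comp (measurable_const.prodMk measurable_id)

/-- First step decomposition. -/
theorem PL_step (x : V) {A : Set (ℕ → V)} (hA : MeasurableSet A) :
    PL K x A = ∑' z, K x {z} * PL K z (hcons x ⁻¹' A) := by
  have hA' : MeasurableSet (hcons x ⁻¹' A) := measurable_hcons_right x hA
  set g : V → ℝ≥0∞ := fun z => PL K z (hcons x ⁻¹' A) with hg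
  have h0 : PL K x A = insLaw K ((fun s => pos s x) ⁻¹' A) := Measure.map_apply (measurable_pos x) hA
  have h1 : insLaw K = ((Measure.infinitePi fun y : V => K y).prod (insLaw K)).map
      (fun p : (V → V) × (ℕ → V → V) => hcons p.1 p.2) := (map_hcons _).symm
  rw [h0, h1, Measure.map_apply measurable_hcons (measurable_pos x hA),
    Measure.prod_apply (measurable_hcons ((measurable_pos x) hA))]
  have h2 : ∀ f : V → V, insLaw K (Prod.mk f ⁻¹' ((fun p : (V → V) × (ℕ → V → V) => hcons p.1 p.2) ⁻¹'
      ((fun s => pos s x) ⁻¹' A))) = g (f x) := by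
    intro f
    have h3 : g (f x) = insLaw K ((fun s => pos s (f x)) ⁻¹' (hcons x ⁻¹' A)) :=
      Measure.map_apply (measurable_pos _) hA'
    rw [h3]
    congr 1
    ext s
    simp only [mem_preimage]
    rw [pos_hcons]
  simp_rw [h2]
  have h3 : ∫⁻ f, g (f x) ∂(Measure.infinitePi fun y : V => K y) =
      ∫⁻ z, g z ∂((Measure.infinitePi fun y : V => K y).map (fun f => f x)) := by
    rw [lintegral_map (measurable_of_countable _) (measurable_pi_apply x)]
  rw [h3, Measure.infinitePi_map_eval, lintegral_countable']
  apply tsum_congr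
  intro z
  rw [mul_comm]

theorem PL_zero (x : V) : PL K x {γ | γ 0 = x}ᶜ = 0 := by
  have h0 : Measurable (fun γ : ℕ → V => γ 0) := measurable_pi_apply 0
  have hm' : MeasurableSet {γ : ℕ → V | γ 0 = x} := h0 (measurableSet_singleton x)
  have hm : MeasurableSet ({γ : ℕ → V | γ 0 = x}ᶜ) := hm'.compl
  show (insLaw K).map (fun s => pos s x) _ = 0
  rw [Measure.map_apply (measurable_pos x) hm]
  have : (fun s : ℕ → V → V => pos s x) ⁻¹' {γ | γ 0 = x}ᶜ = ∅ := by
    ext s
    simp only [mem_preimage, mem_compl_iff, mem_ofPred_eq, mem_empty_iff_false, iff_false, not_not]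
    rfl
  rw [this]
  simp

/-- A family of laws with the first step decomposition is the family of walk laws. -/
theorem PL_unique (Q : V → Measure (ℕ → V)) [∀ x, IsProbabilityMeasure (Q x)]
    (hQ : ∀ x, ∀ A : Set (ℕ → V), MeasurableSet A → Q x A = ∑' z, K x {z} * Q z (hcons x ⁻¹' A)) (x : V) :
    Q x = PL K x := by
  have key : ∀ n : ℕ, ∀ A : Set (ℕ → V), MeasurableSet A →
      (∀ γ γ' : ℕ → V, (∀ i < n, γ i = γ' i) → γ ∈ A → γ' ∈ A) → ∀ x, Q x A = PL K x A := by
    intro n
    induction n with
    | zero =>
      intro A hA hd x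
      by_cases hne : A.Nonempty
      · obtain ⟨γ, hγ⟩ := hne
        have : A = univ := by
          apply Set.eq_univ_of_forall
          intro γ'
          exact hd γ γ' (fun i hi => absurd hi (Nat.not_lt_zero i)) hγ
        rw [this]; simp
      · rw [Set.not_nonempty_iff_eq_empty] at hne
        rw [hne]; simp
    | succ n ih =>
      intro A hA hd x
      rw [hQ x A hA, PL_step K x hA]
      apply tsum_congr
      intro z
      congr 1
      apply ih _ (measurable_hcons_right x hA)
      intro γ γ' h hγ
      refine hd (hcons x γ) (hcons x γ') ?_ hγ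
      intro i hi
      cases i with
      | zero => rfl
      | succ i => exact h i (Nat.lt_of_succ_lt_succ hi)
  refine MeasureTheory.ext_of_generate_finite (measurableCylinders (fun _ : ℕ => V))
    (generateFrom_measurableCylinders).symm isPiSystem_measurableCylinders ?_ (by simp)
  intro A hA
  rw [mem_measurableCylinders] at hA
  obtain ⟨s, S, hS, rfl⟩ := hA
  apply key (s.sup id + 1) _ (MeasurableSet.cylinder s hS)
  intro γ γ' h hγ
  rw [mem_cylinder] at hγ ⊢
  have : s.restrict γ' = s.restrict γ := by
    funext i
    exact (h i (Nat.lt_succ_of_le (Finset.le_sup (f := id) i.2))).symm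
  rw [this]; exact hγ

/-- Equivariance. -/
theorem PL_equiv (φ : V ≃ V) (hφ : ∀ x z, K (φ x) {φ z} = K x {z}) (x : V) {A : Set (ℕ → V)}
    (hA : MeasurableSet A) : PL K (φ x) A = PL K x {γ | (fun t => φ (γ t)) ∈ A} := by
  have hm : Measurable (fun (γ : ℕ → V) (t : ℕ) => φ.symm (γ t)) :=
    measurable_pi_lambda _ fun t => (measurable_of_countable φ.symm).comp (measurable_pi_apply t)
  have hm2 : Measurable (fun (γ : ℕ → V) (t : ℕ) => φ (γ t)) :=
    measurable_pi_lambda _ fun t => (measurable_of_countable φ).comp (measurable_pi_apply t)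
  have hp : ∀ x, IsProbabilityMeasure ((PL K (φ x)).map (fun (γ : ℕ → V) (t : ℕ) => φ.symm (γ t))) :=
    fun x => Measure.isProbabilityMeasure_map hm.aemeasurable
  have h := PL_unique K (fun x => (PL K (φ x)).map (fun (γ : ℕ → V) (t : ℕ) => φ.symm (γ t))) ?_ x
  · have h2 : PL K x {γ | (fun t => φ (γ t)) ∈ A} =
        (PL K (φ x)).map (fun (γ : ℕ → V) (t : ℕ) => φ.symm (γ t)) {γ | (fun t => φ (γ t)) ∈ A} := by
      rw [← h]
    have h3 : (PL K (φ x)).map (fun (γ : ℕ → V) (t : ℕ) => φ.symm (γ t)) {γ | (fun t => φ (γ t)) ∈ A} =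
        PL K (φ x) ((fun (γ : ℕ → V) (t : ℕ) => φ.symm (γ t)) ⁻¹' {γ | (fun t => φ (γ t)) ∈ A}) :=
      Measure.map_apply hm (hm2 hA)
    rw [h2, h3]
    congr 1
    ext γ
    simp
  · intro x A hA
    rw [Measure.map_apply hm hA, PL_step K (φ x) (hm hA), ← Equiv.tsum_eq φ]
    apply tsum_congr
    intro z
    rw [hφ, Measure.map_apply hm (measurable_hcons_right x hA)]
    congr 2
    ext γ
    simp only [mem_preimage]
    have : (fun t => φ.symm (hcons (φ x) γ t)) = hcons x (fun t => φ.symm (γ t)) := by
      funext t
      cases t with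
      | zero => simp [hcons]
      | succ t => simp [hcons]
    rw [this]

end Pool.Agent.W5h98.Frog
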